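import Pool.Agent.H529R3.Lev.Defs
import Pool.Agent.H620R2.Gauge.Upper

/-! The polynomial hierarchy relative to an oracle is closed under polynomial-time reductions. -/

set_option autoImplicit false

namespace H529R3.Lev

open Pool.Agent.NPC Pool.Agent.H622R2 Pool.Agent.H620R2.Gauge

/-- Truncation of the quantified strings to the length `p |g x|`. -/
def truncG (p : Polynomial ℕ) (g : List Bool → List Bool) : ℕ → List Bool → List Unit × List Bool
  | 0, y => (List.replicate (p.eval (g y).length) (), g y)
  | k + 1, z => ((truncG p g k (unpair z).2).1,
      pairBits (((unpair z).1.zip (truncG p g k (unpair z).2).1).map (fun u => u.1))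
        (truncG p g k (unpair z).2).2)

theorem poly_truncG (p : Polynomial ℕ) {g : List Bool → List Bool} (hg : Poly g) (k : ℕ) :
    Poly (truncG p g k) := by
  have h1 : Poly (fun z : List Bool => (unpair z).1) := Poly.fst poly_unpair
  have h2 : Poly (fun z : List Bool => (unpair z).2) := Poly.snd poly_unpair
  induction k with
  | zero =>
    have h3 : UPoly (fun z : List Bool => p.eval (g z).length) :=
      UPoly.eval (UPoly.length hg) p
    exact (Poly.pair h3 hg).congr (fun z => rfl)
  | succ k ih =>
    have h3 : Poly (fun z : List Bool => truncG p g k (unpair z).2) := ih.comp h2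
    have h4 : Poly (fun z : List Bool => (unpair z).1.zip (truncG p g k (unpair z).2).1) :=
      Poly.zip h1 (Poly.fst h3)
    have h5 : Poly (fun z : List Bool =>
        ((unpair z).1.zip (truncG p g k (unpair z).2).1).map (fun u => u.1)) :=
      Pool.Agent.NPC.Poly.map (F := fun _ u => u.1) h4 (Poly.fst (Poly.snd Poly.id))
    exact (Poly.pair (Poly.fst h3) (poly_pairBits h5 (Poly.snd h3))).congr (fun z => rfl)

theorem map_fst_zip_replicate' (w : List Bool) (m : ℕ) :
    (w.zip (List.replicate m ())).map (fun u => u.1) = w.take m := by
  induction w generalizing m with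
  | nil => simp
  | cons b w ih =>
    cases m with
    | zero => simp
    | succ m => simp [List.replicate_succ, ih]

theorem quant_truncG (p : Polynomial ℕ) (g V : List Bool → List Bool) {m m' : ℕ} (hm : m ≤ m') :
    ∀ (k j : ℕ) (b : Bool) (y t : List Bool), truncG p g j y = (List.replicate m (), t) →
      (Quant m V k b t ↔ Quant m' (fun z => V (truncG p g (j + k) z).2) k b y) := by
  intro k
  induction k with
  | zero =>
    intro j b y t h
    cases b <;> simp [Quant, h]
  | succ k ih =>
    intro j b y t h
    have key : ∀ w : List Bool, truncG p g (j + 1) (pairBits w y) =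
        (List.replicate m (), pairBits (w.take m) t) := by
      intro w
      simp only [truncG, unpair_pairBits, h, map_fst_zip_replicate']
    have e : j + 1 + k = j + (k + 1) := by omega
    cases b with
    | true =>
      simp only [Quant]
      constructor
      · rintro ⟨w, hw, h1⟩
        refine ⟨w, hw.trans hm, ?_⟩
        have h2 := (ih (j + 1) false (pairBits w y) _ (key w))
        rw [List.take_of_length_le hw, e] at h2
        exact h2.1 h1
      · rintro ⟨w, hw, h1⟩
        refine ⟨w.take m, by simp, ?_⟩
        have h2 := (ih (j + 1) false (pairBits w y) _ (key w))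
        rw [e] at h2
        exact h2.2 h1
    | false =>
      simp only [Quant]
      constructor
      · intro h1 w hw
        have h2 := (ih (j + 1) true (pairBits w y) _ (key w))
        rw [e] at h2
        exact h2.1 (h1 (w.take m) (by simp))
      · intro h1 w hw
        have h2 := (ih (j + 1) true (pairBits w y) _ (key w))
        rw [List.take_of_length_le hw, e] at h2
        exact h2.2 (h1 w (hw.trans hm))

theorem IsPH.precomp {A : Oracle} {L : Set (List Bool)} (h : IsPH A L) {g : List Bool → List Bool}
    (hg : Poly g) : IsPH A {y | g y ∈ L} := by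
  obtain ⟨V, p, k, hV, hL⟩ := h
  obtain ⟨q, hq⟩ := hg.sz_le
  refine ⟨fun z => V (truncG p g k z).2,
      p.comp (q.comp (Polynomial.C 4 * Polynomial.X + Polynomial.C 1)), k,
      hV.precomp (Poly.snd (poly_truncG p hg k)), fun y => ?_⟩
  have hm : p.eval (g y).length ≤
      (p.comp (q.comp (Polynomial.C 4 * Polynomial.X + Polynomial.C 1))).eval y.length := by
    rw [Polynomial.eval_comp]
    apply eval_mono
    have h3 := length_lt_sz (g y)
    have h4 := hq y
    rw [Polynomial.eval_comp]
    refine h3.le.trans (h4.trans (eval_mono _ ?_))
    have h5 := sz_listBool_le y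
    simpa using h5
  have h2 := quant_truncG p g V hm k 0 true y (g y) rfl
  rw [zero_add] at h2
  rw [← h2]
  exact hL (g y)

end H529R3.Lev
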