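import Pool.Agent.H529R3.Lev.Defs
import Pool.Agent.H620R2.Gauge.C
import Pool.Agent.H620R2.Gauge.Q
import Pool.Agent.H620R2.Gauge.M

/-!
# Coding: oracles `A` such that `SPACE 2_i^POL` relative to `A` is reducible to `A`
-/

set_option autoImplicit false

namespace H529R3.Lev

open Pool.Agent.NPC Pool.Agent.H622R2 Pool.Agent.H620R2.Gauge Pool.Agent.H620R2.Gauge.CC

/-- The code string for the question whether algorithm number `e` accepts `x`. -/
def codeL (R : ℕ → ℕ → ℕ) (e : ℕ) (x : List Bool) : List Bool :=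
  List.replicate e true ++ false :: (ones (R e x.length) ++ false :: x)

theorem codeL_inj (R : ℕ → ℕ → ℕ) {e e' : ℕ} {x x' : List Bool}
    (h : codeL R e x = codeL R e' x') : e = e' ∧ x = x' := by
  obtain ⟨h1, h2⟩ := rep_inj _ _ _ _ h
  obtain ⟨h3, h4⟩ := rep_inj _ _ _ _ h2
  exact ⟨h1, h4⟩

theorem lt_length_codeL (R : ℕ → ℕ → ℕ) (e : ℕ) (x : List Bool) :
    R e x.length < (codeL R e x).length := by
  unfold codeL ones
  simp only [List.length_append, List.length_replicate, List.length_cons]
  omega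

open Classical in
/-- the oracle -/
noncomputable def PhiL (R : ℕ → ℕ → ℕ) (V : ℕ → Oracle → List Bool → Prop) (B : Oracle)
    (y : List Bool) : Bool :=
  if h : ∃ p : ℕ × List Bool, y = codeL R p.1 p.2 then
    decide (V h.choose.1 (fun z => if _hz : z.length < y.length then PhiL R V B z else false)
      h.choose.2)
  else B y
termination_by y.length

theorem PhiL_not (R : ℕ → ℕ → ℕ) (V : ℕ → Oracle → List Bool → Prop) (B : Oracle)
    (y : List Bool) (h : ∀ e x, y ≠ codeL R e x) : PhiL R V B y = B y := by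
  rw [PhiL, dif_neg]
  rintro ⟨p, hp⟩
  exact h _ _ hp

open Classical in
theorem PhiL_code (R : ℕ → ℕ → ℕ) (V : ℕ → Oracle → List Bool → Prop) (B : Oracle)
    (hV : ∀ e A A' x, (∀ z : List Bool, z.length < (codeL R e x).length → A z = A' z) →
      (V e A x ↔ V e A' x)) (e : ℕ) (x : List Bool) :
    PhiL R V B (codeL R e x) = true ↔ V e (PhiL R V B) x := by
  have h : ∃ p : ℕ × List Bool, codeL R e x = codeL R p.1 p.2 := ⟨(e, x), rfl⟩
  rw [PhiL, dif_pos h, decide_eq_true_iff]
  obtain ⟨h1, h2⟩ := codeL_inj R h.choose_spec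
  rw [← h1, ← h2]
  apply hV
  intro z hz
  rw [dif_pos hz]

theorem exists_enumL : ∃ g : ℕ → SAlg × Polynomial ℕ × Polynomial ℕ, Function.Surjective g := by
  have h1 := poly_countable
  have h2 := salg_countable
  exact exists_surjective_nat _

theorem exists_codingL (i K : ℕ) : ∃ (R : ℕ → ℕ → ℕ) (Φ : Oracle → Oracle),
    (∀ e n, tow i ((n + e + 1) ^ K) ≤ R e n) ∧
    (∀ B y, (∀ e x, y ≠ codeL R e x) → Φ B y = B y) ∧
    ∀ B L, IsSpace i (Φ B) L → ReducesTime i (Φ B) L := by
  obtain ⟨g, hg⟩ := exists_enumL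
  choose b hb using fun e : ℕ => act_length (g e).1 (g e).2.1
  choose r hr using fun e : ℕ => absorb i ((b e).comp (3 * Polynomial.X + 1))
    (Polynomial.X + (g e).2.2)
  set rr : ℕ → Polynomial ℕ := fun e => r e + (Polynomial.X + Polynomial.C (e + 1)) ^ K with hrr
  set R : ℕ → ℕ → ℕ := fun e n => tow i ((rr e).eval n) with hR
  set Y : ℕ → List Bool → List Bool := fun e x =>
    pairBits x (ones (tow i ((g e).2.2.eval x.length))) with hY
  set V : ℕ → Oracle → List Bool → Prop := fun e A x =>
    Acc (g e).1 (cut ((b e).eval (Y e x).length) A) (Y e x) with hV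
  have hRe : ∀ e n, (rr e).eval n = (r e).eval n + (n + (e + 1)) ^ K := by
    intro e n
    rw [hrr]
    simp only [Polynomial.eval_add, Polynomial.eval_pow, Polynomial.eval_X, Polynomial.eval_C]
  have hbR : ∀ e x, (b e).eval (Y e x).length ≤ R e x.length := by
    intro e x
    have h1 := hr e x.length
    rw [Polynomial.eval_comp] at h1
    have h2 : (Polynomial.X + (g e).2.2).eval x.length = x.length + (g e).2.2.eval x.length := by
      simp
    rw [h2] at h1
    have h3 : (Y e x).length ≤ (3 * Polynomial.X + 1 : Polynomial ℕ).eval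
        (tow i (x.length + (g e).2.2.eval x.length)) := by
      rw [hY]
      simp only [length_pairBits, ones, List.length_replicate]
      have h4 : tow i ((g e).2.2.eval x.length) ≤ tow i (x.length + (g e).2.2.eval x.length) :=
        tow_mono i (by omega)
      have h5 : x.length ≤ tow i (x.length + (g e).2.2.eval x.length) :=
        le_trans (by omega) (le_tow i _)
      have h6 : (3 * Polynomial.X + 1 : Polynomial ℕ).eval
        (tow i (x.length + (g e).2.2.eval x.length)) =
        3 * tow i (x.length + (g e).2.2.eval x.length) + 1 := by simp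
      rw [h6]
      omega
    refine (eval_mono (b e) h3).trans (h1.trans ?_)
    exact tow_mono i (by rw [hRe]; omega)
  refine ⟨R, PhiL R V, ?_, fun B y h => PhiL_not R V B y h, ?_⟩
  · intro e n
    refine tow_mono i ?_
    rw [hRe, add_assoc n e 1]
    exact Nat.le_add_left _ _
  · rintro B L ⟨pd, L', ⟨M, p, hM⟩, hL⟩
    obtain ⟨e, he⟩ := hg (M, p, pd)
    have hloc : ∀ e A A' x, (∀ z : List Bool, z.length < (codeL R e x).length → A z = A' z) →
        (V e A x ↔ V e A' x) := by
      intro e A A' x h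
      have hcut : cut ((b e).eval (Y e x).length) A = cut ((b e).eval (Y e x).length) A' := by
        funext z
        unfold cut
        split_ifs with hz
        · apply h
          have h1 := lt_length_codeL R e x
          have h2 := hbR e x
          omega
        · rfl
      simp only [hV, hcut]
    have key : ∀ x, x ∈ L ↔ PhiL R V B (codeL R e x) = true := by
      intro x
      rw [PhiL_code R V B hloc e x]
      change x ∈ L ↔ Acc (g e).1 (cut ((b e).eval (Y e x).length) (PhiL R V B)) (Y e x)
      have hbe := hb e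
      have hYe : Y e x = pairBits x (ones (tow i (pd.eval x.length))) := by
        rw [hY]
        simp only [he]
      rw [hYe]
      rw [hL x]
      set y := pairBits x (ones (tow i (pd.eval x.length))) with hy
      rw [he] at hbe ⊢
      obtain ⟨hM1, s, z, hs, hz, hL'⟩ := hM y
      have hcong : ∀ s, M.Reach (cut ((b e).eval y.length) (PhiL R V B)) y s ↔
          M.Reach (PhiL R V B) y s := by
        refine reach_congr (fun s => s.length ≤ p.eval y.length) hM1 ?_
        intro s q h1 h2
        have h3 := hbe y s h1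
        rw [h2, List.length_cons] at h3
        unfold cut
        rw [if_pos (by omega)]
      constructor
      · intro hx
        refine ⟨s, (hcong s).2 hs, ?_⟩
        rw [hz, hL'.1 hx]
      · rintro ⟨t, ht, ht2⟩
        have hst := reach_unique hs ((hcong t).1 ht) ⟨_, hz⟩ ⟨_, ht2⟩
        rw [hst, ht2] at hz
        simp only [List.cons.injEq, true_and] at hz
        exact hL'.2 hz.symm
    -- the reduction
    set G : List Bool → List Bool := fun z =>
      List.replicate e true ++ false :: ((unpair z).2 ++ false :: (unpair z).1) with hG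
    have hGp : Poly G := by
      have h1 : Poly (fun z : List Bool => (unpair z).1) := Poly.fst poly_unpair
      have h2 : Poly (fun z : List Bool => (unpair z).2) := Poly.snd poly_unpair
      exact Pool.Agent.NPC.Poly.append (Pool.Agent.NPC.Poly.const _) (Pool.Agent.NPC.Poly.cons (Pool.Agent.NPC.Poly.const false)
        (Pool.Agent.NPC.Poly.append h2 (Pool.Agent.NPC.Poly.cons (Pool.Agent.NPC.Poly.const false) h1)))
    refine ⟨rr e, {z | PhiL R V B (G z) = true}, ⟨G, polyTime_of_poly_list hGp, fun z => Iff.rfl⟩,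
      fun x => ?_⟩
    rw [key x]
    show _ ↔ PhiL R V B (G (pairBits x (ones (tow i ((rr e).eval x.length))))) = true
    have h1 : G (pairBits x (ones (tow i ((rr e).eval x.length)))) = codeL R e x := by
      rw [hG]
      simp only [unpair_pairBits]
      rfl
    rw [h1]

open Classical in
theorem sparse_natL (i : ℕ) {K : ℕ} (R : ℕ → ℕ → ℕ)
    (hR : ∀ e n, tow i ((n + e + 1) ^ K) ≤ R e n) (N J : ℕ)
    (hJ : Nat.log 2 N < tow i ((J + 1) ^ K)) :
    ((Finset.range N).filter (fun i => ∃ e x, str i = codeL R e x)).card ≤ 2 ^ (J + 1) := by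
  let P : ℕ → Prop := fun i => ∃ e x, str i = codeL R e x
  let w : ℕ → List Bool := fun i =>
    if h : P i then List.replicate h.choose true ++ false :: h.choose_spec.choose else []
  have hw : ∀ i, (h : P i) → w i =
      List.replicate h.choose true ++ false :: h.choose_spec.choose := fun i h => dif_pos h
  have hcode : ∀ i, (h : P i) → str i = codeL R h.choose h.choose_spec.choose :=
    fun i h => h.choose_spec.choose_spec
  rw [← Finset.card_range (2 ^ (J + 1))]
  apply Finset.card_le_card_of_injOn (fun i => idx (w i))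
  · intro j hi
    rw [Finset.mem_coe, Finset.mem_filter, Finset.mem_range] at hi
    have hP : P j := hi.2
    rw [Finset.mem_coe, Finset.mem_range]
    have h1 := hcode j hP
    have h2 := lt_length_codeL R hP.choose hP.choose_spec.choose
    rw [← h1, length_str] at h2
    have h3 := hR hP.choose hP.choose_spec.choose.length
    have h4 : Nat.log 2 (j + 1) ≤ Nat.log 2 N := Nat.log_mono_right (by omega)
    have h5 : tow i ((hP.choose_spec.choose.length + hP.choose + 1) ^ K) <
        tow i ((J + 1) ^ K) := by omega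
    have h5' : (hP.choose_spec.choose.length + hP.choose + 1) ^ K < (J + 1) ^ K := by
      by_contra hcon
      push Not at hcon
      have := tow_mono i hcon
      omega
    have h6 : hP.choose_spec.choose.length + hP.choose + 1 < J + 1 :=
      lt_of_pow_lt_pow_left₀ K (by omega) h5'
    have h7 : (w j).length ≤ J := by
      rw [hw j hP]
      simp
      omega
    have h8 := idx_lt (w j)
    have h9 : 2 ^ ((w j).length + 1) ≤ 2 ^ (J + 1) := Nat.pow_le_pow_right (by norm_num) (by omega)
    show idx (w j) < 2 ^ (J + 1)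
    omega
  · intro i hi j hj hij
    rw [Finset.mem_coe, Finset.mem_filter] at hi hj
    have hPi : P i := hi.2
    have hPj : P j := hj.2
    have h1 : w i = w j := by
      have := congrArg str hij
      simpa [str_idx] using this
    rw [hw i hPi, hw j hPj] at h1
    obtain ⟨h2, h3⟩ := marker_inj h1
    apply str_injective
    have h4 : ∀ (e e' : ℕ) (x x' : List Bool), e = e' → x = x' →
        codeL R e x = codeL R e' x' := by
      intro e e' x x' he hx
      rw [he, hx]
    rw [hcode i hPi, hcode j hPj]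
    exact h4 _ _ _ _ h2 h3

open Classical in
theorem sparseL (i : ℕ) {K : ℕ} (R : ℕ → ℕ → ℕ) (hR : ∀ e n, tow i ((n + e + 1) ^ K) ≤ R e n)
    {ε : ℝ} (hK : 1 < ε * K) :
    ∀ᶠ N : ℕ in Filter.atTop, (((Finset.range N).filter
      (fun i => ∃ e x, str i = codeL R e x)).card : ℝ) ≤
      2 ^ ((Real.logb 2)^[i + 1] (N : ℝ)) ^ ε := by
  have hK1 : 1 ≤ K := by
    rcases Nat.eq_zero_or_pos K with h | h
    · subst h; simp at hK; linarith
    · exact h
  have hK0 : (0 : ℝ) < K := by exact_mod_cast hK1
  have hpos : 0 < ε - 1 / K := by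
    have : 1 / (K : ℝ) < ε := by
      rw [div_lt_iff₀ hK0]; exact hK
    linarith
  have ht : Filter.Tendsto (fun N : ℕ => ((Real.logb 2)^[i + 1] (N : ℝ)) ^ (ε - 1 / K))
      Filter.atTop Filter.atTop :=
    (tendsto_rpow_atTop hpos).comp (tendsto_iter (i + 1))
  filter_upwards [ht.eventually_ge_atTop 2, (tendsto_iter (i + 1)).eventually_ge_atTop 1,
    Filter.eventually_ge_atTop 2] with N h2 hL1 hN
  set L := (Real.logb 2)^[i + 1] (N : ℝ) with hL
  have hN' : (2 : ℝ) ≤ N := by exact_mod_cast hN
  have hL0 : 0 < L := by linarith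
  set J := Nat.floor (L ^ (1 / (K : ℝ))) with hJdef
  have hJle : (J : ℝ) ≤ L ^ (1 / (K : ℝ)) := Nat.floor_le (Real.rpow_nonneg hL0.le _)
  have hJ : Nat.log 2 N < tow i ((J + 1) ^ K) := by
    have h3 : L ^ (1 / (K : ℝ)) < (J : ℝ) + 1 := Nat.lt_floor_add_one _
    have h4 : L < ((J : ℝ) + 1) ^ K := by
      have h5 : (L ^ (1 / (K : ℝ))) ^ K < ((J : ℝ) + 1) ^ K :=
        pow_lt_pow_left₀ h3 (Real.rpow_nonneg hL0.le _) (by omega)
      have h6 : (L ^ (1 / (K : ℝ))) ^ K = L := by
        rw [one_div, Real.rpow_inv_natCast_pow hL0.le (by omega)]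
      rw [h6] at h5
      exact h5
    have h7 : (Nat.log 2 N : ℝ) ≤ Real.logb 2 N := by
      rw [Real.le_logb_iff_rpow_le (by norm_num) (by linarith), Real.rpow_natCast]
      have := Nat.pow_log_le_self 2 (show N ≠ 0 by omega)
      exact_mod_cast this
    have h8 : (Real.logb 2)^[i] (Real.logb 2 (N : ℝ)) < (((J + 1) ^ K : ℕ) : ℝ) := by
      rw [← Function.iterate_succ_apply]
      push_cast
      exact h4
    have h9 := lt_tow i _ _ h8
    exact_mod_cast lt_of_le_of_lt h7 h9
  have h9 := sparse_natL i R hR N J hJ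
  have h10 : (J : ℝ) + 1 ≤ L ^ ε := by
    have h11 : 1 ≤ L ^ (1 / (K : ℝ)) := Real.one_le_rpow hL1 (by positivity)
    have h12 : L ^ ε = L ^ (1 / (K : ℝ)) * L ^ (ε - 1 / K) := by
      rw [← Real.rpow_add hL0]; congr 1; ring
    rw [h12]
    nlinarith
  calc (((Finset.range N).filter (fun i => ∃ e x, str i = codeL R e x)).card : ℝ)
      ≤ ((2 ^ (J + 1) : ℕ) : ℝ) := by exact_mod_cast h9
    _ = (2 : ℝ) ^ ((J : ℝ) + 1) := by
        push_cast
        rw [← Real.rpow_natCast]
        push_cast
        rfl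
    _ ≤ 2 ^ L ^ ε := Real.rpow_le_rpow_of_exponent_le (by norm_num) h10

theorem not_null_level (i : ℕ) (f : ℕ → ℝ) (ε : ℝ) (hε : 0 < ε)
    (hf : ∀ᶠ N : ℕ in Filter.atTop, 2 ^ ((Real.logb 2)^[i + 1] (N : ℝ)) ^ ε < f N)
    (O : Set Oracle) (hO : ∀ A : Oracle, (∀ L, IsSpace i A L → ReducesTime i A L) → A ∈ O) :
    ¬ Null f O := by
  classical
  intro hnull
  obtain ⟨K, hK⟩ := exists_nat_gt (1 / ε)
  have hK' : 1 < ε * K := by
    rw [div_lt_iff₀ hε] at hK
    linarith
  obtain ⟨R, Φ, hR, hΦ, hΦO⟩ := exists_codingL i K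
  have hsp := sparseL i R hR hK'
  obtain ⟨N₀, hN₀⟩ := Filter.eventually_atTop.1 (hf.and hsp)
  -- the bound for the short sequences
  obtain ⟨δ, hδ, hδ1, hδ2⟩ : ∃ δ : ℝ, 0 < δ ∧ δ < 1 ∧
      ∀ N < N₀, δ < 2 ^ (f N - N) := by
    have h1 : ∀ M : ℕ, ∃ δ : ℝ, 0 < δ ∧ δ < 1 ∧ ∀ N < M, δ < 2 ^ (f N - N) := by
      intro M
      induction M with
      | zero => exact ⟨1 / 2, by norm_num, by norm_num, fun N hN => by omega⟩
      | succ M ih =>
        obtain ⟨δ, h1, h2, h3⟩ := ih
        have h4 : (0 : ℝ) < 2 ^ (f M - M) := Real.rpow_pos_of_pos (by norm_num) _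
        refine ⟨min δ (2 ^ (f M - M) / 2), lt_min h1 (by positivity),
          (min_le_left _ _).trans_lt h2, ?_⟩
        intro N hN
        rcases Nat.lt_succ_iff_lt_or_eq.1 hN with h | h
        · exact (min_le_left _ _).trans_lt (h3 N h)
        · subst h
          exact (min_le_right _ _).trans_lt (by linarith)
    exact h1 N₀
  obtain ⟨S, hS, hsum⟩ := hnull δ hδ
  have hm := mass Φ {y | ∃ e x, y = codeL R e x} (fun B y hy => hΦ B y (by
    intro e x h
    exact hy ⟨e, x, h⟩)) S (fun B => hS (Φ B) (hO _ (hΦO B)))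
  have hle : ∀ σ : S, ENNReal.ofReal
      (2 ^ ((((Finset.range σ.1.length).filter
        (fun i => str i ∈ {y | ∃ e x, y = codeL R e x})).card : ℝ) - (σ.1.length : ℝ))) ≤
      ENNReal.ofReal (2 ^ (f σ.1.length - σ.1.length)) := by
    intro σ
    have hlen : N₀ ≤ σ.1.length := by
      by_contra hlt
      push Not at hlt
      have h1 := hδ2 _ hlt
      have h2 : ENNReal.ofReal (2 ^ (f σ.1.length - σ.1.length)) ≤ ENNReal.ofReal δ :=
        (ENNReal.le_tsum σ).trans hsum
      have h3 := (ENNReal.ofReal_le_ofReal_iff hδ.le).1 h2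
      linarith
    obtain ⟨h1, h2⟩ := hN₀ _ hlen
    apply ENNReal.ofReal_le_ofReal
    apply Real.rpow_le_rpow_of_exponent_le (by norm_num)
    have h3 : (((Finset.range σ.1.length).filter
        (fun i => str i ∈ {y | ∃ e x, y = codeL R e x})).card : ℝ) ≤
        2 ^ ((Real.logb 2)^[i + 1] (σ.1.length : ℝ)) ^ ε := by
      refine le_trans (le_of_eq ?_) h2
      congr 2
    linarith
  have h1 : (1 : ENNReal) ≤ ENNReal.ofReal δ := hm.trans ((ENNReal.tsum_le_tsum hle).trans hsum)
  rw [← ENNReal.ofReal_one] at h1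
  have h2 := (ENNReal.ofReal_le_ofReal_iff hδ.le).1 h1
  linarith

end H529R3.Lev
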