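import Pool.Agent.H529R3.Lev.CoverL
import Pool.Agent.H529R3.Lev.Coding
import Pool.Agent.H529R3.Lev.Precomp
import Pool.Agent.H620R2.Gauge.P
import Pool.Agent.H620R2.Gauge.Upper
import Pool.Agent.H620R2.Gauge.U1

/-! The exact gauge size of the oracles for which a level collapses. -/

set_option autoImplicit false

namespace H529R3.Lev

open Pool.Agent.NPC Pool.Agent.H622R2 Pool.Agent.H620R2.Gauge Filter

/-- The hierarchy over `TIME 2_i^POL` relative to `A`. -/
def IsTH (i : ℕ) (A : Oracle) (L : Set (List Bool)) : Prop := Padded i (IsPH A) L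

theorem test_space (i : ℕ) (A : Oracle) : IsSpace i A (test i A) :=
  ⟨Polynomial.X, parLang A, parLang_pspace A, fun x => by
    rw [Polynomial.eval_X]
    exact Iff.rfl⟩

theorem IsTime.isSpace {i : ℕ} {A : Oracle} {L : Set (List Bool)} (h : IsTime i A L) :
    IsSpace i A L := h.mono fun _ h' => h'.isPSPACE

theorem IsTH.isSpace {i : ℕ} {A : Oracle} {L : Set (List Bool)} (h : IsTH i A L) :
    IsSpace i A L := h.mono fun _ h' => h'.isPSPACE

theorem IsTime.isTH {i : ℕ} {A : Oracle} {L : Set (List Bool)} (h : IsTime i A L) :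
    IsTH i A L := h.mono fun _ h' => h'.isPH

theorem ReducesTime.isTime {i : ℕ} {A : Oracle} {L : Set (List Bool)} (h : ReducesTime i A L) :
    IsTime i A L := h.mono fun _ h' => isP_of_reduces h'

/-- the string without the advice -/
def strip (z : List Bool) : List Bool := pairBits (unpair (unpair z).1).1 (unpair z).2

theorem poly_strip : Poly strip :=
  poly_pairBits ((Poly.fst poly_unpair).comp (Poly.fst poly_unpair)) (Poly.snd poly_unpair)

theorem IsTH.isTHpoly {i : ℕ} {A : Oracle} {L : Set (List Bool)} (h : IsTH i A L) :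
    IsTHpoly i A L := by
  obtain ⟨p, L', hL', hx⟩ := h
  refine ⟨p, 0, fun _ => [], {y | strip y ∈ L'}, IsPH.precomp hL' poly_strip, fun n => by simp,
    fun x => ?_⟩
  rw [hx x]
  show _ ↔ strip _ ∈ L'
  unfold strip
  simp only [unpair_pairBits]

/-! ### Gauges -/

theorem null_anti {f g : ℕ → ℝ} (hgf : ∀ N, g N ≤ f N) {X : Set Oracle} (h : Null f X) :
    Null g X := by
  intro δ hδ
  obtain ⟨S, hS, hs⟩ := h δ hδ
  refine ⟨S, hS, le_trans (ENNReal.tsum_le_tsum fun σ => ?_) hs⟩
  apply ENNReal.ofReal_le_ofReal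
  apply Real.rpow_le_rpow_of_exponent_le (by norm_num)
  have := hgf σ.1.length
  linarith

theorem log_le_self : ∀ᶠ y : ℝ in atTop, Real.logb 2 y ≤ y := by
  have h := Real.isLittleO_log_id_atTop.def (Real.log_pos (by norm_num : (1 : ℝ) < 2))
  filter_upwards [h, eventually_ge_atTop 1] with y hy h1
  rw [Real.norm_eq_abs, Real.norm_eq_abs, id, abs_of_nonneg (Real.log_nonneg h1),
    abs_of_nonneg (by linarith)] at hy
  unfold Real.logb
  rw [div_le_iff₀ (Real.log_pos (by norm_num))]
  linarith

theorem iter_le (j : ℕ) : ∀ᶠ y : ℝ in atTop, (Real.logb 2)^[j + 1] y ≤ Real.logb 2 y := by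
  induction j with
  | zero => exact Eventually.of_forall fun y => le_rfl
  | succ j ih =>
    have ht : Tendsto ((Real.logb 2)^[j + 1]) atTop atTop :=
      (Real.tendsto_logb_atTop (b := 2) (by norm_num)).iterate (j + 1)
    filter_upwards [ih, ht.eventually log_le_self] with y h1 h2
    rw [Function.iterate_succ_apply']
    exact h2.trans h1

theorem iter_rpow (j : ℕ) {ε ε' : ℝ} (hε : 0 < ε) (hε' : 0 < ε') :
    ∀ᶠ y : ℝ in atTop, ((Real.logb 2)^[j + 1] y) ^ ε ≤ y ^ ε' := by
  have hlog2 : 0 < Real.log 2 := Real.log_pos (by norm_num)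
  have h := (isLittleO_log_rpow_rpow_atTop ε hε').def (Real.rpow_pos_of_pos hlog2 ε)
  have ht : Tendsto ((Real.logb 2)^[j + 1]) atTop atTop :=
    (Real.tendsto_logb_atTop (b := 2) (by norm_num)).iterate (j + 1)
  filter_upwards [h, iter_le j, ht.eventually_ge_atTop 0, eventually_ge_atTop 1] with y h1 h2 h3 h4
  have hl : 0 ≤ Real.log y := Real.log_nonneg h4
  rw [Real.norm_eq_abs, Real.norm_eq_abs, abs_of_nonneg (Real.rpow_nonneg hl _),
    abs_of_nonneg (Real.rpow_nonneg (by linarith) _)] at h1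
  calc ((Real.logb 2)^[j + 1] y) ^ ε ≤ (Real.logb 2 y) ^ ε := Real.rpow_le_rpow h3 h2 hε.le
    _ = Real.log y ^ ε / Real.log 2 ^ ε := by
        unfold Real.logb
        rw [Real.div_rpow hl hlog2.le]
    _ ≤ y ^ ε' := by
        rw [div_le_iff₀ (Real.rpow_pos_of_pos hlog2 ε)]
        linarith

/-- The main theorem for the levels `TIME 2_m^POL` and `SPACE 2_m^POL`. -/
theorem exact_level (m : ℕ) (f : ℕ → ℝ) (O : Set Oracle)
    (h1 : ∀ A : Oracle, (∀ L, IsSpace m A L → ReducesTime m A L) →
      (∀ i < m, ∃ L, IsSpace i A L ∧ ¬ IsTHpoly i A L) → A ∈ O)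
    (h2 : ∀ A ∈ O, ∀ L, IsSpace m A L → IsTHpoly m A L) :
    Null f O ↔ Cond m f := by
  constructor
  · intro hn
    by_contra hcon
    unfold Cond at hcon
    push Not at hcon
    obtain ⟨ε, hε, hf⟩ := hcon
    set F : ℕ → ℝ := fun N => 2 ^ ((Real.logb 2)^[m + 1] (N : ℝ)) ^ ε with hF
    set g : ℕ → ℝ := fun N => min (f N) (F N) with hg
    have hgO : Null g O := null_anti (fun N => min_le_left _ _) hn
    have hE : ∀ i < m, Null g {A : Oracle | ∀ L, IsSpace i A L → IsTHpoly i A L} := by
      intro i hi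
      refine null_level i g ?_ _ fun A hA => hA _ (test_space i A)
      intro ε' hε'
      apply Eventually.frequently
      obtain ⟨j, rfl⟩ : ∃ j, m = i + (j + 1) := ⟨m - i - 1, by omega⟩
      filter_upwards [(tendsto_iter (i + 1)).eventually (iter_rpow j hε hε')] with N hN
      refine (min_le_right _ _).trans ?_
      rw [hF]
      apply Real.rpow_le_rpow_of_exponent_le (by norm_num)
      rw [← Function.iterate_add_apply] at hN
      have e : j + 1 + (i + 1) = i + (j + 1) + 1 := by ring
      rw [e] at hN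
      exact hN
    have hU : Null g (O ∪ ⋃ i : Fin m, {A : Oracle | ∀ L, IsSpace i A L → IsTHpoly i A L}) :=
      null_union hgO (null_iUnion _ fun i => hE i i.2)
    refine not_null_level m g (ε / 2) (by positivity) ?_
      {A : Oracle | ∀ L, IsSpace m A L → ReducesTime m A L} (fun A hA => hA) (hU.mono ?_)
    · filter_upwards [hf, (tendsto_iter (m + 1)).eventually_gt_atTop 1] with N hN hN1
      have h3 : (2 : ℝ) ^ ((Real.logb 2)^[m + 1] (N : ℝ)) ^ (ε / 2) < F N := by
        rw [hF]
        apply Real.rpow_lt_rpow_of_exponent_lt (by norm_num)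
        exact Real.rpow_lt_rpow_of_exponent_lt hN1 (by linarith)
      exact lt_min (h3.trans hN) h3
    · intro A hA
      by_cases hex : ∀ i < m, ∃ L, IsSpace i A L ∧ ¬ IsTHpoly i A L
      · exact Or.inl (h1 A hA hex)
      · right
        push Not at hex
        obtain ⟨i, hi, h3⟩ := hex
        exact Set.mem_iUnion.2 ⟨⟨i, hi⟩, h3⟩
  · intro hf
    exact null_level m f hf O fun A hA => h2 A hA _ (test_space m A)

end H529R3.Lev
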