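import Pool.Agent.H529R3.Lev.Defs
import Pool.Agent.H620R2.Gauge.A1

/-! The strings asked by an algorithm. -/

set_option autoImplicit false

namespace H529R3.Lev

open Pool.Agent.NPC Pool.Agent.H620R2.Gauge Finset

open Classical in
/-- the strings asked in the run -/
noncomputable def asked (M : Alg) (A : Oracle) (x : List Bool) : ℕ → List Bool → Finset (List Bool)
  | 0, _ => ∅
  | n + 1, a =>
    match M.D (pairBits x a) with
    | [] => ∅
    | true :: _ => ∅
    | false :: q => insert q (asked M A x n (a ++ [A q]))

theorem asked_card (M : Alg) (A : Oracle) (x : List Bool) : ∀ (n : ℕ) (a : List Bool),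
    (asked M A x n a).card ≤ n := by
  intro n
  induction n with
  | zero => intro a; simp [asked]
  | succ n ih =>
    intro a
    rw [asked]
    rcases M.D (pairBits x a) with _ | ⟨c, q⟩
    · simp
    · cases c
      · exact (Finset.card_insert_le _ _).trans (by have := ih (a ++ [A q]); omega)
      · simp

theorem asked_congr (M : Alg) (A A' : Oracle) (x : List Bool) : ∀ (n : ℕ) (a : List Bool),
    (∀ q ∈ asked M A x n a, A' q = A q) →
    asked M A' x n a = asked M A x n a ∧ M.run A' x n a = M.run A x n a := by
  intro n
  induction n with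
  | zero => intro a _; simp [asked, Alg.run]
  | succ n ih =>
    intro a h
    rw [asked] at h
    rw [asked, asked, Alg.run, Alg.run]
    rcases hq : M.D (pairBits x a) with _ | ⟨c, q⟩
    · simp
    · cases c
      · rw [hq] at h
        simp only at h ⊢
        have h1 : A' q = A q := h q (Finset.mem_insert_self _ _)
        have h2 := ih (a ++ [A q]) fun r hr => h r (Finset.mem_insert_of_mem hr)
        rw [h1]
        exact ⟨by rw [h2.1], h2.2⟩
      · simp

/-- the acceptance depends only on the strings of bounded length -/
theorem out_congr (M : Alg) (y : List Bool) : ∃ ℓ : ℕ, ∀ A A' : Oracle,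
    (∀ q : List Bool, q.length ≤ ℓ → A' q = A q) → M.out A' y = M.out A y := by
  obtain ⟨b, hb⟩ := Alg.out_local M
  refine ⟨b.eval y.length, fun A A' h => ?_⟩
  obtain ⟨Q, _, hQl, hQA⟩ := hb A y
  exact hQA A' fun q hq => h q (hQl q hq)

/-- the acceptance on the padded input -/
def AccP (i : ℕ) (M : Alg) (p : Polynomial ℕ) (A : Oracle) (x : List Bool) : Prop :=
  M.out A (pairBits x (ones (tow i (p.eval x.length)))) = some [true]

theorem exists_enumP : ∃ g : ℕ → Alg × Polynomial ℕ, Function.Surjective g := by
  have h2 : Countable (Polynomial ℕ) := by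
    have : Function.Injective (fun p : Polynomial ℕ => (p.toFinsupp.coeff : ℕ →₀ ℕ)) := by
      intro p q h
      ext n
      exact DFunLike.congr_fun h n
    exact this.countable
  have h3 : Nonempty (Alg × Polynomial ℕ) :=
    ⟨(⟨fun _ => [], Pool.Agent.H622R2.polyTime_of_poly_list (Pool.Agent.NPC.Poly.const []), 0⟩, 0)⟩
  exact exists_surjective_nat _

end H529R3.Lev
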