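import Pool.Agent.H529R3.Lev.Event
import Pool.Agent.H620R2.Gauge.Y

/-! The choice of the parameters. -/

set_option autoImplicit false

namespace H529R3.Lev

open Pool.Agent.NPC Pool.Agent.H620R2.Gauge Filter

theorem asym' (θ : PA) (i : ℕ) (Q : Polynomial ℕ) (f : ℕ → ℝ) (hf : Cond i f) (δ : ℝ)
    (hδ : 0 < δ) : ∃ n N u v : ℕ, θ.PP.eval (tow i (θ.s.eval n)) ≤ 2 ^ (2 * v) ∧ u ≤ v ∧ u ≤ n ∧
      2 ^ tow i (Q.eval n) ≤ N ∧
      (bnd θ.k (Polynomial.C (θ.PP.eval (tow i (θ.s.eval n)))) (lB i n) v +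
        2 ^ (2 * θ.p'.eval n) * (1 / 2) ^ 2 ^ u) * 2 ^ f N ≤ δ := by
  set k := θ.k with hk
  set c : ℕ := 8 * (k + 1) with hc
  have hc0 : 0 < c := by omega
  set Q' : Polynomial ℕ := Q + Polynomial.X with hQ'
  have hQ'ev : ∀ n, Q'.eval n = Q.eval n + n := by intro n; simp [hQ']
  set e : ℕ := Q'.natDegree with he
  set D : ℕ := e + 1 with hD
  set P2 : Polynomial ℕ := 2 * θ.p' with hP2
  have hP2ev : ∀ n, P2.eval n = 2 * θ.p'.eval n := by intro n; simp [hP2]
  -- eventual conditions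
  have hu : Tendsto (fun n : ℕ => n / c) atTop atTop := Nat.tendsto_div_const_atTop hc0.ne'
  have hlB : ∀ n, n ≤ lB i n := by intro n; unfold lB; omega
  have hv : Tendsto (fun n : ℕ => lB i n / c) atTop atTop :=
    tendsto_atTop_mono (fun n => Nat.div_le_div_right (hlB n)) hu
  have hTt : Tendsto (fun u : ℕ => (2 : ℝ) ^ u) atTop atTop :=
    tendsto_pow_atTop_atTop_of_one_lt (by norm_num)
  have hev : ∀ᶠ n : ℕ in atTop,
      (8 * θ.PP.eval (tow i (θ.s.eval n)) ≤ 2 ^ (lB i n / c)) ∧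
      (8 * (P2.eval 1 * (c * (n / c + 1)) ^ P2.natDegree) ≤ 2 ^ (n / c)) ∧
      ((k : ℝ) + 1 + (2 : ℝ) ^ (lB i n / c) * (((2 : ℝ) ^ (lB i n / c)) ^ 3 + 1) ≤
          2 ^ ((2 : ℝ) ^ (lB i n / c) / 8) ∧ 1 / (δ / 2) ≤ 2 ^ ((2 : ℝ) ^ (lB i n / c) / 8)) ∧
      (1 / (δ / 2) ≤ (2 : ℝ) ^ ((2 : ℝ) ^ (n / c) / 8)) ∧
      c + 8 ≤ n / c ∧ 1 ≤ n ∧ Q'.eval 1 * 2 ^ e + 1 ≤ n := by
    filter_upwards [grow' i c hc0 θ.PP θ.s, hu.eventually (Y_exp (P2.eval 1) c P2.natDegree),
      hv.eventually (hTt.eventually (Y_real k (δ / 2))),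
      hu.eventually (hTt.eventually (Y_real k (δ / 2))),
      hu.eventually (eventually_ge_atTop (c + 8)), eventually_ge_atTop 1,
      eventually_ge_atTop (Q'.eval 1 * 2 ^ e + 1)] with n h1 h2 h3 h4 h5 h6 h7
    exact ⟨h1, h2, h3, h4.2, h5, h6, h7⟩
  obtain ⟨n1, hn1⟩ := eventually_atTop.1 hev
  -- the choice of N
  set ε : ℝ := 1 / (2 * (D : ℝ)) with hε
  have hD0 : (0 : ℝ) < D := by rw [hD]; positivity
  have hε0 : 0 < ε := by positivity
  obtain ⟨N, hN1, hN2⟩ := ((hf ε hε0).and_eventually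
    (eventually_ge_atTop (tow (i + 1) (Q'.eval n1)))).exists
  -- the choice of n
  have hbig : ∀ m, tow (i + 1) (Q'.eval m) ≤ N → m ≤ N := by
    intro m hm
    have h1 := le_tow (i + 1) (Q'.eval m)
    have h2 := hQ'ev m
    omega
  set n : ℕ := Nat.findGreatest (fun m => tow (i + 1) (Q'.eval m) ≤ N) N with hn
  have hnP : tow (i + 1) (Q'.eval n) ≤ N :=
    Nat.findGreatest_spec (P := fun m => tow (i + 1) (Q'.eval m) ≤ N) (hbig n1 hN2) hN2
  have hn1n : n1 ≤ n :=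
    Nat.le_findGreatest (P := fun m => tow (i + 1) (Q'.eval m) ≤ N) (hbig n1 hN2) hN2
  have hmax : N < tow (i + 1) (Q'.eval (n + 1)) := by
    by_contra hcon
    push Not at hcon
    have := Nat.le_findGreatest (P := fun m => tow (i + 1) (Q'.eval m) ≤ N) (hbig _ hcon) hcon
    rw [← hn] at this
    omega
  obtain ⟨c0, c1, ⟨c2, c3⟩, c3', c4, c6, c7⟩ := hn1 n hn1n
  set u : ℕ := n / c with hudef
  set v : ℕ := lB i n / c with hvdef
  have huv : u ≤ v := Nat.div_le_div_right (hlB n)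
  set T : ℝ := (2 : ℝ) ^ u with hT
  set V : ℝ := (2 : ℝ) ^ v with hV
  have hT0 : 0 < T := by positivity
  have hTV : T ≤ V := pow_le_pow_right₀ (by norm_num) huv
  have hcv : c * v ≤ lB i n := Nat.mul_div_le _ c
  have hnu : n ≤ c * (u + 1) := by
    have := Nat.lt_mul_div_succ n hc0
    exact this.le
  -- the advice is small
  have hP8 : 8 * P2.eval n ≤ 2 ^ u := by
    refine le_trans ?_ c1
    apply Nat.mul_le_mul_left
    refine (Y_poly_le P2 n c6).trans ?_
    exact Nat.mul_le_mul_left _ (Nat.pow_le_pow_left hnu _)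
  -- f N is small
  have hb := iter_bounds (i + 1) (Q'.eval n) (Q'.eval (n + 1)) (N : ℝ) (by exact_mod_cast hnP)
    (by exact_mod_cast hmax.le)
  set L : ℝ := (Real.logb 2)^[i + 1] (N : ℝ) with hL
  have hlog : L ≤ ((n ^ D : ℕ) : ℝ) := by
    refine hb.2.trans ?_
    have h4 : Q'.eval (n + 1) ≤ n ^ D := by
      have h5 : Q'.eval (n + 1) ≤ Q'.eval 1 * (2 * n) ^ e := by
        refine (Y_poly_le Q' (n + 1) (by omega)).trans ?_
        exact Nat.mul_le_mul_left _ (Nat.pow_le_pow_left (by omega) _)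
      calc Q'.eval (n + 1) ≤ Q'.eval 1 * (2 * n) ^ e := h5
        _ = Q'.eval 1 * 2 ^ e * n ^ e := by rw [mul_pow]; ring
        _ ≤ n * n ^ e := Nat.mul_le_mul_right _ (by omega)
        _ = n ^ D := by rw [hD, pow_succ]; ring
    exact_mod_cast h4
  have hlog0 : 0 ≤ L := le_trans (Nat.cast_nonneg _) hb.1
  have hsqrt : L ^ ε ≤ (u : ℝ) - 3 := by
    have hn0 : (0 : ℝ) ≤ n := Nat.cast_nonneg n
    calc L ^ ε ≤ (((n ^ D : ℕ) : ℝ)) ^ ε := Real.rpow_le_rpow hlog0 hlog hε0.le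
      _ = (n : ℝ) ^ (1 / 2 : ℝ) := by
          push_cast
          rw [← Real.rpow_natCast, ← Real.rpow_mul hn0]
          congr 1
          rw [hε]; field_simp
      _ = Real.sqrt n := by rw [Real.sqrt_eq_rpow]
      _ ≤ (u : ℝ) - 3 := by
          apply Real.sqrt_le_iff.2
          have h1 : (c : ℝ) + 8 ≤ u := by exact_mod_cast c4
          have h2 : (n : ℝ) ≤ c * (u + 1) := by exact_mod_cast hnu
          have h3 : (0 : ℝ) ≤ c := Nat.cast_nonneg c
          constructor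
          · linarith
          · nlinarith [mul_nonneg (sub_nonneg.2 h1) h3]
  have hfN : f N ≤ T / 8 := by
    refine hN1.trans ?_
    calc (2 : ℝ) ^ L ^ ε ≤ 2 ^ ((u : ℝ) - 3) :=
          Real.rpow_le_rpow_of_exponent_le (by norm_num) hsqrt
      _ = T / 8 := by
          rw [Real.rpow_sub (by norm_num), Real.rpow_natCast, hT]
          norm_num
  have h2 : (0 : ℝ) < 2 := by norm_num
  have e3 : (2 : ℝ) ^ f N ≤ 2 ^ (T / 8) := Real.rpow_le_rpow_of_exponent_le (by norm_num) hfN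
  -- conclusion
  refine ⟨n, N, u, v, ?_, huv, Nat.div_le_self _ _, ?_, ?_⟩
  · have : 2 ^ v ≤ 2 ^ (2 * v) := Nat.pow_le_pow_right (by norm_num) (by omega)
    omega
  · refine le_trans ?_ hnP
    exact Nat.pow_le_pow_right (by norm_num) (tow_mono i (by rw [hQ'ev]; omega))
  · set a : ℕ := θ.PP.eval (tow i (θ.s.eval n)) with ha
    have hb' := Y_bnd k (Polynomial.C a) (lB i n) v (by omega) hcv
    rw [← hV, Polynomial.eval_C] at hb'
    have e1 : (2 : ℝ) ^ a ≤ 2 ^ (V / 8) := by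
      rw [← Real.rpow_natCast]
      apply Real.rpow_le_rpow_of_exponent_le (by norm_num)
      have : (8 : ℝ) * a ≤ V := by rw [hV]; exact_mod_cast c0
      linarith
    have e2 : ((1 : ℝ) / 2) ^ 2 ^ v = 2 ^ (-V) := by
      rw [Real.rpow_neg h2.le, one_div, inv_pow, hV, ← Real.rpow_natCast]
      push_cast; rfl
    have e2' : ((1 : ℝ) / 2) ^ 2 ^ u = 2 ^ (-T) := by
      rw [Real.rpow_neg h2.le, one_div, inv_pow, hT, ← Real.rpow_natCast]
      push_cast; rfl
    have e3' : (2 : ℝ) ^ f N ≤ 2 ^ (V / 8) :=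
      e3.trans (Real.rpow_le_rpow_of_exponent_le (by norm_num) (by linarith))
    have hA : (0 : ℝ) < 2 ^ (V / 8) := by positivity
    have hA' : (0 : ℝ) < 2 ^ (T / 8) := by positivity
    have part1 : bnd k (Polynomial.C a) (lB i n) v * 2 ^ f N ≤ δ / 2 := by
      calc bnd k (Polynomial.C a) (lB i n) v * 2 ^ f N
          ≤ (2 ^ a * ((1 / 2) ^ 2 ^ v * ((k : ℝ) + 1 + V * (V ^ 3 + 1)))) * 2 ^ f N := by
            gcongr
        _ ≤ (2 ^ (V / 8) * (2 ^ (-V) * 2 ^ (V / 8))) * 2 ^ (V / 8) := by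
            rw [e2]
            gcongr
        _ = 2 ^ (V / 8 + (-V + V / 8) + V / 8) := by
            rw [Real.rpow_add h2, Real.rpow_add h2, Real.rpow_add h2]
        _ ≤ 2 ^ (-(V / 8)) := by
            apply Real.rpow_le_rpow_of_exponent_le (by norm_num)
            linarith
        _ ≤ δ / 2 := by
            rw [Real.rpow_neg h2.le]
            rw [inv_le_comm₀ hA (by positivity)]
            rw [← one_div]
            exact c3
    have e4 : (2 : ℝ) ^ (2 * θ.p'.eval n) ≤ 2 ^ (T / 8) := by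
      rw [← Real.rpow_natCast]
      apply Real.rpow_le_rpow_of_exponent_le (by norm_num)
      have : (8 : ℝ) * ((2 * θ.p'.eval n : ℕ) : ℝ) ≤ T := by
        rw [hT, ← hP2ev]; exact_mod_cast hP8
      linarith
    have part2 : 2 ^ (2 * θ.p'.eval n) * ((1 : ℝ) / 2) ^ 2 ^ u * 2 ^ f N ≤ δ / 2 := by
      calc 2 ^ (2 * θ.p'.eval n) * ((1 : ℝ) / 2) ^ 2 ^ u * 2 ^ f N
          ≤ 2 ^ (T / 8) * 2 ^ (-T) * 2 ^ (T / 8) := by
            rw [e2']
            gcongr
        _ = 2 ^ (T / 8 + -T + T / 8) := by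
            rw [Real.rpow_add h2, Real.rpow_add h2]
        _ ≤ 2 ^ (-(T / 8)) := by
            apply Real.rpow_le_rpow_of_exponent_le (by norm_num)
            linarith
        _ ≤ δ / 2 := by
            rw [Real.rpow_neg h2.le]
            rw [inv_le_comm₀ hA' (by positivity)]
            rw [← one_div]
            exact c3'
    rw [add_mul]
    linarith

end H529R3.Lev
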