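import Pool.Agent.H529R3.Lev.Asym

/-! The choice of the parameters for the far language. -/

set_option autoImplicit false

namespace H529R3.Lev

open Pool.Agent.NPC Pool.Agent.H620R2.Gauge Filter

theorem tow_add (i a b : ℕ) : tow i a + b ≤ tow i (a + b) := by
  induction i with
  | zero => exact le_rfl
  | succ i ih =>
    show 2 ^ tow i a + b ≤ 2 ^ tow i (a + b)
    calc 2 ^ tow i a + b ≤ 2 ^ tow i a * 2 ^ b := by
          have h1 : 1 ≤ 2 ^ tow i a := Nat.one_le_two_pow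
          have h2 : b + 1 ≤ 2 ^ b := Nat.lt_two_pow_self
          nlinarith
      _ = 2 ^ (tow i a + b) := by rw [pow_add]
      _ ≤ _ := Nat.pow_le_pow_right (by norm_num) ih

theorem asymE (i : ℕ) (P Q : Polynomial ℕ) (f : ℕ → ℝ) (hf : Cond i f) (δ : ℝ) (hδ : 0 < δ) :
    ∃ n B N : ℕ, B < 2 ^ n ∧ Q.eval n < B ∧ 2 ^ (n + tow i B + 1) ≤ N ∧
      2 ^ P.eval n * (1 / 2 : ℝ) ^ 2 ^ n * 2 ^ f N ≤ δ := by
  set c : ℕ := 8 with hc
  have hc0 : 0 < c := by omega
  set Q' : Polynomial ℕ := Q + Polynomial.X + 2 with hQ'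
  have hQ'ev : ∀ n, Q'.eval n = Q.eval n + n + 2 := by intro n; simp [hQ']
  set e : ℕ := Q'.natDegree with he
  set D : ℕ := e + 1 with hD
  have hu : Tendsto (fun n : ℕ => n / c) atTop atTop := Nat.tendsto_div_const_atTop hc0.ne'
  have hTt : Tendsto (fun u : ℕ => (2 : ℝ) ^ u) atTop atTop :=
    tendsto_pow_atTop_atTop_of_one_lt (by norm_num)
  have hev : ∀ᶠ n : ℕ in atTop,
      (8 * (P.eval 1 * (c * (n / c + 1)) ^ P.natDegree) ≤ 2 ^ (n / c)) ∧
      (1 / δ ≤ (2 : ℝ) ^ ((2 : ℝ) ^ (n / c) / 8)) ∧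
      c + 8 ≤ n / c ∧ 1 ≤ n ∧ Q'.eval 1 * 2 ^ e + 1 ≤ n ∧ Q'.eval n ≤ 2 ^ n := by
    filter_upwards [hu.eventually (Y_exp (P.eval 1) c P.natDegree),
      hu.eventually (hTt.eventually (Y_real 0 δ)),
      hu.eventually (eventually_ge_atTop (c + 8)), eventually_ge_atTop 1,
      eventually_ge_atTop (Q'.eval 1 * 2 ^ e + 1), poly_le_two_pow Q'] with n h2 h4 h5 h6 h7 h8
    exact ⟨h2, h4.2, h5, h6, h7, h8⟩
  obtain ⟨n1, hn1⟩ := eventually_atTop.1 hev
  set ε : ℝ := 1 / (2 * (D : ℝ)) with hε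
  have hD0 : (0 : ℝ) < D := by rw [hD]; positivity
  have hε0 : 0 < ε := by positivity
  obtain ⟨N, hN1, hN2⟩ := ((hf ε hε0).and_eventually
    (eventually_ge_atTop (tow (i + 1) (Q'.eval n1)))).exists
  have hbig : ∀ m, tow (i + 1) (Q'.eval m) ≤ N → m ≤ N := by
    intro m hm
    have h1 := le_tow (i + 1) (Q'.eval m)
    have h2 := hQ'ev m
    omega
  set n : ℕ := Nat.findGreatest (fun m => tow (i + 1) (Q'.eval m) ≤ N) N with hn
  have hnP : tow (i + 1) (Q'.eval n) ≤ N :=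
    Nat.findGreatest_spec (P := fun m => tow (i + 1) (Q'.eval m) ≤ N) (hbig n1 hN2) hN2
  have hn1n : n1 ≤ n :=
    Nat.le_findGreatest (P := fun m => tow (i + 1) (Q'.eval m) ≤ N) (hbig n1 hN2) hN2
  have hmax : N < tow (i + 1) (Q'.eval (n + 1)) := by
    by_contra hcon
    push Not at hcon
    have := Nat.le_findGreatest (P := fun m => tow (i + 1) (Q'.eval m) ≤ N) (hbig _ hcon) hcon
    rw [← hn] at this
    omega
  obtain ⟨c1, c3', c4, c6, c7, c8⟩ := hn1 n hn1n
  set u : ℕ := n / c with hudef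
  set T : ℝ := (2 : ℝ) ^ u with hT
  have hT0 : 0 < T := by positivity
  have hnu : n ≤ c * (u + 1) := by
    have := Nat.lt_mul_div_succ n hc0
    exact this.le
  have hP8 : 8 * P.eval n ≤ 2 ^ u := by
    refine le_trans ?_ c1
    apply Nat.mul_le_mul_left
    refine (Y_poly_le P n c6).trans ?_
    exact Nat.mul_le_mul_left _ (Nat.pow_le_pow_left hnu _)
  have hb := iter_bounds (i + 1) (Q'.eval n) (Q'.eval (n + 1)) (N : ℝ) (by exact_mod_cast hnP)
    (by exact_mod_cast hmax.le)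
  set L : ℝ := (Real.logb 2)^[i + 1] (N : ℝ) with hL
  have hlog : L ≤ ((n ^ D : ℕ) : ℝ) := by
    refine hb.2.trans ?_
    have h4 : Q'.eval (n + 1) ≤ n ^ D := by
      have h5 : Q'.eval (n + 1) ≤ Q'.eval 1 * (2 * n) ^ e := by
        refine (Y_poly_le Q' (n + 1) (by omega)).trans ?_
        exact Nat.mul_le_mul_left _ (Nat.pow_le_pow_left (by omega) _)
      calc Q'.eval (n + 1) ≤ Q'.eval 1 * (2 * n) ^ e := h5
        _ = Q'.eval 1 * 2 ^ e * n ^ e := by rw [mul_pow]; ring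
        _ ≤ n * n ^ e := Nat.mul_le_mul_right _ (by omega)
        _ = n ^ D := by rw [hD, pow_succ]; ring
    exact_mod_cast h4
  have hlog0 : 0 ≤ L := le_trans (Nat.cast_nonneg _) hb.1
  have hsqrt : L ^ ε ≤ (u : ℝ) - 3 := by
    have hn0 : (0 : ℝ) ≤ n := Nat.cast_nonneg n
    calc L ^ ε ≤ (((n ^ D : ℕ) : ℝ)) ^ ε := Real.rpow_le_rpow hlog0 hlog hε0.le
      _ = (n : ℝ) ^ (1 / 2 : ℝ) := by
          push_cast
          rw [← Real.rpow_natCast, ← Real.rpow_mul hn0]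
          congr 1
          rw [hε]; field_simp
      _ = Real.sqrt n := by rw [Real.sqrt_eq_rpow]
      _ ≤ (u : ℝ) - 3 := by
          apply Real.sqrt_le_iff.2
          have h1 : (c : ℝ) + 8 ≤ u := by exact_mod_cast c4
          have h2 : (n : ℝ) ≤ c * (u + 1) := by exact_mod_cast hnu
          have h3 : (0 : ℝ) ≤ c := Nat.cast_nonneg c
          constructor
          · linarith
          · nlinarith [mul_nonneg (sub_nonneg.2 h1) h3]
  have hfN : f N ≤ T / 8 := by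
    refine hN1.trans ?_
    calc (2 : ℝ) ^ L ^ ε ≤ 2 ^ ((u : ℝ) - 3) :=
          Real.rpow_le_rpow_of_exponent_le (by norm_num) hsqrt
      _ = T / 8 := by
          rw [Real.rpow_sub (by norm_num), Real.rpow_natCast, hT]
          norm_num
  have h2 : (0 : ℝ) < 2 := by norm_num
  have e3 : (2 : ℝ) ^ f N ≤ 2 ^ (T / 8) := Real.rpow_le_rpow_of_exponent_le (by norm_num) hfN
  have hQn := hQ'ev n
  refine ⟨n, Q.eval n + 1, N, by omega, by omega, ?_, ?_⟩
  · refine le_trans ?_ hnP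
    apply Nat.pow_le_pow_right (by norm_num)
    have h3 := tow_add i (Q.eval n + 1) (n + 1)
    have h4 : Q.eval n + 1 + (n + 1) = Q'.eval n := by omega
    rw [h4] at h3
    omega
  · have hA' : (0 : ℝ) < 2 ^ (T / 8) := by positivity
    have e2' : ((1 : ℝ) / 2) ^ 2 ^ n ≤ 2 ^ (-T) := by
      have h5 : ((1 : ℝ) / 2) ^ 2 ^ u = 2 ^ (-T) := by
        rw [Real.rpow_neg h2.le, one_div, inv_pow, hT, ← Real.rpow_natCast]
        push_cast; rfl
      rw [← h5]
      exact pow_le_pow_of_le_one (by norm_num) (by norm_num)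
        (Nat.pow_le_pow_right (by norm_num) (Nat.div_le_self _ _))
    have e4 : (2 : ℝ) ^ (P.eval n) ≤ 2 ^ (T / 8) := by
      rw [← Real.rpow_natCast]
      apply Real.rpow_le_rpow_of_exponent_le (by norm_num)
      have : (8 : ℝ) * ((P.eval n : ℕ) : ℝ) ≤ T := by
        rw [hT]; exact_mod_cast hP8
      linarith
    calc 2 ^ (P.eval n) * ((1 : ℝ) / 2) ^ 2 ^ n * 2 ^ f N
        ≤ 2 ^ (T / 8) * 2 ^ (-T) * 2 ^ (T / 8) := by gcongr
      _ = 2 ^ (T / 8 + -T + T / 8) := by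
          rw [Real.rpow_add h2, Real.rpow_add h2]
      _ ≤ 2 ^ (-(T / 8)) := by
          apply Real.rpow_le_rpow_of_exponent_le (by norm_num)
          linarith
      _ ≤ δ := by
          rw [Real.rpow_neg h2.le]
          rw [inv_le_comm₀ hA' (by positivity)]
          rw [← one_div]
          exact c3'

end H529R3.Lev
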