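import Pool.Agent.H529R3.Lev.MassE
import Pool.Agent.H620R2.Gauge2.Trans
import Pool.Agent.H620R2.Gauge.P

/-! The oracles that satisfy the parity constraints. -/

set_option autoImplicit false

namespace H529R3.Lev

open Pool.Agent.NPC Pool.Agent.H622R2 Pool.Agent.H620R2.Gauge Finset

/-- `L` is reducible in time `2_i^POL` to the parity language of the oracle. -/
def ReducesPar (i : ℕ) (A : Oracle) (L : Set (List Bool)) : Prop :=
  Padded i (fun L' => Reduces L' (parLang A)) L

theorem exists_RE (i K : ℕ) : ∃ (g : ℕ → Alg × Polynomial ℕ) (R : ℕ → ℕ → ℕ),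
    (∀ e n, rds (i + 1) (g e) n * 8 ^ (n + e + 1) ≤ 2 ^ R e n) ∧
    (∀ e n, tow i ((n + e + 1) ^ K) ≤ R e n) ∧
    ∀ A, (∀ j, con (i + 1) g R j A) → ∀ L, IsTime (i + 1) A L → ReducesPar i A L := by
  obtain ⟨g, hg⟩ := exists_enumP
  choose q hq using fun e : ℕ => absorb (i + 1) ((g e).1.p.comp (3 * Polynomial.X + 1))
    (Polynomial.X + (g e).2)
  choose r hr using fun e : ℕ => absorb i (4 * Polynomial.X + Polynomial.C (3 * (e + 1)))
    (q e + Polynomial.X)
  set rr : ℕ → Polynomial ℕ := fun e => r e + (Polynomial.X + Polynomial.C (e + 1)) ^ K with hrr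
  set R : ℕ → ℕ → ℕ := fun e n => tow i ((rr e).eval n) with hR
  have hRe : ∀ e n, (rr e).eval n = (r e).eval n + (n + (e + 1)) ^ K := by
    intro e n
    rw [hrr]
    simp only [Polynomial.eval_add, Polynomial.eval_pow, Polynomial.eval_X, Polynomial.eval_C]
  refine ⟨g, R, ?_, ?_, ?_⟩
  · intro e n
    have h1 := hq e n
    rw [Polynomial.eval_comp] at h1
    have h2 : (Polynomial.X + (g e).2).eval n = n + (g e).2.eval n := by simp
    rw [h2] at h1
    have h6 : (3 * Polynomial.X + 1 : Polynomial ℕ).eval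
        (tow (i + 1) (n + (g e).2.eval n)) =
        3 * tow (i + 1) (n + (g e).2.eval n) + 1 := by simp
    have h3 : 2 * n + 1 + tow (i + 1) ((g e).2.eval n) ≤
        3 * tow (i + 1) (n + (g e).2.eval n) + 1 := by
      have h4 : tow (i + 1) ((g e).2.eval n) ≤ tow (i + 1) (n + (g e).2.eval n) :=
        tow_mono _ (by omega)
      have h5 : n ≤ tow (i + 1) (n + (g e).2.eval n) := le_trans (by omega) (le_tow _ _)
      omega
    rw [h6] at h1
    have h4 : rds (i + 1) (g e) n ≤ 2 ^ tow i ((q e).eval n) := (eval_mono _ h3).trans h1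
    have h5 := hr e n
    have h7 : (4 * Polynomial.X + Polynomial.C (3 * (e + 1)) : Polynomial ℕ).eval
        (tow i ((q e + Polynomial.X).eval n)) = 4 * tow i ((q e).eval n + n) + 3 * (e + 1) := by
      simp
    rw [h7] at h5
    have h8 : tow i ((q e).eval n) ≤ tow i ((q e).eval n + n) := tow_mono _ (by omega)
    have h9 : n ≤ tow i ((q e).eval n + n) := le_trans (by omega) (le_tow _ _)
    have h10 : tow i ((r e).eval n) ≤ R e n := tow_mono _ (by rw [hRe]; omega)
    calc rds (i + 1) (g e) n * 8 ^ (n + e + 1)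
        ≤ 2 ^ tow i ((q e).eval n) * 8 ^ (n + e + 1) := Nat.mul_le_mul_right _ h4
      _ = 2 ^ (tow i ((q e).eval n) + 3 * (n + e + 1)) := by
          have h11 : (8 : ℕ) ^ (n + e + 1) = 2 ^ (3 * (n + e + 1)) := by
            rw [pow_mul]; norm_num
          rw [h11, ← pow_add]
      _ ≤ 2 ^ R e n := Nat.pow_le_pow_right (by norm_num) (by omega)
  · intro e n
    refine tow_mono i ?_
    rw [hRe, add_assoc n e 1]
    exact Nat.le_add_left _ _
  · rintro A hA L ⟨p, L', ⟨V, ⟨M, hM⟩, hV⟩, hL⟩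
    obtain ⟨e, he⟩ := hg (M, p)
    have key : ∀ x, x ∈ L ↔ codeL R e x ∈ parLang A := by
      intro x
      have h1 := hA (e, x)
      unfold con AccP at h1
      simp only [he] at h1
      rw [← h1, hM, hL, hV]
      simp
    set G : List Bool → List Bool := fun z =>
      List.replicate e true ++ false :: ((unpair z).2 ++ false :: (unpair z).1) with hG
    have hGp : Poly G := by
      have h1 : Poly (fun z : List Bool => (unpair z).1) := Poly.fst poly_unpair
      have h2 : Poly (fun z : List Bool => (unpair z).2) := Poly.snd poly_unpair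
      exact Pool.Agent.NPC.Poly.append (Pool.Agent.NPC.Poly.const _)
        (Pool.Agent.NPC.Poly.cons (Pool.Agent.NPC.Poly.const false)
        (Pool.Agent.NPC.Poly.append h2
          (Pool.Agent.NPC.Poly.cons (Pool.Agent.NPC.Poly.const false) h1)))
    refine ⟨rr e, {z | G z ∈ parLang A}, ⟨G, polyTime_of_poly_list hGp, fun z => Iff.rfl⟩,
      fun x => ?_⟩
    rw [key x]
    show _ ↔ G (pairBits x (ones (tow i ((rr e).eval x.length)))) ∈ parLang A
    have h1 : G (pairBits x (ones (tow i ((rr e).eval x.length)))) = codeL R e x := by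
      rw [hG]
      simp only [unpair_pairBits]
      rfl
    rw [h1]

theorem ReducesPar.isSpace {i : ℕ} {A : Oracle} {L : Set (List Bool)} (h : ReducesPar i A L) :
    IsSpace i A L := by
  refine h.mono fun L' h' => ?_
  obtain ⟨G, hG, h1⟩ := h'
  have h2 : L' = {y | G y ∈ parLang A} := by
    ext y
    exact h1 y
  rw [h2]
  exact (parLang_pspace A).precomp (poly_of_polyTime hG)

theorem not_null_even (i : ℕ) (f : ℕ → ℝ) (ε : ℝ) (hε : 0 < ε)
    (hf : ∀ᶠ N : ℕ in Filter.atTop, 2 ^ ((Real.logb 2)^[i + 1] (N : ℝ)) ^ ε < f N)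
    (O : Set Oracle) (hO : ∀ A : Oracle, (∀ L, IsTime (i + 1) A L → ReducesPar i A L) → A ∈ O) :
    ¬ Null f O := by
  classical
  intro hnull
  obtain ⟨K, hK⟩ := exists_nat_gt (1 / ε)
  have hK' : 1 < ε * K := by
    rw [div_lt_iff₀ hε] at hK
    linarith
  obtain ⟨g, R, hT, hR, hA⟩ := exists_RE i K
  have hsp := sparseL i R hR hK'
  obtain ⟨N₀, hN₀⟩ := Filter.eventually_atTop.1 (hf.and hsp)
  -- the bound for the short sequences
  obtain ⟨δ, hδ, hδ1, hδ2⟩ : ∃ δ : ℝ, 0 < δ ∧ δ < 1 ∧
      ∀ N < N₀, δ < 2 ^ (f N - N) := by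
    have h1 : ∀ M : ℕ, ∃ δ : ℝ, 0 < δ ∧ δ < 1 ∧ ∀ N < M, δ < 2 ^ (f N - N) := by
      intro M
      induction M with
      | zero => exact ⟨1 / 2, by norm_num, by norm_num, fun N hN => by omega⟩
      | succ M ih =>
        obtain ⟨δ, h1, h2, h3⟩ := ih
        have h4 : (0 : ℝ) < 2 ^ (f M - M) := Real.rpow_pos_of_pos (by norm_num) _
        refine ⟨min δ (2 ^ (f M - M) / 2), lt_min h1 (by positivity),
          (min_le_left _ _).trans_lt h2, ?_⟩
        intro N hN
        rcases Nat.lt_succ_iff_lt_or_eq.1 hN with h | h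
        · exact (min_le_left _ _).trans_lt (h3 N h)
        · subst h
          exact (min_le_right _ _).trans_lt (by linarith)
    exact h1 N₀
  obtain ⟨S, hS, hsum⟩ := hnull δ hδ
  have hm := massE (i + 1) g R hT S (fun A h => hS A (hO _ (hA A h)))
  have hle : ∀ σ : S, ENNReal.ofReal
      (2 ^ ((((Finset.range σ.1.length).filter
        (fun i => str i ∈ {y | ∃ e x, y = codeL R e x})).card : ℝ) - (σ.1.length : ℝ))) ≤
      ENNReal.ofReal (2 ^ (f σ.1.length - σ.1.length)) := by
    intro σ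
    have hlen : N₀ ≤ σ.1.length := by
      by_contra hlt
      push Not at hlt
      have h1 := hδ2 _ hlt
      have h2 : ENNReal.ofReal (2 ^ (f σ.1.length - σ.1.length)) ≤ ENNReal.ofReal δ :=
        (ENNReal.le_tsum σ).trans hsum
      have h3 := (ENNReal.ofReal_le_ofReal_iff hδ.le).1 h2
      linarith
    obtain ⟨h1, h2⟩ := hN₀ _ hlen
    apply ENNReal.ofReal_le_ofReal
    apply Real.rpow_le_rpow_of_exponent_le (by norm_num)
    have h3 : (((Finset.range σ.1.length).filter
        (fun i => str i ∈ {y | ∃ e x, y = codeL R e x})).card : ℝ) ≤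
        2 ^ ((Real.logb 2)^[i + 1] (σ.1.length : ℝ)) ^ ε := by
      refine le_trans (le_of_eq ?_) h2
      congr 2
    linarith
  have h1 : (1 : ENNReal) ≤ ENNReal.ofReal δ := hm.trans ((ENNReal.tsum_le_tsum hle).trans hsum)
  rw [← ENNReal.ofReal_one] at h1
  have h2 := (ENNReal.ofReal_le_ofReal_iff hδ.le).1 h1
  linarith

end H529R3.Lev
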