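import Pool.Agent.H620R2.Gauge.S

/-! Compactness of the space of the oracles. -/

set_option autoImplicit false

namespace H529R3.Lev

open Pool.Agent.NPC Pool.Agent.H620R2.Gauge Finset

theorem isOpen_of_local (U : Set Oracle) (ℓ : ℕ)
    (h : ∀ A B : Oracle, (∀ q : List Bool, q.length ≤ ℓ → A q = B q) → (A ∈ U ↔ B ∈ U)) :
    IsOpen U := by
  rw [isOpen_iff_forall_mem_open]
  intro A hA
  set F : Set (List Bool) := {q | q.length ≤ ℓ} with hF
  have hFf : F.Finite := List.finite_length_le Bool ℓ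
  refine ⟨Set.pi F fun q => {A q}, ?_, isOpen_set_pi hFf fun q _ => isOpen_discrete _, ?_⟩
  · intro B hB
    rw [Set.mem_pi] at hB
    exact (h A B fun q hq => (hB q hq).symm).1 hA
  · rw [Set.mem_pi]
    intro q _
    rfl

theorem compact_cover {ι : Type} (S : Set (List Bool)) (C : ι → Oracle → Prop)
    (hC : ∀ j, ∃ ℓ : ℕ, ∀ A B : Oracle, (∀ q : List Bool, q.length ≤ ℓ → A q = B q) →
      (C j A ↔ C j B))
    (hS : ∀ A, (∀ j, C j A) → ∃ σ ∈ S, Extends A σ) :
    ∃ (J : Finset ι) (T : Finset (List Bool)), (∀ σ ∈ T, σ ∈ S) ∧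
      ∀ A, (∀ j ∈ J, C j A) → ∃ σ ∈ T, Extends A σ := by
  classical
  let U : S ⊕ ι → Set Oracle := fun t => match t with
    | Sum.inl σ => {A | Extends A σ.1}
    | Sum.inr j => {A | ¬ C j A}
  have hopen : ∀ t, IsOpen (U t) := by
    rintro (σ | j)
    · obtain ⟨ℓ, hℓ⟩ : ∃ ℓ : ℕ, ∀ i < σ.1.length, (str i).length ≤ ℓ := by
        refine ⟨(Finset.range σ.1.length).sup fun i => (str i).length, fun i hi => ?_⟩
        exact Finset.le_sup (f := fun i => (str i).length) (Finset.mem_range.2 hi)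
      refine isOpen_of_local _ ℓ fun A B h => ?_
      show Extends A σ.1 ↔ Extends B σ.1
      unfold Extends
      refine forall_congr' fun i => forall_congr' fun hi => ?_
      rw [h _ (hℓ i hi)]
    · obtain ⟨ℓ, hℓ⟩ := hC j
      refine isOpen_of_local _ ℓ fun A B h => ?_
      exact not_congr (hℓ A B h)
  obtain ⟨t, ht⟩ := isCompact_univ.elim_finite_subcover U hopen (by
    intro A _
    by_cases hA : ∀ j, C j A
    · obtain ⟨σ, hσ, hE⟩ := hS A hA
      exact Set.mem_iUnion.2 ⟨Sum.inl ⟨σ, hσ⟩, hE⟩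
    · push Not at hA
      obtain ⟨j, hj⟩ := hA
      exact Set.mem_iUnion.2 ⟨Sum.inr j, hj⟩)
  refine ⟨t.preimage Sum.inr (Set.injOn_of_injective Sum.inr_injective),
    (t.preimage Sum.inl (Set.injOn_of_injective Sum.inl_injective)).image Subtype.val, ?_, ?_⟩
  · intro σ hσ
    obtain ⟨s, _, rfl⟩ := Finset.mem_image.1 hσ
    exact s.2
  · intro A hA
    obtain ⟨s, hs, hAs⟩ := Set.mem_iUnion₂.1 (ht (Set.mem_univ A))
    rcases s with σ | j
    · exact ⟨σ.1, Finset.mem_image.2 ⟨σ, Finset.mem_preimage.2 hs, rfl⟩, hAs⟩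
    · exact absurd (hA j (Finset.mem_preimage.2 hs)) hAs

end H529R3.Lev
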