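import Pool.Agent.H529R3.Lev.AsymE
import Pool.Agent.H620R2.Gauge2.CoverE

/-! The set of the oracles for which the far language is easy is a null set. -/

set_option autoImplicit false

namespace H529R3.Lev

open Pool.Agent.NPC Pool.Agent.H620R2.Gauge Finset H568R2 Pool.Agent.H676

/-- the far test language: the input names a string and a number `B`, the question is whether the
string followed by `2_i^B` zeros is in the oracle -/
def far (i : ℕ) (A : Oracle) : Set (List Bool) :=
  {x | A ((unpair x).1 ++ List.replicate (tow i (valB (unpair x).2)) false) = true}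

theorem mem_far {i n B : ℕ} (hB : B < 2 ^ n) (z : ℕ) (A : Oracle) :
    inpE n B z ∈ far i A ↔ A (bitsOf n z ++ List.replicate (tow i B) false) = true := by
  unfold far inpE
  rw [Set.mem_ofPred_eq, unpair_pairBits, valB_bitsOf n B hB]

theorem tow_lt (i : ℕ) {a b : ℕ} (h : a < b) : tow i a < tow i b := by
  induction i with
  | zero => exact h
  | succ i ih => exact Nat.pow_lt_pow_right (by norm_num) ih

/-- the input with advice and padding -/
noncomputable def inF (i : ℕ) (pd : Polynomial ℕ) (n B z : ℕ) (h : List Bool) : List Bool :=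
  pairBits (pairBits (inpE n B z) h) (ones (tow i (pd.eval (3 * n + 1))))

/-- The event. -/
def EvF (θ : ParE) (i : ℕ) (pd : Polynomial ℕ) (n B N Q : ℕ)
    (hN : 2 ^ (n + tow i B + 1) ≤ N) (a : Fin N → Bool) : Prop :=
  ∃ c ≤ θ.p'.eval (3 * n + 1), ∃ h : List Bool, h.length = c ∧ ∀ z ∈ Finset.range (2 ^ n),
    gE θ N Q (inF i pd n B z h) a = a (posE n (tow i B) N hN z)

open Classical in
theorem evF_bound (θ : ParE) (i : ℕ) (pd : Polynomial ℕ) {n B N Q : ℕ} (hB : Q < tow i B)
    (hN : 2 ^ (n + tow i B + 1) ≤ N) :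
    Ex unif (fun a : Fin N → Bool => if EvF θ i pd n B N Q hN a then (1 : ℝ) else 0) ≤
      2 ^ (2 * θ.p'.eval (3 * n + 1)) * (1 / 2 : ℝ) ^ 2 ^ n := by
  have hposlen : ∀ z, (bitsOf n z ++ List.replicate (tow i B) false).length = n + tow i B := by
    intro z
    rw [List.length_append, length_bitsOf, List.length_replicate]
  have h1 : ∀ h : List Bool, Ex unif (fun a : Fin N → Bool =>
      if ∀ z ∈ Finset.range (2 ^ n), gE θ N Q (inF i pd n B z h) a =
        a (posE n (tow i B) N hN z)
      then (1 : ℝ) else 0) ≤ (1 / 2 : ℝ) ^ 2 ^ n := by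
    intro h
    have h2 := far_comb (Finset.range (2 ^ n)) (posE n (tow i B) N hN) (by
      intro z hz z' hz' he
      rw [Finset.mem_coe, Finset.mem_range] at hz hz'
      have h3 : idx (bitsOf n z ++ List.replicate (tow i B) false) =
          idx (bitsOf n z' ++ List.replicate (tow i B) false) := congrArg Fin.val he
      have h4 : bitsOf n z ++ List.replicate (tow i B) false =
          bitsOf n z' ++ List.replicate (tow i B) false := by
        rw [← str_idx (bitsOf n z ++ List.replicate (tow i B) false), h3, str_idx]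
      exact bitsOf_inj hz hz' (List.append_cancel_right h4))
      (fun z => gE θ N Q (inF i pd n B z h)) (by
      intro z _ z' _ a b
      have h5 : CC.cut Q (orc N (Function.update a (posE n (tow i B) N hN z') b)) =
          CC.cut Q (orc N a) := by
        funext y
        unfold CC.cut orc
        by_cases hy : y.length ≤ Q
        · rw [if_pos hy, if_pos hy]
          by_cases hy2 : idx y < N
          · rw [dif_pos hy2, dif_pos hy2]
            rw [Function.update_of_ne]
            intro he
            have h6 : idx y = idx (bitsOf n z' ++ List.replicate (tow i B) false) :=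
              congrArg Fin.val he
            have h7 : y = bitsOf n z' ++ List.replicate (tow i B) false := by
              rw [← str_idx y, h6, str_idx]
            have h8 := congrArg List.length h7
            rw [hposlen] at h8
            omega
          · rw [dif_neg hy2, dif_neg hy2]
        · rw [if_neg hy, if_neg hy]
      show gE θ N Q (inF i pd n B z h) (Function.update a (posE n (tow i B) N hN z') b) =
        gE θ N Q (inF i pd n B z h) a
      unfold gE
      rw [h5])
    rw [Finset.card_range] at h2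
    convert h2
  have hU : Ex unif (fun a : Fin N → Bool => if EvF θ i pd n B N Q hN a then (1 : ℝ) else 0) ≤
      ∑ c ∈ Finset.range (θ.p'.eval (3 * n + 1) + 1), ∑ h ∈ strsOf c,
        Ex unif (fun a : Fin N → Bool => if ∀ z ∈ Finset.range (2 ^ n),
        gE θ N Q (inF i pd n B z h) a = a (posE n (tow i B) N hN z) then (1 : ℝ) else 0) := by
    simp only [← Ex_sum]
    apply Ex_mono unif_nonneg
    intro a
    by_cases hE : EvF θ i pd n B N Q hN a
    · rw [if_pos hE]
      obtain ⟨c, hc, h, hh, hk⟩ := hE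
      refine le_trans ?_ (Finset.single_le_sum (f := fun c => ∑ h ∈ strsOf c,
        if ∀ z ∈ Finset.range (2 ^ n),
        gE θ N Q (inF i pd n B z h) a = a (posE n (tow i B) N hN z) then (1 : ℝ) else 0)
        (fun c _ => Finset.sum_nonneg fun h _ => by positivity)
        (Finset.mem_range.2 (Nat.lt_succ_of_le hc)))
      refine le_trans ?_ (Finset.single_le_sum (f := fun h =>
        if ∀ z ∈ Finset.range (2 ^ n),
        gE θ N Q (inF i pd n B z h) a = a (posE n (tow i B) N hN z) then (1 : ℝ) else 0)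
        (fun h _ => by positivity) (by rw [← hh]; exact mem_strsOf h))
      rw [if_pos hk]
    · rw [if_neg hE]
      exact Finset.sum_nonneg fun c _ => Finset.sum_nonneg fun h _ => by positivity
  refine hU.trans ((Finset.sum_le_sum fun c hc => Finset.sum_le_sum fun h _ => h1 h).trans ?_)
  have hB0 : (0 : ℝ) ≤ (1 / 2 : ℝ) ^ 2 ^ n := by positivity
  set w := θ.p'.eval (3 * n + 1) with hw
  have h2 : ∀ c ∈ Finset.range (w + 1), ∑ _h ∈ strsOf c, (1 / 2 : ℝ) ^ 2 ^ n ≤
      2 ^ w * (1 / 2 : ℝ) ^ 2 ^ n := by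
    intro c hc
    rw [Finset.mem_range, Nat.lt_succ_iff] at hc
    rw [Finset.sum_const, nsmul_eq_mul]
    apply mul_le_mul_of_nonneg_right _ hB0
    have h5 : (strsOf c).card ≤ 2 ^ w :=
      (card_strsOf c).trans (Nat.pow_le_pow_right (by norm_num) hc)
    exact_mod_cast h5
  refine (Finset.sum_le_sum h2).trans ?_
  rw [Finset.sum_const, Finset.card_range, nsmul_eq_mul, ← mul_assoc]
  apply mul_le_mul_of_nonneg_right _ hB0
  have hp1 : ((w + 1 : ℕ) : ℝ) ≤ 2 ^ w := by
    have : w + 1 ≤ 2 ^ w := Nat.lt_two_pow_self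
    exact_mod_cast this
  calc ((w + 1 : ℕ) : ℝ) * 2 ^ w ≤ 2 ^ w * 2 ^ w := by gcongr
    _ = 2 ^ (2 * w) := by rw [← pow_add]; congr 1; ring

/-- the oracles for which the parameters are good -/
def EasyF (i : ℕ) (θ : ParE × Polynomial ℕ) : Set Oracle :=
  {A | ∃ (h : ℕ → List Bool), (∀ n, (h n).length ≤ θ.1.p'.eval n) ∧
    (∀ y s, θ.1.M.Reach A y s → s.length ≤ θ.1.p.eval y.length) ∧
    ∀ x, x ∈ far i A ↔ CC.Acc θ.1.M A
      (pairBits (pairBits x (h x.length)) (ones (tow i (θ.2.eval x.length))))}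

theorem mem_easyF {i : ℕ} {A : Oracle} (h : PaddedAdvice i (IsPSPACE A) (far i A)) :
    ∃ θ, A ∈ EasyF i θ := by
  obtain ⟨pd, p', h, L', ⟨M, p, hM⟩, hh, hx⟩ := h
  refine ⟨⟨⟨M, p, p'⟩, pd⟩, h, hh, fun y s hs => (hM y).1 s hs, fun x => (hx x).trans ?_⟩
  obtain ⟨s, z, h1, h2, h3⟩ := (hM (pairBits (pairBits x (h x.length))
    (ones (tow i (pd.eval x.length))))).2
  rw [h3]
  constructor
  · intro hz
    exact ⟨s, h1, by rw [h2, hz]⟩
  · rintro ⟨s', h4, h5⟩
    have h6 := CC.reach_unique h1 h4 ⟨z, h2⟩ ⟨[true], h5⟩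
    rw [h6, h5] at h2
    simpa using h2.symm

theorem evF_of_easy (i : ℕ) (θ : ParE) (pd : Polynomial ℕ) : ∃ Q : Polynomial ℕ,
    ∀ A ∈ EasyF i (θ, pd), ∀ n B N : ℕ, B < 2 ^ n → Q.eval n < B →
    ∀ hN : 2 ^ (n + tow i B + 1) ≤ N,
    EvF θ i pd n B N (tow i (Q.eval n)) hN (pre N A) := by
  classical
  obtain ⟨b, hb⟩ := CC.act_length θ.M θ.p
  obtain ⟨Q, hQ⟩ := absorb i (b.comp (20 * Polynomial.X + 7))
    (Polynomial.X + (θ.p' + pd).comp (3 * Polynomial.X + 1))
  refine ⟨Q, ?_⟩
  rintro A ⟨h, hh, hr, hx⟩ n B N hB hQB hN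
  have hQn := hQ n
  have hs : (Polynomial.X + (θ.p' + pd).comp (3 * Polynomial.X + 1)).eval n =
      n + (θ.p'.eval (3 * n + 1) + pd.eval (3 * n + 1)) := by
    simp [Polynomial.eval_comp]
  rw [hs] at hQn
  set τ := tow i (n + (θ.p'.eval (3 * n + 1) + pd.eval (3 * n + 1))) with hτ
  have hτ1 : n ≤ τ := le_trans (by omega) (le_tow i _)
  have hτ2 : θ.p'.eval (3 * n + 1) ≤ τ := le_trans (by omega) (le_tow i _)
  have hτ3 : tow i (pd.eval (3 * n + 1)) ≤ τ := tow_mono i (by omega)
  have hcomp : (b.comp (20 * Polynomial.X + 7)).eval τ = b.eval (20 * τ + 7) := by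
    simp [Polynomial.eval_comp]
  rw [hcomp] at hQn
  refine ⟨(h (3 * n + 1)).length, hh _, h (3 * n + 1), rfl, ?_⟩
  intro z _
  have h1 := hx (inpE n B z)
  rw [length_inpE] at h1
  rw [mem_far hB] at h1
  set y := pairBits (pairBits (inpE n B z) (h (3 * n + 1)))
    (ones (tow i (pd.eval (3 * n + 1)))) with hy
  have hylen : y.length ≤ 20 * τ + 7 := by
    rw [hy, length_pairBits, length_pairBits, length_inpE]
    unfold ones
    rw [List.length_replicate]
    have : (h (3 * n + 1)).length ≤ θ.p'.eval (3 * n + 1) := hh (3 * n + 1)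
    omega
  have hloc : CC.Acc θ.M (CC.cut (tow i (Q.eval n)) (orc N (pre N A))) y ↔
      CC.Acc θ.M A y := by
    have h2 := CC.reach_congr (M := θ.M) (A := A)
      (A' := CC.cut (tow i (Q.eval n)) (orc N (pre N A))) (x := y)
      (fun s => s.length ≤ θ.p.eval y.length) (fun s hs => hr y s hs) (by
      intro s q hs hq
      have h3 := hb y s hs
      rw [hq, List.length_cons] at h3
      have h4 : q.length ≤ tow i (Q.eval n) := by
        have := eval_mono b hylen
        omega
      unfold CC.cut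
      rw [if_pos h4]
      apply orc_pre
      have h5 := idx_lt q
      have h7 : tow i (Q.eval n) ≤ tow i B := tow_mono i hQB.le
      have h6 : 2 ^ (q.length + 1) ≤ 2 ^ (n + tow i B + 1) :=
        Nat.pow_le_pow_right (by norm_num) (by omega)
      omega)
    unfold CC.Acc
    exact exists_congr fun s => and_congr_left fun _ => h2 s
  have h7 : pre N A (posE n (tow i B) N hN z) =
      A (bitsOf n z ++ List.replicate (tow i B) false) := by
    unfold pre posE
    simp only
    rw [str_idx]
  rw [h7]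
  have h8 : gE θ N (tow i (Q.eval n)) y (pre N A) = true ↔
      A (bitsOf n z ++ List.replicate (tow i B) false) = true := by
    unfold gE
    rw [decide_eq_true_eq, hloc, h1]
  exact Bool.eq_iff_iff.2 h8

theorem null_even (i : ℕ) (f : ℕ → ℝ) (hf : Cond i f) (O : Set Oracle)
    (hO : ∀ A ∈ O, PaddedAdvice i (IsPSPACE A) (far i A)) : Null f O := by
  have hcount : Countable (Polynomial ℕ) := CC.poly_countable
  refine (null_iUnion (f := f) (EasyF i) fun θ => ?_).mono fun A hA => ?_
  · intro δ hδ
    obtain ⟨θ, pd⟩ := θ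
    obtain ⟨Q, hQ⟩ := evF_of_easy i θ pd
    obtain ⟨n, B, N, hB, hQB, hN, hb⟩ :=
      asymE i (2 * θ.p'.comp (3 * Polynomial.X + 1)) Q f hf δ hδ
    refine cover_of_event (EvF θ i pd n B N (tow i (Q.eval n)) hN) (EasyF i (θ, pd))
      (fun A hA => hQ A hA n B N hB hQB hN) f δ ?_
    have hev := evF_bound θ i pd (tow_lt i hQB) hN
    have hP : (2 * θ.p'.comp (3 * Polynomial.X + 1)).eval n = 2 * θ.p'.eval (3 * n + 1) := by
      simp [Polynomial.eval_comp]
    rw [hP] at hb
    exact (mul_le_mul_of_nonneg_right hev (by positivity)).trans hb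
  · obtain ⟨θ, hθ⟩ := mem_easyF (hO A hA)
    exact Set.mem_iUnion.2 ⟨θ, hθ⟩

end H529R3.Lev
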