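import Pool.Agent.H529R3.Lev.Asym
import Pool.Agent.H620R2.Gauge2.Null

/-! The set of the oracles for which the test language is easy is a null set. -/

set_option autoImplicit false

namespace H529R3.Lev

open Pool.Agent.NPC Pool.Agent.H620R2.Gauge Finset H568R2 Pool.Agent.H676

/-- the oracles for which the parameters are good -/
def EasyL (i : ℕ) (θ : PA) : Set Oracle :=
  {A | ∃ (V : List Bool → List Bool) (h : ℕ → List Bool),
    (∀ x, θ.M.out A x = some (V x)) ∧ (∀ n, (h n).length ≤ θ.p'.eval n) ∧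
    ∀ x, x ∈ test i A ↔ Quant (θ.q.eval (pairBits (pairBits x (h x.length))
      (ones (tow i (θ.p.eval x.length)))).length) V θ.k true
      (pairBits (pairBits x (h x.length)) (ones (tow i (θ.p.eval x.length))))}

theorem mem_easyL {i : ℕ} {A : Oracle} (h : IsTHpoly i A (test i A)) : ∃ θ, A ∈ EasyL i θ := by
  obtain ⟨p, p', h, L', ⟨V, q, k, ⟨M, hM⟩, hL'⟩, hh, hx⟩ := h
  exact ⟨⟨M, q, k, p', p⟩, V, h, hM, hh, fun x => (hx x).trans (hL' _)⟩

theorem ev_of_easyL (i : ℕ) (θ : PA) : ∃ Q : Polynomial ℕ, ∀ A ∈ EasyL i θ, ∀ n N u : ℕ,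
    2 ^ tow i (Q.eval n) ≤ N → 2 ^ (2 * lB i n + 1) ≤ N + 1 ∧ Ev θ i n N u (pre N A) := by
  obtain ⟨qb, hqb⟩ := Alg.out_local θ.M
  obtain ⟨Q, hQ⟩ := absorb i (qb.comp θ.W + 6 * Polynomial.X + 3) θ.s
  refine ⟨Q, ?_⟩
  rintro A ⟨V, h, hM, hh, hx⟩ n N u hN
  obtain ⟨ht1, ht2, ht3⟩ := θ.tau i n
  have hQn := hQ n
  have hQ' : (qb.comp θ.W + 6 * Polynomial.X + 3).eval (tow i (θ.s.eval n)) =
      qb.eval (θ.W.eval (tow i (θ.s.eval n))) + 6 * tow i (θ.s.eval n) + 3 := by
    simp [Polynomial.eval_comp]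
  rw [hQ'] at hQn
  set τ := tow i (θ.s.eval n) with hτ
  have htn : tow i n ≤ τ := tow_mono i (by
    have hs : θ.s.eval n = n + θ.p'.eval n + θ.p.eval n := by simp [PA.s]
    omega)
  have hlB : 2 * lB i n + 1 ≤ 6 * τ + 3 := by unfold lB; omega
  have hN1 : 2 ^ (2 * lB i n + 1) ≤ N + 1 := by
    have h4 : 2 ^ (2 * lB i n + 1) ≤ 2 ^ tow i (Q.eval n) :=
      Nat.pow_le_pow_right (by norm_num) (by omega)
    omega
  refine ⟨hN1, ?_⟩
  have hV : ∀ y : List Bool, y.length ≤ θ.W.eval τ →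
      (V y = [true] ↔ leaf θ.M N y (pre N A) = true) := by
    intro y hy
    obtain ⟨Q₁, _, hQl, hQA⟩ := hqb A y
    have h1 : θ.M.out (orc N (pre N A)) y = θ.M.out A y := by
      apply hQA
      intro q hq
      apply orc_pre
      have h2 := idx_lt q
      have h3 : q.length ≤ qb.eval (θ.W.eval τ) := (hQl q hq).trans (eval_mono _ hy)
      have h4 : 2 ^ (q.length + 1) ≤ 2 ^ tow i (Q.eval n) :=
        Nat.pow_le_pow_right (by norm_num) (by omega)
      omega
    unfold leaf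
    rw [h1, hM y, decide_eq_true_eq, Option.some.injEq]
  refine ⟨(h n).length, hh n, h n, rfl, ?_⟩
  intro j _
  have hlen : (bitsOf n j).length = n := length_bitsOf n j
  have h1 := hx (bitsOf n j)
  rw [hlen] at h1
  have hly : (inY i θ.p n j (h n)).length = θ.ly i n (h n).length := length_inY θ i n j (h n)
  have hN' : 2 ^ (2 * (inZ i n j).length + 1) ≤ N + 1 := by
    rw [length_inZ]
    exact hN1
  have h2 := blk_par N A (inZ i n j) hN'
  have htest : bitsOf n j ∈ test i A ↔ inZ i n j ∈ parLang A := by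
    unfold test inZ
    rw [Set.mem_ofPred_eq, hlen]
  have h3 := quant_iff (m := θ.m i n (h n).length) (θ.W.eval τ) hV θ.k true
    (inY i θ.p n j (h n)) (by
      rw [hly]
      exact θ.len_le i (hh n))
  have h4 : QF (θ.m i n (h n).length) (leaf θ.M N) θ.k true (inY i θ.p n j (h n))
      (pre N A) = true ↔ par (blk N (inZ i n j)) (pre N A) = true := by
    rw [h2, ← htest, h1, ← h3]
    unfold PA.m
    rw [← hly]
    rfl
  cases hb : par (blk N (inZ i n j)) (pre N A) with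
  | true => exact h4.2 hb
  | false =>
    rw [← Bool.not_eq_true, h4, hb]
    simp

theorem null_level (i : ℕ) (f : ℕ → ℝ) (hf : Cond i f) (O : Set Oracle)
    (hO : ∀ A ∈ O, IsTHpoly i A (test i A)) : Null f O := by
  refine (null_iUnion (f := f) (EasyL i) fun θ => ?_).mono fun A hA => ?_
  · intro δ hδ
    obtain ⟨Q, hQ⟩ := ev_of_easyL i θ
    obtain ⟨Q₂, hQ₂⟩ := absorb i (6 * Polynomial.X + 3) θ.s
    obtain ⟨n, N, u, v, hP, huv, hun, hN, hb⟩ := asym' θ i (Q + Q₂) f hf δ hδ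
    have hN1 : 2 ^ tow i (Q.eval n) ≤ N :=
      le_trans (Nat.pow_le_pow_right (by norm_num) (tow_mono i (by simp))) hN
    have hN2 : 2 ^ tow i (Q₂.eval n) ≤ N :=
      le_trans (Nat.pow_le_pow_right (by norm_num) (tow_mono i (by simp))) hN
    have hN3 : 2 ^ (2 * lB i n + 1) ≤ N + 1 := by
      have h1 := hQ₂ n
      have h2 : (6 * Polynomial.X + 3 : Polynomial ℕ).eval (tow i (θ.s.eval n)) =
          6 * tow i (θ.s.eval n) + 3 := by simp
      rw [h2] at h1
      have htn : tow i n ≤ tow i (θ.s.eval n) := tow_mono i (by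
        have hs : θ.s.eval n = n + θ.p'.eval n + θ.p.eval n := by simp [PA.s]
        omega)
      have ht1 := (θ.tau i n).1
      have h3 : 2 * lB i n + 1 ≤ tow i (Q₂.eval n) := by unfold lB; omega
      have h4 : 2 ^ (2 * lB i n + 1) ≤ 2 ^ tow i (Q₂.eval n) :=
        Nat.pow_le_pow_right (by norm_num) h3
      omega
    have hev := ev_bound θ hP huv hun hN3
    exact cover_of_event (Ev θ i n N u) (EasyL i θ) (fun A hA => (hQ A hA n N u hN1).2) f δ
      ((mul_le_mul_of_nonneg_right hev (by positivity)).trans hb)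
  · obtain ⟨θ, hθ⟩ := mem_easyL (hO A hA)
    exact Set.mem_iUnion.2 ⟨θ, hθ⟩

end H529R3.Lev
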