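import Mathlib

/-! Towers of twos and iterated logarithms. -/

set_option autoImplicit false

namespace H529R3.Lev

open Filter

/-- The tower notation: `tow 0 y = y` and `tow (i + 1) y = 2 ^ tow i y`. -/
def tow : ℕ → ℕ → ℕ
  | 0, y => y
  | i + 1, y => 2 ^ tow i y

theorem tow_mono (i : ℕ) {a b : ℕ} (h : a ≤ b) : tow i a ≤ tow i b := by
  induction i with
  | zero => exact h
  | succ i ih => exact Nat.pow_le_pow_right (by norm_num) ih

theorem le_tow (i a : ℕ) : a ≤ tow i a := by
  induction i with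
  | zero => exact le_rfl
  | succ i ih => exact ih.trans Nat.lt_two_pow_self.le

theorem poly_le (P : Polynomial ℕ) (n : ℕ) (hn : 1 ≤ n) :
    P.eval n ≤ P.eval 1 * n ^ P.natDegree := by
  rw [Polynomial.eval_eq_sum_range, Polynomial.eval_eq_sum_range, Finset.sum_mul]
  apply Finset.sum_le_sum
  intro i hi
  rw [one_pow, mul_one]
  apply Nat.mul_le_mul_left
  exact Nat.pow_le_pow_right hn (by have := Finset.mem_range.1 hi; omega)

/-- polynomials are absorbed by towers of polynomials -/
theorem absorb (i : ℕ) : ∀ (P p : Polynomial ℕ), ∃ r : Polynomial ℕ, ∀ n,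
    P.eval (tow i (p.eval n)) ≤ tow i (r.eval n) := by
  induction i with
  | zero =>
    intro P p
    exact ⟨P.comp p, fun n => by simp [tow, Polynomial.eval_comp]⟩
  | succ i ih =>
    intro P p
    obtain ⟨r, hr⟩ := ih (Polynomial.C (P.eval 1) + Polynomial.C P.natDegree * Polynomial.X) p
    refine ⟨r, fun n => ?_⟩
    have h1 := hr n
    simp only [Polynomial.eval_add, Polynomial.eval_mul, Polynomial.eval_C,
      Polynomial.eval_X] at h1
    show P.eval (2 ^ tow i (p.eval n)) ≤ 2 ^ tow i (r.eval n)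
    generalize tow i (p.eval n) = m at *
    calc P.eval (2 ^ m) ≤ P.eval 1 * (2 ^ m) ^ P.natDegree := poly_le P _ Nat.one_le_two_pow
      _ ≤ 2 ^ P.eval 1 * (2 ^ m) ^ P.natDegree :=
          Nat.mul_le_mul_right _ Nat.lt_two_pow_self.le
      _ = 2 ^ (P.eval 1 + P.natDegree * m) := by
          rw [← pow_mul, ← pow_add, mul_comm m]
      _ ≤ 2 ^ tow i (r.eval n) := Nat.pow_le_pow_right (by norm_num) h1

theorem poly_le_two_pow (p : Polynomial ℕ) : ∀ᶠ n : ℕ in atTop, p.eval n ≤ 2 ^ n := by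
  have h1 := tendsto_pow_const_div_const_pow_of_one_lt p.natDegree (r := (2 : ℝ)) (by norm_num)
  have hpos : (0 : ℝ) < 1 / (p.eval 1 + 1) := by positivity
  filter_upwards [h1.eventually (eventually_lt_nhds hpos), eventually_ge_atTop 1] with n hn h1n
  rw [div_lt_div_iff₀ (by positivity) (by positivity), one_mul] at hn
  have h2 : ((p.eval 1 * n ^ p.natDegree : ℕ) : ℝ) ≤ ((2 ^ n : ℕ) : ℝ) := by
    push_cast
    have h3 : (0 : ℝ) ≤ (n : ℝ) ^ p.natDegree := by positivity
    nlinarith
  exact (poly_le p n h1n).trans (by exact_mod_cast h2)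

theorem grow (i : ℕ) (p : Polynomial ℕ) : ∀ᶠ n : ℕ in atTop, tow i (p.eval n) ≤ 2 ^ tow i n := by
  induction i with
  | zero => exact poly_le_two_pow p
  | succ i ih =>
    filter_upwards [ih] with n hn
    exact Nat.pow_le_pow_right (by norm_num) hn

theorem grow' (i c : ℕ) (hc : 0 < c) (P p : Polynomial ℕ) : ∀ᶠ n : ℕ in atTop,
    8 * P.eval (tow i (p.eval n)) ≤ 2 ^ ((2 * n + 1 + tow i n) / c) := by
  obtain ⟨r, hr⟩ := absorb i ((16 * P) ^ c) p
  filter_upwards [grow i r] with n hn
  have h1 := (hr n).trans hn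
  rw [Polynomial.eval_pow, Polynomial.eval_mul] at h1
  have h16 : (16 : Polynomial ℕ).eval (tow i (p.eval n)) = 16 := by simp
  rw [h16] at h1
  set a := P.eval (tow i (p.eval n)) with ha
  set l := 2 * n + 1 + tow i n with hl
  have h2 : (16 * a) ^ c < (2 ^ (l / c + 1)) ^ c := by
    refine lt_of_le_of_lt h1 ?_
    rw [← pow_mul]
    apply Nat.pow_lt_pow_right (by norm_num)
    have h3 := Nat.lt_div_mul_add (a := l) hc
    have h4 : (l / c + 1) * c = l / c * c + c := by ring
    omega
  have h5 : 16 * a < 2 ^ (l / c + 1) := lt_of_pow_lt_pow_left₀ c (by positivity) h2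
  rw [pow_succ] at h5
  omega

/-! ### Iterated logarithms -/

theorem lt_tow (j m : ℕ) : ∀ y : ℝ, (Real.logb 2)^[j] y < m → y < tow j m := by
  induction j with
  | zero => intro y h; exact h
  | succ j ih =>
    intro y h
    rw [Function.iterate_succ_apply] at h
    have h1 := ih _ h
    show y < ((2 ^ tow j m : ℕ) : ℝ)
    rcases le_or_gt y 0 with hy | hy
    · refine lt_of_le_of_lt hy ?_
      positivity
    · rw [Real.logb_lt_iff_lt_rpow (by norm_num) hy] at h1
      push_cast
      rwa [Real.rpow_natCast] at h1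

theorem iter_bounds (j a m : ℕ) : ∀ y : ℝ, (tow j a : ℝ) ≤ y → y ≤ tow j m →
    (a : ℝ) ≤ (Real.logb 2)^[j] y ∧ (Real.logb 2)^[j] y ≤ m := by
  induction j with
  | zero => intro y h1 h2; exact ⟨h1, h2⟩
  | succ j ih =>
    intro y h1 h2
    rw [Function.iterate_succ_apply]
    have hy : 0 < y := lt_of_lt_of_le (by show (0 : ℝ) < ((2 ^ tow j a : ℕ) : ℝ); positivity) h1
    apply ih
    · rw [Real.le_logb_iff_rpow_le (by norm_num) hy, Real.rpow_natCast]
      have : ((2 ^ tow j a : ℕ) : ℝ) ≤ y := h1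
      push_cast at this
      exact this
    · rw [Real.logb_le_iff_le_rpow (by norm_num) hy, Real.rpow_natCast]
      have : y ≤ ((2 ^ tow j m : ℕ) : ℝ) := h2
      push_cast at this
      exact this

theorem tendsto_iter (j : ℕ) :
    Tendsto (fun N : ℕ => (Real.logb 2)^[j] (N : ℝ)) atTop atTop :=
  ((Real.tendsto_logb_atTop (b := 2) (by norm_num)).iterate j).comp tendsto_natCast_atTop_atTop

end H529R3.Lev
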