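import Pool.Agent.H620R2.Gauge.Base
import Pool.Agent.H529R3.Lev.Tow

/-!
# The levels of the polynomial space-time hierarchy relative to an oracle

The class `TIME 2_i^POL` relative to an oracle `A` consists of the languages decided in polynomial
time relative to `A` when the input `x` is padded with `2_i^{p(|x|)}` ones, and in the same way for
`SPACE 2_i^POL` and polynomial space. (Questions, time and space are bounded by a polynomial in the
length of the padded input, hence by `2_i^{q(|x|)}` for a polynomial `q`.)
-/

set_option autoImplicit false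

namespace H529R3.Lev

open Pool.Agent.NPC Pool.Agent.H620R2.Gauge

/-- `n` ones -/
def ones (n : ℕ) : List Bool := List.replicate n true

/-- The languages that are in the class `C` when the input `x` is padded with `2_i^{p(|x|)}` ones,
for some polynomial `p`. -/
def Padded (i : ℕ) (C : Set (List Bool) → Prop) (L : Set (List Bool)) : Prop :=
  ∃ (p : Polynomial ℕ) (L' : Set (List Bool)), C L' ∧
    ∀ x, x ∈ L ↔ pairBits x (ones (tow i (p.eval x.length))) ∈ L'

/-- The same with an advice string `h |x|` of polynomially bounded length. -/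
def PaddedAdvice (i : ℕ) (C : Set (List Bool) → Prop) (L : Set (List Bool)) : Prop :=
  ∃ (p p' : Polynomial ℕ) (h : ℕ → List Bool) (L' : Set (List Bool)), C L' ∧
    (∀ n, (h n).length ≤ p'.eval n) ∧
    ∀ x, x ∈ L ↔ pairBits (pairBits x (h x.length)) (ones (tow i (p.eval x.length))) ∈ L'

/-- `TIME 2_i^POL` relative to `A`. -/
def IsTime (i : ℕ) (A : Oracle) (L : Set (List Bool)) : Prop := Padded i (IsP A) L

/-- `SPACE 2_i^POL` relative to `A`. -/
def IsSpace (i : ℕ) (A : Oracle) (L : Set (List Bool)) : Prop := Padded i (IsPSPACE A) L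

/-- `L` is reducible to the oracle `A` in time `2_i^POL`. -/
def ReducesTime (i : ℕ) (A : Oracle) (L : Set (List Bool)) : Prop :=
  Padded i (fun L' => Reduces L' {x | A x = true}) L

/-- The hierarchy over `TIME 2_i^POL` (a constant number of alternating quantifiers over strings of
length `2_i^POL`) relative to `A`, with polynomial advice. -/
def IsTHpoly (i : ℕ) (A : Oracle) (L : Set (List Bool)) : Prop := PaddedAdvice i (IsPH A) L

theorem Padded.mono {i : ℕ} {C D : Set (List Bool) → Prop} {L : Set (List Bool)}
    (h : Padded i C L) (hCD : ∀ L', C L' → D L') : Padded i D L := by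
  obtain ⟨p, L', h1, h2⟩ := h
  exact ⟨p, L', hCD _ h1, h2⟩

/-- the condition on the gauge -/
def Cond (i : ℕ) (f : ℕ → ℝ) : Prop :=
  ∀ ε : ℝ, 0 < ε → ∃ᶠ N : ℕ in Filter.atTop, f N ≤ 2 ^ ((Real.logb 2)^[i + 1] (N : ℝ)) ^ ε

/-- the test language -/
def test (i : ℕ) (A : Oracle) : Set (List Bool) :=
  {x | pairBits x (ones (tow i x.length)) ∈ parLang A}

end H529R3.Lev
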