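import Pool.Agent.H529R3.Lev.Defs
import Pool.Agent.H620R2.Gauge.Cover

/-! The event that some advice is right for `2 ^ u` inputs of length `n`. -/

set_option autoImplicit false

namespace H529R3.Lev

open Pool.Agent.NPC Pool.Agent.H620R2.Gauge Finset H568R2 Pool.Agent.H676

/-- The parameters of a hierarchy algorithm with advice. -/
structure PA : Type where
  M : Alg
  q : Polynomial ℕ
  k : ℕ
  p' : Polynomial ℕ
  p : Polynomial ℕ

instance : Countable PA := by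
  have h2 : Countable (Polynomial ℕ) := by
    have : Function.Injective (fun p : Polynomial ℕ => (p.toFinsupp.coeff : ℕ →₀ ℕ)) := by
      intro p q h
      ext n
      exact DFunLike.congr_fun h n
    exact this.countable
  let F : PA → Alg × Polynomial ℕ × ℕ × Polynomial ℕ × Polynomial ℕ :=
    fun θ => (θ.M, θ.q, θ.k, θ.p', θ.p)
  have hF : Function.Injective F := by
    rintro ⟨M, p, k, p', r⟩ ⟨N, q, l, q', r'⟩ h
    simp only [F, Prod.mk.injEq] at h
    obtain ⟨rfl, rfl, rfl, rfl, rfl⟩ := h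
    rfl
  exact hF.countable

/-- the length of the padded inputs with advice of length `c` -/
noncomputable def PA.ly (θ : PA) (i n c : ℕ) : ℕ := 2 * (2 * n + 1 + c) + 1 + tow i (θ.p.eval n)

/-- the bound for the quantifiers -/
noncomputable def PA.m (θ : PA) (i n c : ℕ) : ℕ := θ.q.eval (θ.ly i n c)

/-- the quantity in which everything is polynomial -/
noncomputable def PA.s (θ : PA) : Polynomial ℕ := Polynomial.X + θ.p' + θ.p

/-- the polynomial for the length of all strings that occur -/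
noncomputable def PA.W (θ : PA) : Polynomial ℕ :=
  (7 * Polynomial.X + 3) + Polynomial.C θ.k * (2 * θ.q.comp (7 * Polynomial.X + 3) + 1)

/-- the polynomial for the final bound -/
noncomputable def PA.PP (θ : PA) : Polynomial ℕ :=
  Polynomial.X + θ.W + 2 + θ.M.p.comp θ.W

theorem PA.tau (θ : PA) (i n : ℕ) : n ≤ tow i (θ.s.eval n) ∧ θ.p'.eval n ≤ tow i (θ.s.eval n) ∧
    tow i (θ.p.eval n) ≤ tow i (θ.s.eval n) := by
  have hs : θ.s.eval n = n + θ.p'.eval n + θ.p.eval n := by simp [PA.s]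
  refine ⟨?_, ?_, tow_mono i (by omega)⟩
  · exact le_trans (by omega) (le_tow i _)
  · exact le_trans (by omega) (le_tow i _)

theorem PA.len_le (θ : PA) (i : ℕ) {n c : ℕ} (hc : c ≤ θ.p'.eval n) :
    θ.ly i n c + θ.k * (2 * θ.m i n c + 1) ≤ θ.W.eval (tow i (θ.s.eval n)) := by
  obtain ⟨h1, h2, h3⟩ := θ.tau i n
  have hy : θ.ly i n c ≤ 7 * tow i (θ.s.eval n) + 3 := by
    unfold PA.ly
    omega
  have hm : θ.m i n c ≤ θ.q.eval (7 * tow i (θ.s.eval n) + 3) := eval_mono _ hy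
  have hW : θ.W.eval (tow i (θ.s.eval n)) = 7 * tow i (θ.s.eval n) + 3 +
      θ.k * (2 * θ.q.eval (7 * tow i (θ.s.eval n) + 3) + 1) := by
    simp [PA.W, Polynomial.eval_comp]
  rw [hW]
  have h4 : θ.k * (2 * θ.m i n c + 1) ≤
      θ.k * (2 * θ.q.eval (7 * tow i (θ.s.eval n) + 3) + 1) := Nat.mul_le_mul_left _ (by omega)
  omega

/-- the input with advice and padding -/
def inY (i : ℕ) (p : Polynomial ℕ) (n j : ℕ) (h : List Bool) : List Bool :=
  pairBits (pairBits (bitsOf n j) h) (ones (tow i (p.eval n)))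

/-- the padded input of the test language -/
def inZ (i n j : ℕ) : List Bool := pairBits (bitsOf n j) (ones (tow i n))

/-- its length -/
def lB (i n : ℕ) : ℕ := 2 * n + 1 + tow i n

theorem length_inZ (i n j : ℕ) : (inZ i n j).length = lB i n := by
  unfold inZ lB ones
  rw [length_pairBits, length_bitsOf, List.length_replicate]

theorem length_inY (θ : PA) (i n j : ℕ) (h : List Bool) :
    (inY i θ.p n j h).length = θ.ly i n h.length := by
  unfold inY PA.ly ones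
  rw [length_pairBits, length_pairBits, length_bitsOf, List.length_replicate]

theorem inZ_inj {i n j j' : ℕ} (hj : j < 2 ^ n) (hj' : j' < 2 ^ n) (h : inZ i n j = inZ i n j') :
    j = j' := by
  have h1 : unpair (inZ i n j) = unpair (inZ i n j') := by rw [h]
  unfold inZ at h1
  rw [unpair_pairBits, unpair_pairBits] at h1
  exact bitsOf_inj hj hj' (congrArg Prod.fst h1)

/-- The event: some advice of the right length gives the right answers on the first `2 ^ u` inputs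
of length `n`. -/
def Ev (θ : PA) (i n N u : ℕ) (a : Fin N → Bool) : Prop :=
  ∃ c ≤ θ.p'.eval n, ∃ h : List Bool, h.length = c ∧ ∀ j ∈ Finset.range (2 ^ u),
    QF (θ.m i n c) (leaf θ.M N) θ.k true (inY i θ.p n j h) a = par (blk N (inZ i n j)) a

/-- the event for advice of length `c` -/
def EvC (θ : PA) (i n N u c : ℕ) (a : Fin N → Bool) : Prop :=
  ∃ h ∈ strsOf c, ∀ j ∈ Finset.range (2 ^ u),
    QF (θ.m i n c) (leaf θ.M N) θ.k true (inY i θ.p n j h) a = par (blk N (inZ i n j)) a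

open Classical in
theorem ev_bound (θ : PA) {i n N u v : ℕ}
    (hP : θ.PP.eval (tow i (θ.s.eval n)) ≤ 2 ^ (2 * v)) (huv : u ≤ v) (hun : u ≤ n)
    (hN : 2 ^ (2 * lB i n + 1) ≤ N + 1) :
    Ex unif (fun a : Fin N → Bool => if Ev θ i n N u a then (1 : ℝ) else 0) ≤
      bnd θ.k (Polynomial.C (θ.PP.eval (tow i (θ.s.eval n)))) (lB i n) v +
        2 ^ (2 * θ.p'.eval n) * (1 / 2) ^ 2 ^ u := by
  set τ : ℕ := tow i (θ.s.eval n) with hτ
  set t : ℕ := 2 ^ (2 * v) with ht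
  have ht1 : 1 ≤ t := Nat.one_le_two_pow
  have htR : (1 : ℝ) ≤ (t : ℝ) := by exact_mod_cast ht1
  set q : ℝ := 1 / (24 * t) with hq
  have hq0 : 0 ≤ q := by positivity
  have hq1 : q ≤ 1 / 3 := by
    rw [hq, div_le_div_iff₀ (by positivity) (by norm_num)]
    linarith
  have hE : θ.PP.eval τ = τ + θ.W.eval τ + 2 + θ.M.p.eval (θ.W.eval τ) := by
    simp [PA.PP, Polynomial.eval_comp]
  obtain ⟨htau1, htau2, htau3⟩ := θ.tau i n
  rw [← hτ] at htau1 htau2 htau3
  set K : ℕ := 2 ^ u with hK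
  set K' : ℕ := 2 ^ v with hK'
  have hKK : (K : ℝ) ≤ K' := by
    have : K ≤ K' := Nat.pow_le_pow_right (by norm_num) huv
    exact_mod_cast this
  set r : ℕ := 2 ^ (3 * v) with hr
  set s : ℕ := 2 ^ lB i n / (2 ^ (3 * v) + 1) with hs
  have hKt : K * t ≤ r := by
    rw [hK, ht, hr, ← pow_add]
    exact Nat.pow_le_pow_right (by norm_num) (by omega)
  -- the bound for advice of length c
  have hc : ∀ c ∈ Finset.range (θ.p'.eval n + 1), Ex unif (fun a : Fin N → Bool =>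
      if EvC θ i n N u c a then (1 : ℝ) else 0) ≤
      θ.k * 2 ^ (θ.W.eval τ + 2) * (1 / 2) ^ (t + 1) + K' * ((r + 1) * (1 - q ^ θ.k) ^ s) +
        2 ^ θ.p'.eval n * (1 / 2) ^ K := by
    intro c hc
    rw [Finset.mem_range, Nat.lt_succ_iff] at hc
    have hlen := θ.len_le i hc
    rw [← hτ] at hlen
    have h1 := comb (I := Fin N) ht1 hq0 hq1 (θ.m i n c) (leaf θ.M N) θ.k (θ.ly i n c) (by
      intro y hy
      have h2 := dtr_out θ.M N y
      refine h2.mono ?_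
      calc θ.M.p.eval y.length ≤ θ.M.p.eval (θ.W.eval τ) := eval_mono _ (by omega)
        _ ≤ t := by omega) (Finset.range (2 ^ u)) (fun j => blk N (inZ i n j)) (by
      intro j hj j' hj' hne
      rw [Finset.mem_range] at hj hj'
      apply blk_disj
      · rw [length_inZ, length_inZ]
      · intro h
        exact hne (inZ_inj (lt_of_lt_of_le hj (Nat.pow_le_pow_right (by norm_num) hun))
          (lt_of_lt_of_le hj' (Nat.pow_le_pow_right (by norm_num) hun)) h)) (strsOf c)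
      (fun j h => inY i θ.p n j h) (by
      intro j _ h hh
      rw [length_inY]
      obtain ⟨i', _, rfl⟩ := Finset.mem_image.1 hh
      rw [length_bitsOf]) r s (by rw [Finset.card_range, ← hK]; exact hKt) (by
      intro j _
      rw [blk_card N _ (by rw [length_inZ]; exact hN), length_inZ]
      exact Nat.mul_div_le _ _)
    refine (Ex_mono unif_nonneg (fun a => ?_)).trans (h1.trans ?_)
    · by_cases h : EvC θ i n N u c a
      · have h' := h
        unfold EvC at h'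
        rw [if_pos h, if_pos h']
      · have h' := h
        unfold EvC at h'
        rw [if_neg h, if_neg h']
    rw [Finset.card_range]
    have hqt : 12 * (t : ℝ) * q = 1 / 2 := by
      rw [hq]; field_simp; norm_num
    rw [hqt]
    have h3 : (2 : ℝ) ^ (θ.ly i n c + θ.k * (2 * θ.m i n c + 1) + 2) ≤ 2 ^ (θ.W.eval τ + 2) :=
      pow_le_pow_right₀ (by norm_num) (by omega)
    have h4 : ((strsOf c).card : ℝ) ≤ 2 ^ θ.p'.eval n := by
      have h5 : (strsOf c).card ≤ 2 ^ θ.p'.eval n :=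
        (card_strsOf c).trans (Nat.pow_le_pow_right (by norm_num) hc)
      exact_mod_cast h5
    have h6 : (0 : ℝ) ≤ (1 / 2) ^ (t + 1) := by positivity
    have h7 : (0 : ℝ) ≤ (1 / 2) ^ K := by positivity
    have h8 : (θ.k : ℝ) * 2 ^ (θ.ly i n c + θ.k * (2 * θ.m i n c + 1) + 2) * (1 / 2) ^ (t + 1) ≤
        θ.k * 2 ^ (θ.W.eval τ + 2) * (1 / 2) ^ (t + 1) :=
      mul_le_mul_of_nonneg_right (mul_le_mul_of_nonneg_left h3 (by positivity)) h6
    have h9 : ((strsOf c).card : ℝ) * (1 / 2) ^ 2 ^ u ≤ 2 ^ θ.p'.eval n * (1 / 2) ^ K :=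
      mul_le_mul_of_nonneg_right h4 h7
    have h10 : (((2 ^ u : ℕ) : ℝ)) = (K : ℝ) := rfl
    rw [h10]
    have hq1' : q ^ θ.k ≤ 1 := pow_le_one₀ hq0 (by linarith)
    have h11 : (0 : ℝ) ≤ (r + 1) * (1 - q ^ θ.k) ^ s := by
      have : (0:ℝ) ≤ (1 - q ^ θ.k) ^ s := pow_nonneg (by linarith) _
      positivity
    have h12 : (K : ℝ) * ((r + 1) * (1 - q ^ θ.k) ^ s) ≤
        K' * ((r + 1) * (1 - q ^ θ.k) ^ s) := mul_le_mul_of_nonneg_right hKK h11
    linarith
  -- union over c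
  have hU : Ex unif (fun a : Fin N → Bool => if Ev θ i n N u a then (1 : ℝ) else 0) ≤
      ∑ c ∈ Finset.range (θ.p'.eval n + 1), Ex unif (fun a : Fin N → Bool =>
      if EvC θ i n N u c a then (1 : ℝ) else 0) := by
    rw [← Ex_sum]
    apply Ex_mono unif_nonneg
    intro a
    by_cases hE : Ev θ i n N u a
    · rw [if_pos hE]
      obtain ⟨c, hc, h, hh, hj⟩ := hE
      refine le_trans ?_ (Finset.single_le_sum (f := fun c =>
        if EvC θ i n N u c a then (1 : ℝ) else 0) (fun c _ => by positivity)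
        (Finset.mem_range.2 (Nat.lt_succ_of_le hc)))
      have hEC : EvC θ i n N u c a := ⟨h, by rw [← hh]; exact mem_strsOf h, hj⟩
      show 1 ≤ (if EvC θ i n N u c a then (1:ℝ) else 0)
      rw [if_pos hEC]
    · rw [if_neg hE]
      exact Finset.sum_nonneg fun c _ => by positivity
  refine hU.trans ((Finset.sum_le_sum hc).trans ?_)
  rw [Finset.sum_const, Finset.card_range, nsmul_eq_mul]
  -- numeric
  have hp1 : ((θ.p'.eval n + 1 : ℕ) : ℝ) ≤ 2 ^ θ.p'.eval n := by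
    have : θ.p'.eval n + 1 ≤ 2 ^ θ.p'.eval n := Nat.lt_two_pow_self
    exact_mod_cast this
  have hq1' : q ^ θ.k ≤ 1 := pow_le_one₀ hq0 (by linarith)
  have e1 : (0:ℝ) ≤ (K':ℝ) * ((r + 1) * (1 - q ^ θ.k) ^ s) := by
    have : (0:ℝ) ≤ (1 - q ^ θ.k) ^ s := pow_nonneg (by linarith) _
    positivity
  have hqb : q = 1 / (24 * 2 ^ (2 * v)) := by rw [hq, ht]; push_cast; rfl
  have hrb : (r : ℝ) = 2 ^ (3 * v) := by rw [hr]; push_cast; rfl
  have hKb : (K' : ℝ) = 2 ^ v := by rw [hK']; push_cast; rfl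
  have hple : θ.p'.eval n + (θ.W.eval τ + 2) ≤ θ.PP.eval τ := by
    rw [hE]
    omega
  -- the three terms
  have T1 : 2 ^ θ.p'.eval n * ((θ.k:ℝ) * 2 ^ (θ.W.eval τ + 2) * (1 / 2) ^ (t + 1)) ≤
      2 ^ θ.PP.eval τ * (θ.k * (1 / 2) ^ (t + 1)) := by
    have h6 : (0 : ℝ) ≤ θ.k * (1 / 2) ^ (t + 1) := by positivity
    have : 2 ^ θ.p'.eval n * ((θ.k:ℝ) * 2 ^ (θ.W.eval τ + 2) * (1 / 2) ^ (t + 1)) =
      (2 ^ (θ.p'.eval n + (θ.W.eval τ + 2))) * (θ.k * (1 / 2) ^ (t + 1)) := by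
        rw [pow_add (2 : ℝ) (θ.p'.eval n)]; ring
    rw [this]
    apply mul_le_mul_of_nonneg_right _ h6
    exact pow_le_pow_right₀ (by norm_num) hple
  have T2 : 2 ^ θ.p'.eval n * ((K':ℝ) * ((r + 1) * (1 - q ^ θ.k) ^ s)) ≤
      2 ^ θ.PP.eval τ * ((K':ℝ) * ((r + 1) * (1 - q ^ θ.k) ^ s)) := by
    apply mul_le_mul_of_nonneg_right _ e1
    exact pow_le_pow_right₀ (by norm_num) (by omega)
  have T3 : 2 ^ θ.p'.eval n * (2 ^ θ.p'.eval n * (1 / 2) ^ K) =
      2 ^ (2 * θ.p'.eval n) * ((1:ℝ) / 2) ^ 2 ^ u := by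
    rw [← mul_assoc, ← pow_add, hK]
    congr 2
    ring
  have hall : ((θ.p'.eval n + 1 : ℕ) : ℝ) * (θ.k * 2 ^ (θ.W.eval τ + 2) * (1 / 2) ^ (t + 1) +
      K' * ((r + 1) * (1 - q ^ θ.k) ^ s) + 2 ^ θ.p'.eval n * (1 / 2) ^ K) ≤
      2 ^ θ.p'.eval n * (θ.k * 2 ^ (θ.W.eval τ + 2) * (1 / 2) ^ (t + 1) +
      K' * ((r + 1) * (1 - q ^ θ.k) ^ s) + 2 ^ θ.p'.eval n * (1 / 2) ^ K) := by
    apply mul_le_mul_of_nonneg_right hp1
    positivity
  refine hall.trans ?_
  have hb : bnd θ.k (Polynomial.C (θ.PP.eval τ)) (lB i n) v =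
      2 ^ θ.PP.eval τ * (θ.k * (1 / 2) ^ (t + 1)) +
      2 ^ θ.PP.eval τ * ((K':ℝ) * ((r + 1) * (1 - q ^ θ.k) ^ s)) +
      2 ^ θ.PP.eval τ * ((1:ℝ) / 2) ^ K' := by
    unfold bnd
    rw [hqb, hrb, hKb, Polynomial.eval_C]
    ring
  rw [hb]
  have h0 : (0 : ℝ) ≤ 2 ^ θ.PP.eval τ * ((1:ℝ) / 2) ^ K' := by positivity
  have expand : 2 ^ θ.p'.eval n * ((θ.k : ℝ) * 2 ^ (θ.W.eval τ + 2) * (1 / 2) ^ (t + 1) +
      K' * ((r + 1) * (1 - q ^ θ.k) ^ s) + 2 ^ θ.p'.eval n * (1 / 2) ^ K) =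
      2 ^ θ.p'.eval n * ((θ.k:ℝ) * 2 ^ (θ.W.eval τ + 2) * (1 / 2) ^ (t + 1)) +
      2 ^ θ.p'.eval n * ((K':ℝ) * ((r + 1) * (1 - q ^ θ.k) ^ s)) +
      2 ^ θ.p'.eval n * (2 ^ θ.p'.eval n * (1 / 2) ^ K) := by ring
  rw [expand, T3]
  linarith

end H529R3.Lev
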