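import Pool.Agent.H529R3.Lev.CoverEL
import Pool.Agent.H529R3.Lev.Main

/-! The far language is in the next time class. -/

set_option autoImplicit false

namespace H529R3.Lev

open Pool.Agent.NPC Pool.Agent.H622R2 Pool.Agent.H620R2.Gauge

theorem poly_repl {α : Type} [TEnc α] {n : α → ℕ} (hn : UPoly n) (b : Bool) :
    Poly (fun a => List.replicate (n a) b) :=
  (Pool.Agent.NPC.Poly.map (F := fun _ _ => b) hn (Pool.Agent.NPC.Poly.const b)).congr fun a => by
    simp [List.map_replicate]

theorem poly_two_pow' {α : Type} [TEnc α] {n : α → ℕ} (hn : UPoly n) :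
    Poly (fun a => 2 ^ n a) :=
  (Poly.valBits (Poly.append (poly_repl hn false) (Pool.Agent.NPC.Poly.const [true]))).congr fun a => by
    rw [valB_replicate_false]
    simp

theorem upoly_min' {α : Type} [TEnc α] {n m : α → ℕ} (hn : UPoly n) (hm : Poly m) :
    UPoly (fun a => min (m a) (n a)) :=
  UPoly.of_le (Poly.min hm hn.toPoly) hn fun _ => min_le_right _ _

/-- the tower, cut at `c` -/
def ctow (c : ℕ) : ℕ → ℕ → ℕ
  | 0, b => min b c
  | i + 1, b => min (2 ^ ctow c i b) c

theorem ctow_eq {c b : ℕ} : ∀ i : ℕ, tow i b ≤ c → ctow c i b = tow i b := by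
  intro i
  induction i with
  | zero => intro h; exact min_eq_left h
  | succ i ih =>
    intro h
    have h1 : tow i b ≤ c := le_trans Nat.lt_two_pow_self.le h
    show min (2 ^ ctow c i b) c = 2 ^ tow i b
    rw [ih h1]
    exact min_eq_left h

theorem upoly_ctow {α : Type} [TEnc α] {c b : α → ℕ} (hc : UPoly c) (hb : Poly b) (i : ℕ) :
    UPoly (fun a => ctow (c a) i (b a)) := by
  induction i with
  | zero => exact upoly_min' hc hb
  | succ i ih => exact upoly_min' hc (poly_two_pow' ih)

theorem tow_succ' (i y : ℕ) : tow (i + 1) y = tow i (2 ^ y) := by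
  induction i with
  | zero => rfl
  | succ i ih =>
    show 2 ^ tow (i + 1) y = 2 ^ tow i (2 ^ y)
    rw [ih]

theorem far_reduces (i : ℕ) (A : Oracle) : ReducesTime (i + 1) A (far i A) := by
  set G : List Bool → List Bool := fun z => (unpair (unpair z).1).1 ++
    List.replicate (ctow (unpair z).2.length i (valB (unpair (unpair z).1).2)) false with hG
  have hGp : Poly G := by
    have h1 : Poly (fun z : List Bool => unpair z) := poly_unpair
    have h2 : Poly (fun z : List Bool => unpair (unpair z).1) := poly_unpair.comp (Poly.fst h1)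
    exact Pool.Agent.NPC.Poly.append (Poly.fst h2)
      (poly_repl (upoly_ctow (UPoly.length (Poly.snd h1)) (Poly.valBits (Poly.snd h2)) i) false)
  refine ⟨Polynomial.X, {z | A (G z) = true}, ⟨G, polyTime_of_poly_list hGp, fun z => Iff.rfl⟩,
    fun x => ?_⟩
  rw [Polynomial.eval_X]
  show _ ↔ A (G (pairBits x (ones (tow (i + 1) x.length)))) = true
  have h1 : G (pairBits x (ones (tow (i + 1) x.length))) =
      (unpair x).1 ++ List.replicate (tow i (valB (unpair x).2)) false := by
    rw [hG]
    simp only [unpair_pairBits]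
    rw [ctow_eq]
    unfold ones
    rw [List.length_replicate, tow_succ']
    apply tow_mono
    have h2 := valB_lt (unpair x).2
    have h3 : (unpair x).2.length ≤ x.length := V8.unpair_snd_len x
    have h4 : 2 ^ (unpair x).2.length ≤ 2 ^ x.length := Nat.pow_le_pow_right (by norm_num) h3
    omega
  rw [h1]
  rfl

end H529R3.Lev
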