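import Pool.Agent.H620R2.Gauge.Base

/-! Parity constraints with few questions are independent. -/

set_option autoImplicit false
set_option linter.unusedSectionVars false

namespace H529R3.Lev

open Pool.Agent.H620R2.Gauge Finset

variable {I : Type} [Fintype I] [DecidableEq I]

/-- change one bit -/
def flip (w : I) (a : I → Bool) : I → Bool := Function.update a w (!a w)

theorem flip_flip (w : I) (a : I → Bool) : flip w (flip w a) = a := by
  unfold flip
  funext i
  by_cases h : i = w
  · subst h; simp
  · simp [Function.update_of_ne h]

theorem flip_ne {w i : I} (h : i ≠ w) (a : I → Bool) : flip w a i = a i :=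
  Function.update_of_ne h _ _

theorem par_flip_not_mem {B : Finset I} {w : I} (hw : w ∉ B) (a : I → Bool) :
    par B (flip w a) = par B a := by
  unfold par
  have h : B.filter (fun i => flip w a i = true) = B.filter (fun i => a i = true) := by
    apply Finset.filter_congr
    intro i hi
    rw [flip_ne (by rintro rfl; exact hw hi)]
  rw [h]

theorem par_flip_mem {B : Finset I} {w : I} (hw : w ∈ B) (a : I → Bool) :
    par B (flip w a) = !par B a := by
  have h0 : ∀ b : I → Bool, (B.filter (fun i => b i = true)).card =
      ((B.erase w).filter (fun i => b i = true)).card + (b w).toNat := by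
    intro b
    rw [← Finset.insert_erase hw, Finset.filter_insert]
    simp only [Finset.erase_insert (Finset.notMem_erase w B)]
    by_cases hb : b w = true
    · rw [if_pos hb, Finset.card_insert_of_notMem (by simp)]
      simp [hb]
    · rw [if_neg hb]
      simp at hb
      simp [hb]
  have h1 : ((B.erase w).filter (fun i => flip w a i = true)) =
      ((B.erase w).filter (fun i => a i = true)) := by
    apply Finset.filter_congr
    intro i hi
    rw [flip_ne (Finset.ne_of_mem_erase hi)]
  have h2 : flip w a w = !a w := by simp [flip]
  unfold par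
  rw [h0, h0 a, h1, h2]
  generalize ((B.erase w).filter (fun i => a i = true)).card = m
  rcases Nat.even_or_odd m with h | h
  · cases a w <;> simp [h, Nat.odd_add_one, Nat.not_odd_iff_even]
  · cases a w <;> simp [h, Nat.odd_add_one, Nat.not_odd_iff_even]

open Classical in
/-- some element -/
noncomputable def pick (w₀ : I) (S : Finset I) : I := if h : S.Nonempty then h.choose else w₀

theorem pick_mem (w₀ : I) {S : Finset I} (h : S.Nonempty) : pick w₀ S ∈ S := by
  unfold pick
  rw [dif_pos h]
  exact h.choose_spec

open Classical in
theorem indep {ι : Type} (lam : ι → ℕ) (W : ι → Finset I) (V : ι → (I → Bool) → Bool)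
    (Q : ι → (I → Bool) → Finset I)
    (hQ : ∀ l a b, (∀ i ∈ Q l a, b i = a i) → Q l b = Q l a ∧ V l b = V l a)
    (G : (I → Bool) → Prop) : ∀ (m : ℕ) (J : Finset ι), J.card = m →
    (∀ j ∈ J, ∀ l ∈ J, j ≠ l → Disjoint (W j) (W l)) →
    (∀ j ∈ J, ∀ a, ∑ l ∈ J with lam l ≤ lam j, (Q l a).card < (W j).card) →
    (∀ j ∈ J, ∀ a, ∀ w ∈ W j, G (flip w a) ↔ G a) →
    2 ^ J.card * (univ.filter (fun a => G a ∧ ∀ j ∈ J, V j a = par (W j) a)).card =
      (univ.filter (fun a => G a)).card := by
  intro m
  induction m with
  | zero =>
    intro J hJ _ _ _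
    rw [Finset.card_eq_zero] at hJ
    subst hJ
    simp
  | succ m ih =>
    intro J hJ hd hb hG
    have hne : J.Nonempty := Finset.card_pos.1 (by omega)
    obtain ⟨j, hj, hmax⟩ := Finset.exists_max_image J lam hne
    set J' := J.erase j with hJ'
    have hcard : J'.card = m := by rw [hJ', Finset.card_erase_of_mem hj]; omega
    have h1 := ih J' hcard (fun a ha b hb => hd a (Finset.mem_of_mem_erase ha) b
        (Finset.mem_of_mem_erase hb)) (by
      intro l hl a
      refine lt_of_le_of_lt ?_ (hb l (Finset.mem_of_mem_erase hl) a)
      apply Finset.sum_le_sum_of_subset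
      intro x hx
      rw [Finset.mem_filter] at hx ⊢
      exact ⟨Finset.mem_of_mem_erase hx.1, hx.2⟩) (fun l hl => hG l (Finset.mem_of_mem_erase hl))
    rw [← h1]
    -- the asked positions
    set U : (I → Bool) → Finset I := fun a => J.biUnion fun l => Q l a with hU
    have hWne : ∀ a, (W j \ U a).Nonempty := by
      intro a
      rw [← Finset.card_pos]
      have h2 : (U a).card < (W j).card := by
        refine lt_of_le_of_lt Finset.card_biUnion_le ?_
        have h3 := hb j hj a
        rwa [Finset.filter_true_of_mem (fun l hl => hmax l hl)] at h3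
      have h3 := Finset.le_card_sdiff (U a) (W j)
      omega
    have hI : Nonempty I := by
      by_contra hcon
      rw [not_nonempty_iff] at hcon
      obtain ⟨x, _⟩ := hWne (fun _ => false)
      exact hcon.elim x
    obtain ⟨w₀⟩ := hI
    set w : (I → Bool) → I := fun a => pick w₀ (W j \ U a) with hw
    have hwm : ∀ a, w a ∈ W j ∧ w a ∉ U a := by
      intro a
      have := pick_mem w₀ (hWne a)
      rwa [Finset.mem_sdiff] at this
    set τ : (I → Bool) → (I → Bool) := fun a => flip (w a) a with hτ
    have hag : ∀ a, ∀ l ∈ J, Q l (τ a) = Q l a ∧ V l (τ a) = V l a := by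
      intro a l hl
      apply hQ
      intro i hi
      apply flip_ne
      intro h
      apply (hwm a).2
      rw [hU]
      exact Finset.mem_biUnion.2 ⟨l, hl, h ▸ hi⟩
    have hUτ : ∀ a, U (τ a) = U a := by
      intro a
      rw [hU]
      exact Finset.biUnion_congr rfl fun l hl => (hag a l hl).1
    have hwτ : ∀ a, w (τ a) = w a := by
      intro a
      show pick w₀ (W j \ U (τ a)) = pick w₀ (W j \ U a)
      rw [hUτ]
    have hττ : ∀ a, τ (τ a) = a := by
      intro a
      show flip (w (τ a)) (flip (w a) a) = a
      rw [hwτ, flip_flip]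
    have hGτ : ∀ a, G (τ a) ↔ G a := fun a => hG j hj a (w a) (hwm a).1
    have hc' : ∀ a, (∀ l ∈ J', V l (τ a) = par (W l) (τ a)) ↔ ∀ l ∈ J', V l a = par (W l) a := by
      intro a
      refine forall_congr' fun l => forall_congr' fun hl => ?_
      have hlJ := Finset.mem_of_mem_erase hl
      rw [(hag a l hlJ).2]
      have : par (W l) (τ a) = par (W l) a := by
        apply par_flip_not_mem
        intro h
        exact Finset.disjoint_left.1 (hd j hj l hlJ (Finset.ne_of_mem_erase hl).symm)
          (hwm a).1 h
      rw [this]
    have hcj : ∀ a, (V j (τ a) = par (W j) (τ a)) ↔ ¬ (V j a = par (W j) a) := by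
      intro a
      rw [(hag a j hj).2, show par (W j) (τ a) = !par (W j) a from par_flip_mem (hwm a).1 a]
      cases V j a <;> cases par (W j) a <;> simp
    -- the two halves
    have hsplit : (univ.filter (fun a => G a ∧ ∀ l ∈ J', V l a = par (W l) a)).card =
        2 * (univ.filter (fun a => G a ∧ ∀ l ∈ J, V l a = par (W l) a)).card := by
      have hA : univ.filter (fun a => G a ∧ ∀ l ∈ J, V l a = par (W l) a) =
          (univ.filter (fun a => G a ∧ ∀ l ∈ J', V l a = par (W l) a)).filter
            (fun a => V j a = par (W j) a) := by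
        ext a
        simp only [Finset.mem_filter, Finset.mem_univ, true_and]
        constructor
        · rintro ⟨g, h⟩
          exact ⟨⟨g, fun l hl => h l (Finset.mem_of_mem_erase hl)⟩, h j hj⟩
        · rintro ⟨⟨g, h⟩, h'⟩
          refine ⟨g, fun l hl => ?_⟩
          by_cases hlj : l = j
          · subst hlj; exact h'
          · exact h l (Finset.mem_erase.2 ⟨hlj, hl⟩)
      rw [hA]
      set X := univ.filter (fun a => G a ∧ ∀ l ∈ J', V l a = par (W l) a) with hX
      have hXτ : ∀ a, τ a ∈ X ↔ a ∈ X := by
        intro a
        rw [hX, Finset.mem_filter, Finset.mem_filter]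
        simp only [Finset.mem_univ, true_and]
        rw [hGτ, hc']
      have h2 : (X.filter (fun a => V j a = par (W j) a)).card =
          (X.filter (fun a => ¬ (V j a = par (W j) a))).card := by
        apply Finset.card_bij' (fun a _ => τ a) (fun a _ => τ a)
        · intro a ha
          rw [Finset.mem_filter] at ha ⊢
          refine ⟨(hXτ a).2 ha.1, ?_⟩
          rw [hcj]
          exact not_not.2 ha.2
        · intro a ha
          rw [Finset.mem_filter] at ha ⊢
          exact ⟨(hXτ a).2 ha.1, (hcj a).2 ha.2⟩
        · intro a _
          exact hττ a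
        · intro a _
          exact hττ a
      have h3 := Finset.card_filter_add_card_filter_not (s := X) (fun a => V j a = par (W j) a)
      omega
    rw [hsplit, hJ, hcard, pow_succ]
    ring

end H529R3.Lev
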