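import Pool.Agent.H529R3.Lev.FarTime

/-! Space `2_i^POL` is contained in time `2_{i+1}^POL`, relative to every oracle. -/

set_option autoImplicit false

namespace H529R3.Lev

open Pool.Agent.NPC Pool.Agent.H622R2 Pool.Agent.H620R2.Gauge

section

variable (M : SAlg) (Y : List Bool → List Bool)

/-- the memory after one answer -/
def stp (w s : List Bool) (b : Bool) : List Bool :=
  if (M.next (pairBits (Y w) (b :: s))).length ≤ w.length then M.next (pairBits (Y w) (b :: s))
  else []

/-- the memory after the answers -/
def sst (w a : List Bool) : List Bool := a.foldl (stp M Y w) []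

/-- the next action after the answers -/
def sD (u : List Bool) : List Bool :=
  if (unpair u).2.length < (unpair u).1.length then
    M.act (pairBits (Y (unpair u).1) (sst M Y (unpair u).1 (unpair u).2)) else []

theorem stp_len (w s : List Bool) (b : Bool) : (stp M Y w s b).length ≤ w.length := by
  unfold stp
  split_ifs with h
  · exact h
  · simp

theorem sst_len (w a : List Bool) : (sst M Y w a).length ≤ w.length := by
  rcases List.eq_nil_or_concat a with rfl | ⟨l, b, rfl⟩
  · simp [sst]
  · unfold sst
    rw [List.concat_eq_append, List.foldl_append]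
    exact stp_len M Y w _ b

omit M Y in
theorem ustep_len' (s : List Bool × List Bool × Bool) :
    (ustep s).1.length + (ustep s).2.1.length ≤ s.1.length + s.2.1.length := by
  obtain ⟨a, l, b⟩ := s
  unfold ustep
  cases b with
  | true => simp
  | false =>
    match l with
    | [] => simp
    | true :: [] => simp
    | true :: c :: l' => simp; omega
    | false :: l' => simp

omit M Y in
theorem ustep_iter_len' : ∀ (k : ℕ) (s : List Bool × List Bool × Bool),
    (ustep^[k] s).1.length + (ustep^[k] s).2.1.length ≤ s.1.length + s.2.1.length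
  | 0, s => le_refl _
  | k + 1, s => by
    rw [Function.iterate_succ_apply]
    exact (ustep_iter_len' k _).trans (ustep_len' s)

omit M Y in
theorem unpair_fst_len (y : List Bool) : (unpair y).1.length ≤ y.length := by
  have h := ustep_iter_len' y.length ([], y, false)
  unfold unpair
  rw [List.length_reverse]
  simp only [List.length_nil, zero_add] at h
  omega

theorem poly_sD {Y : List Bool → List Bool} (hY : Poly Y) : Poly (sD M Y) := by
  have h1 : Poly (fun u : List Bool => (unpair u).1) := Poly.fst poly_unpair
  have h2 : Poly (fun u : List Bool => (unpair u).2) := Poly.snd poly_unpair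
  have h3 : Poly (fun u : List Bool => sst M Y (unpair u).1 (unpair u).2) := by
    refine Poly.foldl (F := fun u s b => stp M Y (unpair u).1 s b) h2
      (Pool.Agent.NPC.Poly.const []) ?_ (4 * Polynomial.X + 1) ?_
    · have h4 : Poly (fun p : List Bool × List Bool × Bool =>
          M.next (pairBits (Y (unpair p.1).1) (p.2.2 :: p.2.1))) :=
        (poly_of_polyTime M.next_poly).comp (poly_pairBits
          ((hY.comp h1).comp (Poly.fst Poly.id))
          (Poly.cons (Poly.snd (Poly.snd Poly.id)) (Poly.fst (Poly.snd Poly.id))))
      exact Poly.ite (Poly.decide_le (Poly.length h4)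
        (Poly.length (h1.comp (Poly.fst Poly.id)))) h4 (Pool.Agent.NPC.Poly.const [])
    · intro u k _
      have h5 := sst_len M Y (unpair u).1 ((unpair u).2.take k)
      have h6 := sz_listBool_le (sst M Y (unpair u).1 ((unpair u).2.take k))
      have h7 := unpair_fst_len u
      have h8 := length_lt_sz u
      have h9 : (4 * Polynomial.X + 1 : Polynomial ℕ).eval (sz u) = 4 * sz u + 1 := by simp
      rw [h9]
      change sz (sst M Y (unpair u).1 ((unpair u).2.take k)) ≤ _
      omega
  exact Poly.ite (Poly.decide_lt (Poly.length h2) (Poly.length h1))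
    ((poly_of_polyTime M.act_poly).comp (poly_pairBits (hY.comp h1) h3))
    (Pool.Agent.NPC.Poly.const [])

/-- the algorithm -/
noncomputable def sAlg {Y : List Bool → List Bool} (hY : Poly Y) : Alg :=
  ⟨sD M Y, polyTime_of_poly_list (poly_sD M hY), Polynomial.X + 1⟩

theorem sD_pair (w a : List Bool) : sD M Y (pairBits w a) =
    if a.length < w.length then M.act (pairBits (Y w) (sst M Y w a)) else [] := by
  unfold sD
  rw [unpair_pairBits]

theorem run_ne {Y : List Bool → List Bool} (hY : Poly Y) (A : Oracle) (w : List Bool) :
    ∀ (n : ℕ) (a : List Bool), a.length ≤ w.length → w.length + 1 ≤ a.length + n →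
      (sAlg M hY).run A w n a ≠ none := by
  intro n
  induction n with
  | zero => intro a h1 h2; omega
  | succ n ih =>
    intro a h1 h2
    rw [Alg.run]
    change (match sD M Y (pairBits w a) with
      | [] => some []
      | true :: z => some z
      | false :: q => (sAlg M hY).run A w n (a ++ [A q])) ≠ none
    rw [sD_pair]
    by_cases h : a.length < w.length
    · rw [if_pos h]
      rcases M.act (pairBits (Y w) (sst M Y w a)) with _ | ⟨c, q⟩
      · simp
      · cases c
        · simp only
          apply ih
          · simp; omega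
          · simp; omega
        · simp
    · rw [if_neg h]
      simp

theorem isP_run {Y : List Bool → List Bool} (hY : Poly Y) (A : Oracle) :
    IsP A {w | (sAlg M hY).out A w = some [true]} := by
  refine ⟨fun w => ((sAlg M hY).out A w).getD [], ⟨sAlg M hY, fun w => ?_⟩, fun w => ?_⟩
  · have h1 : (sAlg M hY).out A w ≠ none := by
      unfold Alg.out
      apply run_ne
      · simp
      · have : (sAlg M hY).p.eval w.length = w.length + 1 := by simp [sAlg]
        rw [this]
        simp
    obtain ⟨z, hz⟩ := Option.ne_none_iff_exists'.1 h1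
    simp only [hz, Option.getD_some]
  · have h1 : (sAlg M hY).out A w ≠ none := by
      unfold Alg.out
      apply run_ne
      · simp
      · have : (sAlg M hY).p.eval w.length = w.length + 1 := by simp [sAlg]
        rw [this]
        simp
    obtain ⟨z, hz⟩ := Option.ne_none_iff_exists'.1 h1
    rw [Set.mem_ofPred_eq]
    simp only [hz, Option.getD_some, Option.some.injEq]

/-- one round of the algorithm with memory -/
def rnd (A : Oracle) (y s : List Bool) : List Bool :=
  match M.act (pairBits y s) with
  | false :: q => M.next (pairBits y (A q :: s))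
  | _ => s

theorem rnd_false {A : Oracle} {y s q : List Bool} (h : M.act (pairBits y s) = false :: q) :
    rnd M A y s = M.next (pairBits y (A q :: s)) := by
  unfold rnd
  rw [h]

theorem rnd_stop {A : Oracle} {y s : List Bool} (h : ∀ q, M.act (pairBits y s) ≠ false :: q) :
    rnd M A y s = s := by
  unfold rnd
  split
  · rename_i q hq
    exact absurd hq (h q)
  · rfl

theorem reach_iter {A : Oracle} {y s : List Bool} (h : M.Reach A y s) :
    ∃ k, (rnd M A y)^[k] [] = s := by
  induction h with
  | start => exact ⟨0, rfl⟩
  | @step s q _ h1 ih =>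
    obtain ⟨k, hk⟩ := ih
    refine ⟨k + 1, ?_⟩
    rw [Function.iterate_succ_apply', hk, rnd_false M h1]

theorem iter_reach (A : Oracle) (y : List Bool) (k : ℕ) : M.Reach A y ((rnd M A y)^[k] []) := by
  induction k with
  | zero => exact SAlg.Reach.start
  | succ k ih =>
    rw [Function.iterate_succ_apply']
    by_cases h : ∃ q, M.act (pairBits y ((rnd M A y)^[k] [])) = false :: q
    · obtain ⟨q, hq⟩ := h
      rw [rnd_false M hq]
      exact ih.step hq
    · push Not at h
      rw [rnd_stop M h]
      exact ih

/-- the algorithm stops after a small number of rounds -/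
theorem stop_time {A : Oracle} {y : List Bool} {P : ℕ} (hP : ∀ s, M.Reach A y s → s.length ≤ P)
    {s z : List Bool} (hs : M.Reach A y s) (hz : M.act (pairBits y s) = true :: z) :
    ∃ k < 2 ^ (P + 1), M.act (pairBits y ((rnd M A y)^[k] [])) = true :: z ∧
      ∀ j < k, ∃ q, M.act (pairBits y ((rnd M A y)^[j] [])) = false :: q := by
  classical
  have hex : ∃ k, ∀ q, M.act (pairBits y ((rnd M A y)^[k] [])) ≠ false :: q := by
    obtain ⟨k, hk⟩ := reach_iter M hs
    exact ⟨k, fun q => by rw [hk, hz]; simp⟩
  set k := Nat.find hex with hk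
  have hk1 : ∀ q, M.act (pairBits y ((rnd M A y)^[k] [])) ≠ false :: q := Nat.find_spec hex
  have hk2 : ∀ j < k, ∃ q, M.act (pairBits y ((rnd M A y)^[j] [])) = false :: q := by
    intro j hj
    have := Nat.find_min hex hj
    push Not at this
    exact this
  have hstay : ∀ d, (rnd M A y)^[k + d] [] = (rnd M A y)^[k] [] := by
    intro d
    induction d with
    | zero => rfl
    | succ d ih =>
      rw [← add_assoc, Function.iterate_succ_apply', ih, rnd_stop M hk1]
  have hact : M.act (pairBits y ((rnd M A y)^[k] [])) = true :: z := by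
    obtain ⟨T, hT⟩ := reach_iter M hs
    have hkT : k ≤ T := by
      by_contra hcon
      push Not at hcon
      obtain ⟨q, hq⟩ := hk2 T hcon
      rw [hT, hz] at hq
      simp at hq
    obtain ⟨d, rfl⟩ := Nat.exists_eq_add_of_le hkT
    rw [hstay] at hT
    rw [hT, hz]
  refine ⟨k, ?_, hact, hk2⟩
  -- the contents are different
  have hinj : Set.InjOn (fun j => idx ((rnd M A y)^[j] [])) (Finset.range (k + 1)) := by
    have key : ∀ a b, a < b → b ≤ k → (rnd M A y)^[a] [] ≠ (rnd M A y)^[b] [] := by
      intro a b hab hbk h
      have h1 : (rnd M A y)^[a + (k - b)] [] = (rnd M A y)^[k] [] := by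
        rw [add_comm, Function.iterate_add_apply, h, ← Function.iterate_add_apply]
        congr 1
        omega
      obtain ⟨q, hq⟩ := hk2 (a + (k - b)) (by omega)
      rw [h1] at hq
      exact hk1 q hq
    intro a ha b hb h
    rw [Finset.mem_coe, Finset.mem_range] at ha hb
    have h1 : (rnd M A y)^[a] [] = (rnd M A y)^[b] [] := by
      have := congrArg str h
      simpa [str_idx] using this
    rcases lt_trichotomy a b with h2 | h2 | h2
    · exact absurd h1 (key a b h2 (by omega))
    · exact h2
    · exact absurd h1.symm (key b a h2 (by omega))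
  have hcard := Finset.card_le_card_of_injOn (s := Finset.range (k + 1))
    (t := Finset.range (2 ^ (P + 1))) _ (by
      intro j _
      rw [Finset.mem_coe, Finset.mem_range]
      have h1 := idx_lt ((rnd M A y)^[j] [])
      have h2 := hP _ (iter_reach M A y j)
      have h3 : 2 ^ (((rnd M A y)^[j] []).length + 1) ≤ 2 ^ (P + 1) :=
        Nat.pow_le_pow_right (by norm_num) (by omega)
      show idx _ < _
      omega) hinj
  rw [Finset.card_range, Finset.card_range] at hcard
  omega

theorem run_eq {Y : List Bool → List Bool} (hY : Poly Y) (A : Oracle) (w : List Bool) {P k₀ : ℕ}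
    (hP : ∀ s, M.Reach A (Y w) s → s.length ≤ P) (hPw : P ≤ w.length) (hk₀ : k₀ < w.length)
    {z : List Bool}
    (hz : M.act (pairBits (Y w) ((rnd M A (Y w))^[k₀] [])) = true :: z)
    (hlt : ∀ j < k₀, ∃ q, M.act (pairBits (Y w) ((rnd M A (Y w))^[j] [])) = false :: q) :
    ∀ (n k m : ℕ) (a : List Bool), k + n = k₀ → a.length = k →
      sst M Y w a = (rnd M A (Y w))^[k] [] → (sAlg M hY).run A w (n + m + 1) a = some z := by
  intro n
  induction n with
  | zero =>
    intro k m a h1 h2 h3
    rw [Alg.run]
    change (match sD M Y (pairBits w a) with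
      | [] => some []
      | true :: z => some z
      | false :: q => (sAlg M hY).run A w (0 + m) (a ++ [A q])) = some z
    have hk : k = k₀ := by omega
    rw [sD_pair, if_pos (by omega), h3, hk, hz]
  | succ n ih =>
    intro k m a h1 h2 h3
    have e : n + 1 + m + 1 = (n + m + 1) + 1 := by ring
    rw [e, Alg.run]
    change (match sD M Y (pairBits w a) with
      | [] => some []
      | true :: z => some z
      | false :: q => (sAlg M hY).run A w (n + m + 1) (a ++ [A q])) = some z
    obtain ⟨q, hq⟩ := hlt k (by omega)
    rw [sD_pair, if_pos (by omega), h3, hq]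
    refine ih (k + 1) m (a ++ [A q]) (by omega) (by simp [h2]) ?_
    rw [Function.iterate_succ_apply', rnd_false M hq]
    unfold sst
    rw [List.foldl_append]
    change stp M Y w (sst M Y w a) (A q) = _
    rw [h3]
    unfold stp
    rw [if_pos]
    have h4 := hP _ ((iter_reach M A (Y w) k).step hq)
    omega

end

/-- Space `2_i^POL` is contained in time `2_{i+1}^POL`. -/
theorem IsSpace.isTime {i : ℕ} {A : Oracle} {L : Set (List Bool)} (h : IsSpace i A L) :
    IsTime (i + 1) A L := by
  obtain ⟨q, L', ⟨M, p, hM⟩, hx⟩ := h
  obtain ⟨r, hr⟩ := absorb i (p.comp (3 * Polynomial.X + 1) + Polynomial.X + 2)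
    (Polynomial.X + q)
  set Y : List Bool → List Bool := fun w => pairBits (unpair w).1
    (ones (ctow w.length i (q.eval (unpair w).1.length))) with hY
  have hYp : Poly Y := by
    have h1 : Poly (fun z : List Bool => (unpair z).1) := Poly.fst poly_unpair
    exact poly_pairBits h1 (poly_repl (upoly_ctow (UPoly.length Poly.id)
      ((UPoly.length h1).eval q).toPoly i) true)
  refine ⟨r, _, isP_run M hYp A, fun x => ?_⟩
  rw [hx x, Set.mem_ofPred_eq]
  set n := x.length with hn
  set w := pairBits x (ones (tow (i + 1) (r.eval n))) with hw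
  have hwlen : w.length = 2 * n + 1 + 2 ^ tow i (r.eval n) := by
    rw [hw, length_pairBits]
    unfold ones
    rw [List.length_replicate]
    rfl
  have hrn := hr n
  have e1 : (Polynomial.X + q).eval n = n + q.eval n := by simp
  rw [e1] at hrn
  set τ := tow i (n + q.eval n) with hτ
  have e2 : (p.comp (3 * Polynomial.X + 1) + Polynomial.X + 2).eval τ =
      p.eval (3 * τ + 1) + τ + 2 := by simp [Polynomial.eval_comp]
  rw [e2] at hrn
  have hτ1 : n ≤ τ := le_trans (by omega) (le_tow i _)
  have hτ2 : tow i (q.eval n) ≤ τ := tow_mono i (by omega)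
  have h2lt : tow i (r.eval n) < 2 ^ tow i (r.eval n) := Nat.lt_two_pow_self
  have hYw : Y w = pairBits x (ones (tow i (q.eval n))) := by
    rw [hY]
    simp only
    rw [hw, unpair_pairBits, ← hw]
    rw [ctow_eq]
    show tow i (q.eval n) ≤ w.length
    omega
  rw [← hYw]
  obtain ⟨hP, s, z, hs, hz, hz'⟩ := hM (Y w)
  obtain ⟨k, hk, hk1, hk2⟩ := stop_time M hP hs hz
  have hPle : p.eval (Y w).length ≤ p.eval (3 * τ + 1) := by
    apply eval_mono
    rw [hYw, length_pairBits]
    unfold ones
    rw [List.length_replicate]
    omega
  have hkw : k < w.length := by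
    have h5 : 2 ^ (p.eval (Y w).length + 1) ≤ 2 ^ tow i (r.eval n) :=
      Nat.pow_le_pow_right (by norm_num) (by omega)
    omega
  have hrun := run_eq M hYp A w hP (by omega) hkw hk1 hk2 k 0 (w.length - k) [] (by omega) rfl rfl
  have hout : (sAlg M hYp).out A w = some z := by
    unfold Alg.out
    have : (sAlg M hYp).p.eval w.length = k + (w.length - k) + 1 := by
      have h6 : (sAlg M hYp).p.eval w.length = w.length + 1 := by simp [sAlg]
      omega
    rw [this]
    exact hrun
  rw [hout, hz']
  simp

end H529R3.Lev
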