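import Pool.Agent.H529R3.Lev.MainE
import Pool.Agent.H529R3.Lev.SpaceTime

/-! A collapse is inherited by the higher levels; the oracles with some collapse. -/

set_option autoImplicit false

namespace H529R3.Lev

open Pool.Agent.NPC Pool.Agent.H622R2 Pool.Agent.H620R2.Gauge Filter

/-- closed under polynomial time precomputation -/
def Pre (C : Set (List Bool) → Prop) : Prop :=
  ∀ (L : Set (List Bool)) (g : List Bool → List Bool), C L → Poly g → C {y | g y ∈ L}

theorem pre_P (A : Oracle) : Pre (IsP A) := by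
  rintro L g ⟨V, hV, hL⟩ hg
  exact ⟨fun y => V (g y), hV.precomp hg, fun y => hL (g y)⟩

theorem pre_PSPACE (A : Oracle) : Pre (IsPSPACE A) := fun _ _ h hg => h.precomp hg

theorem lift {C D : Set (List Bool) → Prop} (hC : Pre C) (hD : Pre D) {a b : ℕ}
    (h : ∀ L, Padded a C L → Padded b D L) :
    ∀ L, Padded (a + 1) C L → Padded (b + 1) D L := by
  rintro L ⟨p, L', hL', hx⟩
  have u1 : Poly (fun y : List Bool => unpair y) := poly_unpair
  have u2 : Poly (fun y : List Bool => unpair (unpair y).1) := poly_unpair.comp (Poly.fst u1)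
  -- first step
  set L1 : Set (List Bool) :=
    {w | pairBits (unpair w).1 (ones (tow a (unpair w).2.length)) ∈ L'} with hL1
  have h1 : Padded a C L1 := by
    refine ⟨Polynomial.X, {y | pairBits (unpair (unpair y).1).1
      (ones (ctow (unpair y).2.length a (unpair (unpair y).1).2.length)) ∈ L'},
      hC L' _ hL' ?_, fun w => ?_⟩
    · exact poly_pairBits (Poly.fst u2) (poly_repl (upoly_ctow (UPoly.length (Poly.snd u1))
        (Poly.length (Poly.snd u2)) a) true)
    · rw [Polynomial.eval_X, hL1, Set.mem_ofPred_eq, Set.mem_ofPred_eq, unpair_pairBits]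
      simp only
      rw [ctow_eq]
      unfold ones
      rw [List.length_replicate]
      exact tow_mono a (V8.unpair_snd_len w)
  obtain ⟨q, L2, hL2, hw⟩ := h L1 h1
  obtain ⟨r, hr⟩ := absorb 1 (q.comp (3 * Polynomial.X + 1) + Polynomial.X) (Polynomial.X + p)
  set G : List Bool → List Bool := fun v =>
    pairBits (pairBits (unpair v).1
      (ones (ctow (unpair v).2.length 1 (p.eval (unpair v).1.length))))
      (ones (ctow (unpair v).2.length b (q.eval (2 * (unpair v).1.length + 1 +
        ctow (unpair v).2.length 1 (p.eval (unpair v).1.length))))) with hG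
  have hGp : Poly G := by
    have c1 : UPoly (fun v : List Bool => (unpair v).2.length) := UPoly.length (Poly.snd u1)
    have x1 : UPoly (fun v : List Bool => (unpair v).1.length) := UPoly.length (Poly.fst u1)
    have c2 : UPoly (fun v : List Bool =>
        ctow (unpair v).2.length 1 (p.eval (unpair v).1.length)) :=
      upoly_ctow c1 (x1.eval p).toPoly 1
    have c3 : UPoly (fun v : List Bool => 2 * (unpair v).1.length + 1 +
        ctow (unpair v).2.length 1 (p.eval (unpair v).1.length)) :=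
      (((UPoly.const 2).mul x1).add (UPoly.const 1)).add c2
    exact poly_pairBits (poly_pairBits (Poly.fst u1) (poly_repl c2 true))
      (poly_repl (upoly_ctow c1 (c3.eval q).toPoly b) true)
  refine ⟨r, {v | G v ∈ L2}, hD L2 G hL2 hGp, fun x => ?_⟩
  set n := x.length with hn
  have hrn := hr n
  have e1 : (Polynomial.X + p).eval n = n + p.eval n := by simp
  rw [e1] at hrn
  have e2 : (q.comp (3 * Polynomial.X + 1) + Polynomial.X).eval (tow 1 (n + p.eval n)) =
      q.eval (3 * tow 1 (n + p.eval n) + 1) + tow 1 (n + p.eval n) := by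
    simp [Polynomial.eval_comp]
  rw [e2] at hrn
  have hp1 : tow 1 (p.eval n) ≤ tow 1 (n + p.eval n) := tow_mono 1 (by omega)
  have hn1 : n ≤ tow 1 (n + p.eval n) := le_trans (by omega) (le_tow 1 _)
  have hq1 : q.eval (2 * n + 1 + tow 1 (p.eval n)) ≤ q.eval (3 * tow 1 (n + p.eval n) + 1) :=
    eval_mono _ (by omega)
  have hb : tow (b + 1) (r.eval n) = tow b (tow 1 (r.eval n)) := tow_succ' b _
  set w := pairBits x (ones (tow 1 (p.eval n))) with hwdef
  have hwlen : w.length = 2 * n + 1 + tow 1 (p.eval n) := by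
    rw [hwdef, length_pairBits]
    unfold ones
    rw [List.length_replicate]
  have h2 : x ∈ L ↔ w ∈ L1 := by
    rw [hx x, hL1, Set.mem_ofPred_eq, hwdef, unpair_pairBits]
    simp only
    have e3 : (ones (tow 1 (p.eval n))).length = tow 1 (p.eval n) := by
      unfold ones
      rw [List.length_replicate]
    rw [e3]
    have e4 : tow (a + 1) (p.eval n) = tow a (tow 1 (p.eval n)) := tow_succ' a _
    rw [← e4]
  rw [h2, hw w, hwlen, Set.mem_ofPred_eq]
  have h3 : G (pairBits x (ones (tow (b + 1) (r.eval n)))) =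
      pairBits w (ones (tow b (q.eval (2 * n + 1 + tow 1 (p.eval n))))) := by
    rw [hG]
    simp only [unpair_pairBits]
    have e5 : (ones (tow (b + 1) (r.eval n))).length = tow (b + 1) (r.eval n) := by
      unfold ones
      rw [List.length_replicate]
    rw [e5, ← hn, ctow_eq 1, ctow_eq b]
    · rw [hb]
      exact tow_mono b (by omega)
    · rw [hb]
      exact le_trans (by omega) (le_tow b _)
  rw [h3]

theorem lift_odd {A : Oracle} {i : ℕ} (h : ∀ L, IsTime i A L ↔ IsSpace i A L) :
    ∀ L, IsTime (i + 1) A L ↔ IsSpace (i + 1) A L := fun L =>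
  ⟨fun h1 => h1.isSpace, lift (pre_PSPACE A) (pre_P A) (fun L h1 => (h L).2 h1) L⟩

theorem lift_even {A : Oracle} {i : ℕ} (h : ∀ L, IsSpace i A L ↔ IsTime (i + 1) A L) :
    ∀ L, IsSpace (i + 1) A L ↔ IsTime (i + 2) A L := fun L =>
  ⟨fun h1 => h1.isTime, lift (pre_P A) (pre_PSPACE A) (fun L h1 => (h L).2 h1) L⟩

theorem lift_odd' {A : Oracle} {i : ℕ} (h : ∀ L, IsTime i A L ↔ IsSpace i A L) {j : ℕ}
    (hj : i ≤ j) : ∀ L, IsTime j A L ↔ IsSpace j A L := by
  induction j, hj using Nat.le_induction with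
  | base => exact h
  | succ j _ ih => exact lift_odd ih

theorem lift_even' {A : Oracle} {i : ℕ} (h : ∀ L, IsSpace i A L ↔ IsTime (i + 1) A L) {j : ℕ}
    (hj : i ≤ j) : ∀ L, IsSpace j A L ↔ IsTime (j + 1) A L := by
  induction j, hj using Nat.le_induction with
  | base => exact h
  | succ j _ ih => exact lift_even ih

theorem dichotomy (A : Oracle) :
    (∀ i, (¬ ∀ L, IsTime i A L ↔ IsSpace i A L) ∧ ¬ ∀ L, IsSpace i A L ↔ IsTime (i + 1) A L) ∨
    (∃ i, ∀ j ≥ i, ∀ L, IsTime j A L ↔ IsSpace j A L) ∨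
    ∃ i, ∀ j ≥ i, ∀ L, IsSpace j A L ↔ IsTime (j + 1) A L := by
  by_cases h1 : ∃ i, ∀ L, IsTime i A L ↔ IsSpace i A L
  · obtain ⟨i, hi⟩ := h1
    exact Or.inr (Or.inl ⟨i, fun j hj => lift_odd' hi hj⟩)
  · by_cases h2 : ∃ i, ∀ L, IsSpace i A L ↔ IsTime (i + 1) A L
    · obtain ⟨i, hi⟩ := h2
      exact Or.inr (Or.inr ⟨i, fun j hj => lift_even' hi hj⟩)
    · left
      intro i
      exact ⟨fun h => h1 ⟨i, h⟩, fun h => h2 ⟨i, h⟩⟩

/-- The oracles with some collapse. -/
theorem exact_some (f : ℕ → ℝ) (O : Set Oracle)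
    (h1 : ∀ m, (∀ A : Oracle, (∀ L, IsSpace m A L → ReducesTime m A L) → A ∈ O) ∨
      ∀ A : Oracle, (∀ L, IsTime (m + 1) A L → ReducesPar m A L) → A ∈ O)
    (h2 : ∀ A ∈ O, ∃ i, (∀ L, IsSpace i A L → IsTHpoly i A L) ∨
      ∀ L, IsTime (i + 1) A L → IsSpacePoly i A L) :
    Null f O ↔ ∀ m, Cond m f := by
  constructor
  · intro hn m
    rcases h1 m with h3 | h3
    · refine (exact_level m f {A : Oracle | ∀ L, IsSpace m A L → ReducesTime m A L}
        (fun A hA _ => hA) (fun A hA L hL => (hA L hL).isTime.isTH.isTHpoly)).1 (hn.mono ?_)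
      exact fun A hA => h3 A hA
    · refine (exact_even m f {A : Oracle | ∀ L, IsTime (m + 1) A L → ReducesPar m A L}
        (fun A hA _ => hA) (fun A hA L hL => (hA L hL).isSpace.isSpacePoly)).1 (hn.mono ?_)
      exact fun A hA => h3 A hA
  · intro hf
    have hU : Null f (⋃ i : ℕ, ({A : Oracle | ∀ L, IsSpace i A L → IsTHpoly i A L} ∪
        {A : Oracle | ∀ L, IsTime (i + 1) A L → IsSpacePoly i A L})) :=
      null_iUnion _ fun i =>
        null_union (null_level i f (hf i) _ fun A hA => hA _ (test_space i A))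
          (null_even i f (hf i) _ fun A hA => hA _ (far_reduces i A).isTime)
    refine hU.mono fun A hA => ?_
    obtain ⟨i, hi⟩ := h2 A hA
    exact Set.mem_iUnion.2 ⟨i, hi⟩

end H529R3.Lev
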