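import Pool.Agent.H529R3.Lev.FarTime
import Pool.Agent.H529R3.Lev.CodingE

/-! The exact gauge size of the oracles for which `SPACE 2_m^POL = TIME 2_{m+1}^POL`. -/

set_option autoImplicit false

namespace H529R3.Lev

open Pool.Agent.NPC Pool.Agent.H622R2 Pool.Agent.H620R2.Gauge Filter

/-- `SPACE 2_i^POL` relative to `A`, with polynomial advice. -/
def IsSpacePoly (i : ℕ) (A : Oracle) (L : Set (List Bool)) : Prop :=
  PaddedAdvice i (IsPSPACE A) L

theorem IsSpace.isSpacePoly {i : ℕ} {A : Oracle} {L : Set (List Bool)} (h : IsSpace i A L) :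
    IsSpacePoly i A L := by
  obtain ⟨p, L', hL', hx⟩ := h
  refine ⟨p, 0, fun _ => [], {y | strip y ∈ L'}, hL'.precomp poly_strip, fun n => by simp,
    fun x => ?_⟩
  rw [hx x]
  show _ ↔ strip _ ∈ L'
  unfold strip
  simp only [unpair_pairBits]

/-- The main theorem for the levels `SPACE 2_m^POL` and `TIME 2_{m+1}^POL`. -/
theorem exact_even (m : ℕ) (f : ℕ → ℝ) (O : Set Oracle)
    (h1 : ∀ A : Oracle, (∀ L, IsTime (m + 1) A L → ReducesPar m A L) →
      (∀ i < m, (∃ L, IsSpace i A L ∧ ¬ IsTHpoly i A L) ∧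
        ∃ L, IsTime (i + 1) A L ∧ ¬ IsSpacePoly i A L) → A ∈ O)
    (h2 : ∀ A ∈ O, ∀ L, IsTime (m + 1) A L → IsSpacePoly m A L) :
    Null f O ↔ Cond m f := by
  constructor
  · intro hn
    by_contra hcon
    unfold Cond at hcon
    push Not at hcon
    obtain ⟨ε, hε, hf⟩ := hcon
    set F : ℕ → ℝ := fun N => 2 ^ ((Real.logb 2)^[m + 1] (N : ℝ)) ^ ε with hF
    set g : ℕ → ℝ := fun N => min (f N) (F N) with hg
    have hgO : Null g O := null_anti (fun N => min_le_left _ _) hn
    have hC : ∀ i < m, Cond i g := by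
      intro i hi ε' hε'
      apply Eventually.frequently
      obtain ⟨j, rfl⟩ : ∃ j, m = i + (j + 1) := ⟨m - i - 1, by omega⟩
      filter_upwards [(tendsto_iter (i + 1)).eventually (iter_rpow j hε hε')] with N hN
      refine (min_le_right _ _).trans ?_
      rw [hF]
      apply Real.rpow_le_rpow_of_exponent_le (by norm_num)
      rw [← Function.iterate_add_apply] at hN
      have e : j + 1 + (i + 1) = i + (j + 1) + 1 := by ring
      rw [e] at hN
      exact hN
    have hE : ∀ i < m, Null g ({A : Oracle | ∀ L, IsSpace i A L → IsTHpoly i A L} ∪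
        {A : Oracle | ∀ L, IsTime (i + 1) A L → IsSpacePoly i A L}) := by
      intro i hi
      exact null_union (null_level i g (hC i hi) _ fun A hA => hA _ (test_space i A))
        (null_even i g (hC i hi) _ fun A hA => hA _ (far_reduces i A).isTime)
    have hU : Null g (O ∪ ⋃ i : Fin m, ({A : Oracle | ∀ L, IsSpace i A L → IsTHpoly i A L} ∪
        {A : Oracle | ∀ L, IsTime (i + 1) A L → IsSpacePoly i A L})) :=
      null_union hgO (null_iUnion _ fun i => hE i i.2)
    refine not_null_even m g (ε / 2) (by positivity) ?_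
      {A : Oracle | ∀ L, IsTime (m + 1) A L → ReducesPar m A L} (fun A hA => hA) (hU.mono ?_)
    · filter_upwards [hf, (tendsto_iter (m + 1)).eventually_gt_atTop 1] with N hN hN1
      have h3 : (2 : ℝ) ^ ((Real.logb 2)^[m + 1] (N : ℝ)) ^ (ε / 2) < F N := by
        rw [hF]
        apply Real.rpow_lt_rpow_of_exponent_lt (by norm_num)
        exact Real.rpow_lt_rpow_of_exponent_lt hN1 (by linarith)
      exact lt_min (h3.trans hN) h3
    · intro A hA
      by_cases hex : ∀ i < m, (∃ L, IsSpace i A L ∧ ¬ IsTHpoly i A L) ∧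
        ∃ L, IsTime (i + 1) A L ∧ ¬ IsSpacePoly i A L
      · exact Or.inl (h1 A hA hex)
      · right
        push Not at hex
        obtain ⟨i, hi, h3⟩ := hex
        refine Set.mem_iUnion.2 ⟨⟨i, hi⟩, ?_⟩
        by_cases h4 : ∃ L, IsSpace i A L ∧ ¬ IsTHpoly i A L
        · exact Or.inr (h3 h4)
        · left
          push Not at h4
          exact h4
  · intro hf
    exact null_even m f hf O fun A hA => h2 A hA _ (far_reduces m A).isTime

end H529R3.Lev
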