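import Pool.Agent.H529R3.Lev.ParC
import Pool.Agent.H529R3.Lev.Compact

/-! The mass distribution on the oracles that satisfy all parity constraints. -/

set_option autoImplicit false

namespace H529R3.Lev

open Pool.Agent.NPC Pool.Agent.H620R2.Gauge Finset

theorem con_local (i : ℕ) (g : ℕ → Alg × Polynomial ℕ) (R : ℕ → ℕ → ℕ) (j : ℕ × List Bool) :
    ∃ ℓ : ℕ, ∀ A B : Oracle, (∀ q : List Bool, q.length ≤ ℓ → A q = B q) →
      (con i g R j A ↔ con i g R j B) := by
  obtain ⟨ℓ, hℓ⟩ := out_congr (g j.1).1
    (pairBits j.2 (ones (tow i ((g j.1).2.eval j.2.length))))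
  refine ⟨ℓ + 2 * (codeL R j.1 j.2).length, fun A B h => ?_⟩
  have h1 := hℓ B A fun q hq => h q (by omega)
  have h2 : codeL R j.1 j.2 ∈ parLang A ↔ codeL R j.1 j.2 ∈ parLang B := by
    set y := codeL R j.1 j.2 with hy
    unfold parLang
    rw [Set.mem_ofPred_eq, Set.mem_ofPred_eq]
    have h3 : (Finset.range (2 ^ y.length)).filter (fun j => A (y ++ bitsOf y.length j) = true) =
        (Finset.range (2 ^ y.length)).filter (fun j => B (y ++ bitsOf y.length j) = true) := by
      apply Finset.filter_congr
      intro j _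
      rw [h]
      rw [List.length_append, length_bitsOf]
      omega
    rw [h3]
  unfold con AccP
  rw [h1, h2]

open Classical in
theorem card_prefix (N : ℕ) (σ : List Bool) (hσ : σ.length ≤ N) :
    (univ.filter (fun a : Fin N → Bool => Extends (orc N a) σ)).card ≤ 2 ^ (N - σ.length) := by
  have h1 : (univ : Finset (Fin (N - σ.length) → Bool)).card = 2 ^ (N - σ.length) := by
    simp
  rw [← h1]
  apply Finset.card_le_card_of_injOn
    (fun a => fun i : Fin (N - σ.length) => a ⟨i.val + σ.length, by omega⟩)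
  · intro a _
    simp
  · intro a ha b hb hab
    rw [Finset.mem_coe, Finset.mem_filter] at ha hb
    funext i
    by_cases hi : i.val < σ.length
    · have h2 := ha.2 i.val hi
      have h3 := hb.2 i.val hi
      have h4 : ∀ c : Fin N → Bool, orc N c (str i.val) = c i := by
        intro c
        unfold orc
        rw [dif_pos (by rw [idx_str]; exact i.2)]
        congr 1
        apply Fin.ext
        simp [idx_str]
      rw [h4] at h2 h3
      rw [h2, h3]
    · have h2 := congrFun hab ⟨i.val - σ.length, by omega⟩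
      simp only at h2
      have h3 : (⟨i.val - σ.length + σ.length, by omega⟩ : Fin N) = i := by
        apply Fin.ext
        simp
        omega
      rwa [h3] at h2

theorem extends_flip {N : ℕ} {σ : List Bool} {w : Fin N} (hw : σ.length ≤ w.val)
    (a : Fin N → Bool) : Extends (orc N (flip w a)) σ ↔ Extends (orc N a) σ := by
  unfold Extends
  refine forall_congr' fun i => forall_congr' fun hi => ?_
  have h1 : orc N (flip w a) (str i) = orc N a (str i) := by
    unfold orc
    by_cases hlt : idx (str i) < N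
    · rw [dif_pos hlt, dif_pos hlt]
      apply flip_ne
      intro h
      have h2 := congrArg Fin.val h
      simp only [idx_str] at h2
      omega
    · rw [dif_neg hlt, dif_neg hlt]
  rw [h1]

open Classical in
theorem massE (i : ℕ) (g : ℕ → Alg × Polynomial ℕ) (R : ℕ → ℕ → ℕ)
    (hT : ∀ e n, rds i (g e) n * 8 ^ (n + e + 1) ≤ 2 ^ R e n)
    (S : Set (List Bool)) (hS : ∀ A, (∀ j, con i g R j A) → ∃ σ ∈ S, Extends A σ) :
    1 ≤ ∑' σ : S, ENNReal.ofReal
      (2 ^ ((((Finset.range σ.1.length).filter (fun i => str i ∈ {y | ∃ e x, y = codeL R e x})).card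
        : ℝ) - (σ.1.length : ℝ))) := by
  obtain ⟨J, T, hTS, hcov⟩ := compact_cover S (con i g R) (con_local i g R) hS
  set N := J.sup (fun j => 2 ^ (2 * (codeL R j.1 j.2).length + 1)) + T.sup List.length with hN
  have hNJ : ∀ j ∈ J, 2 ^ (2 * (codeL R j.1 j.2).length + 1) ≤ N + 1 := by
    intro j hj
    have h1 : 2 ^ (2 * (codeL R j.1 j.2).length + 1) ≤
        J.sup (fun j => 2 ^ (2 * (codeL R j.1 j.2).length + 1)) :=
      Finset.le_sup (f := fun j : ℕ × List Bool => 2 ^ (2 * (codeL R j.1 j.2).length + 1)) hj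
    omega
  have hNT : ∀ σ ∈ T, σ.length ≤ N := by
    intro σ hσ
    have h1 := Finset.le_sup (f := List.length) hσ
    omega
  have hK := count i g R hT N J hNJ (fun _ => True) (fun _ _ _ _ _ => Iff.rfl)
  have h0 : (univ.filter (fun _ : Fin N → Bool => True)).card = 2 ^ N := by
    rw [Finset.filter_true_of_mem (fun _ _ => trivial)]
    simp
  have hK' : 2 ^ J.card * (univ.filter (fun a : Fin N → Bool =>
      True ∧ ∀ j ∈ J, con i g R j (orc N a))).card = 2 ^ N := by
    rw [← h0]
    convert hK
  clear hK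
  set K := univ.filter (fun a : Fin N → Bool => True ∧ ∀ j ∈ J, con i g R j (orc N a)) with hKd
  set m : List Bool → ℕ := fun σ =>
    ((Finset.range σ.length).filter (fun i => str i ∈ {y | ∃ e x, y = codeL R e x})).card with hm
  -- each cylinder
  have hσ : ∀ σ ∈ T, ((2 : ℝ) ^ J.card) *
      ((K.filter (fun a => Extends (orc N a) σ)).card : ℝ) ≤
      2 ^ N * 2 ^ ((m σ : ℝ) - (σ.length : ℝ)) := by
    intro σ hσ
    set J' := J.filter (fun j => ∀ w ∈ blk N (codeL R j.1 j.2), σ.length ≤ w.val) with hJ'
    have h1 := count i g R hT N J' (fun j hj => hNJ j (Finset.mem_of_mem_filter j hj))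
      (fun a => Extends (orc N a) σ) (fun j hj a w hw =>
        extends_flip ((Finset.mem_filter.1 hj).2 w hw) a)
    have h2 : (K.filter (fun a => Extends (orc N a) σ)).card ≤
        (univ.filter (fun a : Fin N → Bool => Extends (orc N a) σ ∧
          ∀ j ∈ J', con i g R j (orc N a))).card := by
      apply Finset.card_le_card
      intro a ha
      rw [Finset.mem_filter, hKd, Finset.mem_filter] at ha
      rw [Finset.mem_filter]
      exact ⟨Finset.mem_univ _, ha.2, fun j hj => ha.1.2.2 j (Finset.mem_of_mem_filter j hj)⟩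
    have h3 := card_prefix N σ (hNT σ hσ)
    have h4 : J.card ≤ J'.card + m σ := by
      have h5 : J'.card + (J.filter
          (fun j => ¬ ∀ w ∈ blk N (codeL R j.1 j.2), σ.length ≤ w.val)).card = J.card := by
        rw [hJ']
        convert Finset.card_filter_add_card_filter_not (s := J)
          (fun j => ∀ w ∈ blk N (codeL R j.1 j.2), σ.length ≤ w.val) using 2
      have h6 : (J.filter (fun j => ¬ ∀ w ∈ blk N (codeL R j.1 j.2), σ.length ≤ w.val)).card ≤
          m σ := by
        rw [hm]
        apply Finset.card_le_card_of_injOn (fun j => idx (codeL R j.1 j.2))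
        · intro j hj
          rw [Finset.mem_coe, Finset.mem_filter] at hj
          obtain ⟨_, hj2⟩ := hj
          push Not at hj2
          obtain ⟨w, hw, hwσ⟩ := hj2
          rw [blk, Finset.mem_filter] at hw
          obtain ⟨_, l, _, hl⟩ := hw
          set y := codeL R j.1 j.2 with hy
          have h7 : 1 ≤ y.length := by
            have := lt_length_codeL R j.1 j.2
            rw [← hy] at this
            omega
          have h8 := le_idx (y ++ bitsOf y.length l)
          rw [List.length_append, length_bitsOf, ← hl, idx_str] at h8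
          have h9 := idx_lt y
          have h10 : 2 ^ (y.length + 1) ≤ 2 ^ (y.length + y.length) :=
            Nat.pow_le_pow_right (by norm_num) (by omega)
          rw [Finset.mem_coe, Finset.mem_filter, Finset.mem_range]
          refine ⟨?_, ?_⟩
          · show idx y < σ.length
            omega
          · show str (idx y) ∈ _
            rw [str_idx]
            exact ⟨j.1, j.2, hy⟩
        · intro j _ j' _ h
          have h7 : codeL R j.1 j.2 = codeL R j'.1 j'.2 := by
            rw [← str_idx (codeL R j.1 j.2)]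
            simp only at h
            rw [h, str_idx]
          obtain ⟨h8, h9⟩ := codeL_inj R h7
          exact Prod.ext h8 h9
      omega
    -- numbers
    have h5 : 2 ^ J'.card * (K.filter (fun a => Extends (orc N a) σ)).card ≤
        2 ^ (N - σ.length) := by
      calc 2 ^ J'.card * (K.filter (fun a => Extends (orc N a) σ)).card
          ≤ 2 ^ J'.card * (univ.filter (fun a : Fin N → Bool => Extends (orc N a) σ ∧
          ∀ j ∈ J', con i g R j (orc N a))).card := Nat.mul_le_mul_left _ h2
        _ = _ := h1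
        _ ≤ _ := h3
    have h6 : (2 : ℝ) ^ J'.card * ((K.filter (fun a => Extends (orc N a) σ)).card : ℝ) ≤
        2 ^ (N - σ.length) := by exact_mod_cast h5
    have h7 : (2 : ℝ) ^ (N - σ.length) = 2 ^ N * 2 ^ (-(σ.length : ℝ)) := by
      rw [← Real.rpow_natCast, ← Real.rpow_natCast, ← Real.rpow_add (by norm_num)]
      congr 1
      rw [Nat.cast_sub (hNT σ hσ)]
      ring
    calc ((2 : ℝ) ^ J.card) * ((K.filter (fun a => Extends (orc N a) σ)).card : ℝ)
        ≤ (2 ^ (J'.card + m σ)) * ((K.filter (fun a => Extends (orc N a) σ)).card : ℝ) := by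
          apply mul_le_mul_of_nonneg_right _ (Nat.cast_nonneg _)
          exact pow_le_pow_right₀ (by norm_num) h4
      _ = 2 ^ m σ * ((2 : ℝ) ^ J'.card *
          ((K.filter (fun a => Extends (orc N a) σ)).card : ℝ)) := by
          rw [pow_add]; ring
      _ ≤ 2 ^ m σ * 2 ^ (N - σ.length) := mul_le_mul_of_nonneg_left h6 (by positivity)
      _ = 2 ^ N * 2 ^ ((m σ : ℝ) - (σ.length : ℝ)) := by
          rw [h7, sub_eq_add_neg, Real.rpow_add (by norm_num) (m σ : ℝ), Real.rpow_natCast]
          ring
  -- the sum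
  have hsum : (1 : ℝ) ≤ ∑ σ ∈ T, (2 : ℝ) ^ ((m σ : ℝ) - (σ.length : ℝ)) := by
    have h1 : K.card ≤ ∑ σ ∈ T, (K.filter (fun a => Extends (orc N a) σ)).card := by
      have h2 : K ⊆ T.biUnion fun σ => K.filter (fun a => Extends (orc N a) σ) := by
        intro a ha
        have ha' := ha
        rw [hKd, Finset.mem_filter] at ha'
        obtain ⟨σ, hσT, hE⟩ := hcov (orc N a) ha'.2.2
        exact Finset.mem_biUnion.2 ⟨σ, hσT, Finset.mem_filter.2 ⟨ha, hE⟩⟩
      exact (Finset.card_le_card h2).trans Finset.card_biUnion_le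
    have h2 : (K.card : ℝ) ≤ ∑ σ ∈ T, ((K.filter (fun a => Extends (orc N a) σ)).card : ℝ) := by
      exact_mod_cast h1
    have h3 : (2 : ℝ) ^ J.card * (K.card : ℝ) = 2 ^ N := by exact_mod_cast hK'
    have h4 : (2 : ℝ) ^ N ≤ ∑ σ ∈ T, (2 : ℝ) ^ N * 2 ^ ((m σ : ℝ) - (σ.length : ℝ)) := by
      calc (2 : ℝ) ^ N = (2 : ℝ) ^ J.card * (K.card : ℝ) := h3.symm
        _ ≤ (2 : ℝ) ^ J.card * ∑ σ ∈ T, ((K.filter (fun a => Extends (orc N a) σ)).card : ℝ) :=
            mul_le_mul_of_nonneg_left h2 (by positivity)
        _ = ∑ σ ∈ T, (2 : ℝ) ^ J.card * ((K.filter (fun a => Extends (orc N a) σ)).card : ℝ) :=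
            Finset.mul_sum _ _ _
        _ ≤ _ := Finset.sum_le_sum hσ
    rw [← Finset.mul_sum] at h4
    have h5 : (0 : ℝ) < 2 ^ N := by positivity
    nlinarith
  rw [← ENNReal.ofReal_one]
  refine (ENNReal.ofReal_le_ofReal hsum).trans ?_
  rw [ENNReal.ofReal_sum_of_nonneg (fun σ _ => by positivity)]
  rw [← Finset.sum_subtype_of_mem (fun σ : List Bool =>
    ENNReal.ofReal (2 ^ ((m σ : ℝ) - (σ.length : ℝ)))) hTS]
  exact ENNReal.sum_le_tsum _

end H529R3.Lev
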