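import Pool.Agent.H529R3.Lev.Inv
import Pool.Agent.H529R3.Lev.Asked
import Pool.Agent.H529R3.Lev.Coding
import Pool.Agent.H620R2.Gauge.Event

/-! Parity constraints for the codes. -/

set_option autoImplicit false

namespace H529R3.Lev

open Pool.Agent.NPC Pool.Agent.H620R2.Gauge Finset

/-- the length of the name of a constraint -/
def ln (l : ℕ × List Bool) : ℕ := l.2.length + l.1 + 1

open Classical in
theorem card_ln (J : Finset (ℕ × List Bool)) (m : ℕ) : (J.filter (fun l => ln l = m)).card ≤ 2 ^ m := by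
  refine le_trans ?_ (card_strsOf m)
  apply Finset.card_le_card_of_injOn
    (fun l => List.replicate l.1 true ++ false :: l.2)
  · intro l hl
    rw [Finset.mem_coe, Finset.mem_filter] at hl
    have h1 : (List.replicate l.1 true ++ false :: l.2).length = m := by
      rw [← hl.2]
      simp [ln]
      omega
    have h2 := mem_strsOf (List.replicate l.1 true ++ false :: l.2)
    rw [h1] at h2
    exact h2
  · intro l _ l' _ h
    obtain ⟨h1, h2⟩ := marker_inj h
    exact Prod.ext h1 h2

open Classical in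
theorem kraft (J : Finset (ℕ × List Bool)) : ∑ l ∈ J, (1 / 8 : ℝ) ^ ln l < 1 := by
  set D := J.sup ln with hD
  have h1 : ∑ l ∈ J, (1 / 8 : ℝ) ^ ln l =
      ∑ m ∈ Finset.range (D + 1), ∑ l ∈ J with ln l = m, (1 / 8 : ℝ) ^ ln l := by
    symm
    apply Finset.sum_fiberwise_of_maps_to
    intro l hl
    rw [Finset.mem_range, Nat.lt_succ_iff]
    exact Finset.le_sup (f := ln) hl
  rw [h1]
  have h2 : ∀ m ∈ Finset.range (D + 1), ∑ l ∈ J with ln l = m, (1 / 8 : ℝ) ^ ln l ≤
      if m = 0 then 0 else (1 / 4 : ℝ) ^ m := by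
    intro m _
    have h3 : ∑ l ∈ J with ln l = m, (1 / 8 : ℝ) ^ ln l =
        ((J.filter (fun l => ln l = m)).card : ℝ) * (1 / 8) ^ m := by
      rw [Finset.sum_congr rfl (g := fun _ => (1 / 8 : ℝ) ^ m)]
      · rw [Finset.sum_const, nsmul_eq_mul]
      · intro l hl
        rw [(Finset.mem_filter.1 hl).2]
    rw [h3]
    split_ifs with hm
    · subst hm
      have : J.filter (fun l => ln l = 0) = ∅ := by
        apply Finset.filter_false_of_mem
        intro l _ h
        unfold ln at h
        omega
      rw [this]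
      simp
    · have h4 : ((J.filter (fun l => ln l = m)).card : ℝ) ≤ 2 ^ m := by exact_mod_cast card_ln J m
      calc ((J.filter (fun l => ln l = m)).card : ℝ) * (1 / 8) ^ m ≤ 2 ^ m * (1 / 8) ^ m := by
            gcongr
        _ = (1 / 4) ^ m := by rw [← mul_pow]; norm_num
  refine lt_of_le_of_lt (Finset.sum_le_sum h2) ?_
  have h5 : ∑ m ∈ Finset.range (D + 1), (if m = 0 then (0 : ℝ) else (1 / 4 : ℝ) ^ m) + 1 =
      ∑ m ∈ Finset.range (D + 1), (1 / 4 : ℝ) ^ m := by
    rw [Finset.sum_range_succ', Finset.sum_range_succ' (fun m => (1 / 4 : ℝ) ^ m)]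
    simp
  have h6 := geom_sum_eq (show (1 / 4 : ℝ) ≠ 1 by norm_num) (D + 1)
  rw [h6] at h5
  have h7 : (0 : ℝ) < (1 / 4) ^ (D + 1) := by positivity
  have h8 : ((1 / 4 : ℝ) ^ (D + 1) - 1) / (1 / 4 - 1) = (4 / 3) * (1 - (1 / 4) ^ (D + 1)) := by
    ring
  rw [h8] at h5
  linarith

/-- the number of rounds -/
def rds (i : ℕ) (θ : Alg × Polynomial ℕ) (n : ℕ) : ℕ :=
  θ.1.p.eval (2 * n + 1 + tow i (θ.2.eval n))

/-- the constraint -/
def con (i : ℕ) (g : ℕ → Alg × Polynomial ℕ) (R : ℕ → ℕ → ℕ) (j : ℕ × List Bool) (A : Oracle) :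
    Prop :=
  AccP i (g j.1).1 (g j.1).2 A j.2 ↔ codeL R j.1 j.2 ∈ parLang A

theorem blk_disj' (N : ℕ) (x x' : List Bool) (hne : x ≠ x') : Disjoint (blk N x) (blk N x') := by
  by_cases hl : x.length = x'.length
  · exact blk_disj N x x' hl hne
  · rw [Finset.disjoint_left]
    intro i hi hi'
    rw [blk, Finset.mem_filter] at hi hi'
    obtain ⟨_, j, _, hj⟩ := hi
    obtain ⟨_, j', _, hj'⟩ := hi'
    have h1 := congrArg List.length hj
    have h2 := congrArg List.length hj'
    rw [List.length_append, length_bitsOf] at h1 h2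
    omega

theorem dec_iff (P : Prop) [Decidable P] (b : Bool) : (P ↔ b = true) ↔ decide P = b := by
  cases b <;> simp

open Classical in
theorem count (i : ℕ) (g : ℕ → Alg × Polynomial ℕ) (R : ℕ → ℕ → ℕ)
    (hT : ∀ e n, rds i (g e) n * 8 ^ (n + e + 1) ≤ 2 ^ R e n)
    (N : ℕ) (J : Finset (ℕ × List Bool))
    (hN : ∀ j ∈ J, 2 ^ (2 * (codeL R j.1 j.2).length + 1) ≤ N + 1)
    (G : (Fin N → Bool) → Prop)
    (hG : ∀ j ∈ J, ∀ a, ∀ w ∈ blk N (codeL R j.1 j.2), G (flip w a) ↔ G a) :
    2 ^ J.card * (univ.filter (fun a : Fin N → Bool => G a ∧ ∀ j ∈ J, con i g R j (orc N a))).card =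
      (univ.filter (fun a => G a)).card := by
  set Y : ℕ × List Bool → List Bool := fun l =>
    pairBits l.2 (ones (tow i ((g l.1).2.eval l.2.length))) with hY
  have hYlen : ∀ l, (Y l).length = 2 * l.2.length + 1 + tow i ((g l.1).2.eval l.2.length) := by
    intro l
    rw [hY]
    simp only [length_pairBits, ones, List.length_replicate]
  set V : ℕ × List Bool → (Fin N → Bool) → Bool := fun l a =>
    decide ((g l.1).1.out (orc N a) (Y l) = some [true]) with hV
  set Q : ℕ × List Bool → (Fin N → Bool) → Finset (Fin N) := fun l a =>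
    univ.filter (fun i : Fin N => str i ∈ asked (g l.1).1 (orc N a) (Y l)
      ((g l.1).1.p.eval (Y l).length) []) with hQd
  have hpre : ∀ a : Fin N → Bool, pre N (orc N a) = a := by
    intro a
    funext i
    unfold pre orc
    rw [dif_pos (by rw [idx_str]; exact i.2)]
    congr 1
    apply Fin.ext
    simp [idx_str]
  have hpar : ∀ j ∈ J, ∀ a : Fin N → Bool, con i g R j (orc N a) ↔
      V j a = par (blk N (codeL R j.1 j.2)) a := by
    intro j hj a
    have h1 := blk_par N (orc N a) (codeL R j.1 j.2) (hN j hj)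
    rw [hpre] at h1
    unfold con
    rw [← h1]
    exact dec_iff ((g j.1).1.out (orc N a) (Y j) = some [true]) _
  have key := indep (I := Fin N) (fun j => (codeL R j.1 j.2).length)
    (fun j => blk N (codeL R j.1 j.2)) V Q ?_ G J.card J rfl ?_ ?_ hG
  · rw [← key]
    congr 2
    ext a
    simp only [Finset.mem_filter, Finset.mem_univ, true_and]
    refine and_congr_right fun _ => forall_congr' fun j => forall_congr' fun hj => ?_
    exact hpar j hj a
  · intro l a b h
    have h1 : ∀ q ∈ asked (g l.1).1 (orc N a) (Y l) ((g l.1).1.p.eval (Y l).length) [],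
        orc N b q = orc N a q := by
      intro q hq
      unfold orc
      by_cases hlt : idx q < N
      · rw [dif_pos hlt, dif_pos hlt]
        apply h
        rw [hQd]
        simp only [Finset.mem_filter, Finset.mem_univ, true_and]
        rw [str_idx]
        exact hq
      · rw [dif_neg hlt, dif_neg hlt]
    have h2 := asked_congr (g l.1).1 (orc N a) (orc N b) (Y l) _ [] h1
    constructor
    · rw [hQd]
      simp only
      rw [h2.1]
    · rw [hV]
      simp only
      unfold Alg.out
      rw [h2.2]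
  · intro j _ l _ hjl
    apply blk_disj'
    intro h
    obtain ⟨h1, h2⟩ := codeL_inj R h
    exact hjl (Prod.ext h1 h2)
  · intro j hj a
    rw [blk_card N _ (hN j hj)]
    have h1 : ∀ l, (Q l a).card ≤ rds i (g l.1) l.2.length := by
      intro l
      have h2 : (Q l a).card ≤ (asked (g l.1).1 (orc N a) (Y l)
          ((g l.1).1.p.eval (Y l).length) []).card := by
        apply Finset.card_le_card_of_injOn (fun i : Fin N => str i)
        · intro i hi
          rw [Finset.mem_coe, hQd] at hi
          simp only [Finset.mem_filter, Finset.mem_univ, true_and] at hi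
          exact hi
        · intro i _ i' _ hii
          exact Fin.ext (str_injective hii)
      refine h2.trans ((asked_card _ _ _ _ _).trans ?_)
      unfold rds
      rw [hYlen]
    set lam := (codeL R j.1 j.2).length with hlam
    have h3 : ((∑ l ∈ J with (codeL R l.1 l.2).length ≤ lam, (Q l a).card : ℕ) : ℝ) <
        ((2 ^ lam : ℕ) : ℝ) := by
      push_cast
      have h4 : ∀ l ∈ J.filter (fun l => (codeL R l.1 l.2).length ≤ lam),
          ((Q l a).card : ℝ) ≤ 2 ^ lam * (1 / 8) ^ ln l := by
        intro l hl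
        have hll := (Finset.mem_filter.1 hl).2
        have h5 := hT l.1 l.2.length
        have h6 : 2 ^ R l.1 l.2.length ≤ 2 ^ lam := by
          apply Nat.pow_le_pow_right (by norm_num)
          have := lt_length_codeL R l.1 l.2
          omega
        have h7 : (Q l a).card * 8 ^ ln l ≤ 2 ^ lam :=
          le_trans (Nat.mul_le_mul_right _ (h1 l)) (h5.trans h6)
        have h8 : ((Q l a).card : ℝ) * 8 ^ ln l ≤ 2 ^ lam := by exact_mod_cast h7
        rw [one_div, inv_pow, ← div_eq_mul_inv, le_div_iff₀ (by positivity)]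
        exact h8
      refine lt_of_le_of_lt (Finset.sum_le_sum h4) ?_
      rw [← Finset.mul_sum]
      have h9 := kraft (J.filter (fun l => (codeL R l.1 l.2).length ≤ lam))
      have h10 : (0 : ℝ) < 2 ^ lam := by positivity
      nlinarith
    exact_mod_cast h3

end H529R3.Lev
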